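import Pool.Agent.Lib.MP_8b6d0b_co.Geom

namespace NonHit

open Projectivization Matrix
open scoped LinearAlgebra.Projectivization Classical

variable {F : Type*} [Field F]

theorem slots_pairing {ι : Type*} [Fintype ι] (c : ι → ℕ) (B : ℕ)
    (hB : Fintype.card ι ≤ 2 * B)
    (hc : ∀ k, (Finset.univ.filter (fun x => c x = k)).card ≤ B) :
    ∃ s : ι → Fin B, (∀ x y, s x = s y → x ≠ y → c x ≠ c y) ∧
      ∀ x y z, s x = s y → s y = s z → x = y ∨ y = z ∨ x = z := by
  rcases Nat.eq_zero_or_pos B with hB0 | hBpos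
  · subst hB0
    have : IsEmpty ι := Fintype.card_eq_zero_iff.mp (by omega)
    exact ⟨fun x => (this.false x).elim, fun x => (this.false x).elim,
      fun x => (this.false x).elim⟩
  let e := Fintype.equivFin ι
  let f : Fin (Fintype.card ι) → ℕ := fun i => c (e.symm i)
  let σ := Tuple.sort f
  have hmono : Monotone (f ∘ σ) := Tuple.monotone_sort f
  let pos : ι → Fin (Fintype.card ι) := fun x => σ.symm (e x)
  have hpos_inj : Function.Injective pos := fun x y h => e.injective (σ.symm.injective h)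
  have hcpos : ∀ x, c x = (f ∘ σ) (pos x) := by
    intro x
    simp [f, pos]
  have hlt : ∀ x, (pos x : ℕ) < 2 * B := fun x => lt_of_lt_of_le (pos x).2 hB
  have key : ∀ x y, (pos x : ℕ) % B = (pos y : ℕ) % B → (pos x : ℕ) < pos y → c x ≠ c y := by
    intro x y hmod hxy hcc
    have hge : (pos x : ℕ) + B ≤ pos y := by
      have h1 := Nat.div_add_mod (pos x : ℕ) B
      have h2 := Nat.div_add_mod (pos y : ℕ) B
      have h3 : (pos x : ℕ) / B < (pos y : ℕ) / B := by
        by_contra hcon
        push Not at hcon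
        have := Nat.mul_le_mul_left B hcon
        omega
      have h4 : B * ((pos x : ℕ) / B + 1) ≤ B * ((pos y : ℕ) / B) := Nat.mul_le_mul_left B h3
      rw [Nat.mul_add] at h4
      omega
    have hsub : (Finset.Icc (pos x) (pos y)).image (fun i => e.symm (σ i)) ⊆
        Finset.univ.filter (fun z => c z = c x) := by
      intro z hz
      rw [Finset.mem_image] at hz
      obtain ⟨i, hi, rfl⟩ := hz
      rw [Finset.mem_Icc] at hi
      rw [Finset.mem_filter]
      refine ⟨Finset.mem_univ _, ?_⟩
      have h1 := hmono hi.1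
      have h2 := hmono hi.2
      rw [← hcpos] at h1 h2
      have : c (e.symm (σ i)) = (f ∘ σ) i := rfl
      rw [this]
      omega
    have hcard := Finset.card_le_card hsub
    rw [Finset.card_image_of_injective _ (fun i j h => σ.injective (e.symm.injective h)),
      Fin.card_Icc] at hcard
    have := hc (c x)
    omega
  refine ⟨fun x => ⟨(pos x : ℕ) % B, Nat.mod_lt _ hBpos⟩, ?_, ?_⟩
  · intro x y h hne
    have hmod : (pos x : ℕ) % B = (pos y : ℕ) % B := by
      simpa using congrArg Fin.val h
    rcases lt_trichotomy (pos x : ℕ) (pos y : ℕ) with h1 | h1 | h1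
    · exact key x y hmod h1
    · exact absurd (hpos_inj (Fin.ext h1)) hne
    · exact (key y x hmod.symm h1).symm
  · intro x y z hxy hyz
    have h1 : (pos x : ℕ) % B = (pos y : ℕ) % B := by simpa using congrArg Fin.val hxy
    have h2 : (pos y : ℕ) % B = (pos z : ℕ) % B := by simpa using congrArg Fin.val hyz
    have q : ∀ w : ι, (pos w : ℕ) / B = 0 ∨ (pos w : ℕ) / B = 1 := by
      intro w
      have h3 : (pos w : ℕ) / B < 2 := Nat.div_lt_of_lt_mul (by have := hlt w; rwa [mul_comm] at this)
      rcases Nat.lt_or_ge ((pos w : ℕ) / B) 1 with h4 | h4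
      · exact Or.inl (Nat.lt_one_iff.mp h4)
      · exact Or.inr (le_antisymm (Nat.lt_succ_iff.mp h3) h4)
    have ext' : ∀ v w : ι, (pos v : ℕ) % B = (pos w : ℕ) % B →
        (pos v : ℕ) / B = (pos w : ℕ) / B → v = w := by
      intro v w h3 h4
      apply hpos_inj
      apply Fin.ext
      rw [← Nat.div_add_mod (pos v : ℕ) B, ← Nat.div_add_mod (pos w : ℕ) B, h3, h4]
    rcases q x with hx | hx <;> rcases q y with hy | hy <;> rcases q z with hz | hz
    · exact Or.inl (ext' _ _ h1 (by rw [hx, hy]))
    · exact Or.inl (ext' _ _ h1 (by rw [hx, hy]))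
    · exact Or.inr (Or.inr (ext' _ _ (h1.trans h2) (by rw [hx, hz])))
    · exact Or.inr (Or.inl (ext' _ _ h2 (by rw [hy, hz])))
    · exact Or.inr (Or.inl (ext' _ _ h2 (by rw [hy, hz])))
    · exact Or.inr (Or.inr (ext' _ _ (h1.trans h2) (by rw [hx, hz])))
    · exact Or.inl (ext' _ _ h1 (by rw [hx, hy]))
    · exact Or.inl (ext' _ _ h1 (by rw [hx, hy]))

theorem exists_line_off (P : PG F) : ∃ l : PG F, ¬ P.orthogonal l := by
  have : ∃ i, P.rep i ≠ 0 := by
    by_contra h
    push Not at h
    exact P.rep_nonzero (funext h)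
  obtain ⟨i, hi⟩ := this
  have hs : (Pi.single i (1 : F) : Fin 3 → F) ≠ 0 := by
    intro h
    have := congrFun h i
    simp at this
  refine ⟨Projectivization.mk F (Pi.single i (1 : F)) hs, ?_⟩
  intro h
  conv at h => lhs; rw [← P.mk_rep]
  rw [orthogonal_mk P.rep_nonzero hs] at h
  simp at h
  exact hi h

theorem exists_point_off (l0 : PG F) : ∃ P : PG F, ¬ P.orthogonal l0 := by
  obtain ⟨l, hl⟩ := exists_line_off l0
  exact ⟨l, fun h => hl (orthogonal_comm.mp h)⟩

theorem exists_on_off {l l0 : PG F} (h : l ≠ l0) : ∃ P : PG F, P.orthogonal l ∧ ¬ P.orthogonal l0 := by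
  obtain ⟨m, hm⟩ := exists_line_off (ln l l0)
  have hlm : l ≠ m := by
    rintro rfl
    exact hm (meet_left h)
  refine ⟨ln l m, meet_left hlm, ?_⟩
  intro h0
  rcases eq_or_eq (meet_left hlm) (meet_left h) h0 (meet_right h) with h1 | h1
  · apply hm
    rw [← h1]
    exact meet_right hlm
  · exact h h1

theorem exists_on_on_off {l m l0 : PG F} (hl : l ≠ l0) (hm : m ≠ l0) (h : ln l l0 ≠ ln m l0) :
    ∃ P : PG F, P.orthogonal l ∧ P.orthogonal m ∧ ¬ P.orthogonal l0 := by
  have hlm : l ≠ m := by
    rintro rfl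
    exact h rfl
  refine ⟨ln l m, meet_left hlm, meet_right hlm, ?_⟩
  intro h0
  rcases eq_or_eq (meet_left hlm) (meet_left hl) h0 (meet_right hl) with h1 | h1
  · rcases eq_or_eq (meet_right hlm) (meet_left hm) h0 (meet_right hm) with h2 | h2
    · exact h (h1.symm.trans h2)
    · exact hm h2
  · exact hl h1

theorem slots [Fintype F] (l0 : PG F) (T' : Finset (PG F)) (hl0 : l0 ∉ T') (d : PG F → ℕ) (B : ℕ)
    (hclass : ∀ A : PG F, A.orthogonal l0 →
      ∑ l ∈ T'.filter (fun l => A.orthogonal l), d l ≤ B)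
    (htot : ∑ l ∈ T', d l ≤ 2 * B) :
    ∃ M : Multiset (PG F), M.card = B ∧ (∀ A ∈ M, ¬ A.orthogonal l0) ∧
      ∀ l ∈ T', d l ≤ (M.filter fun A => A.orthogonal l).card := by
  have hne : ∀ l ∈ T', l ≠ l0 := fun l hl h => hl0 (h ▸ hl)
  let g : PG F → ℕ := fun A => (Fintype.equivFin (PG F) A : ℕ)
  have hg : Function.Injective g := fun A B h => (Fintype.equivFin (PG F)).injective (Fin.ext h)
  let c : (Σ l : {l // l ∈ T'}, Fin (d l.1)) → ℕ := fun x => g (ln x.1.1 l0)
  have hcard : Fintype.card (Σ l : {l // l ∈ T'}, Fin (d l.1)) ≤ 2 * B := by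
    rw [Fintype.card_sigma]
    simp only [Fintype.card_fin]
    rw [Finset.univ_eq_attach, Finset.sum_attach T' (fun l => d l)]
    exact htot
  have hcc : ∀ k, (Finset.univ.filter (fun x => c x = k)).card ≤ B := by
    intro k
    rcases Finset.eq_empty_or_nonempty (Finset.univ.filter (fun x => c x = k)) with h0 | ⟨x0, hx0⟩
    · rw [h0]; simp
    · rw [Finset.mem_filter] at hx0
      set A := ln x0.1.1 l0 with hA
      have hA0 : A.orthogonal l0 := meet_right (hne _ x0.1.2)
      refine le_trans ?_ (hclass A hA0)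
      have h1 : ∑ l ∈ T'.filter (fun l => A.orthogonal l), d l
          = ∑ l : {l // l ∈ T'}, if A.orthogonal l.1 then d l.1 else 0 := by
        rw [Finset.sum_filter, Finset.univ_eq_attach,
          Finset.sum_attach T' (fun l => if A.orthogonal l then d l else 0)]
      rw [h1, Finset.card_filter, Fintype.sum_sigma]
      apply Finset.sum_le_sum
      intro l _
      split_ifs with h2
      · calc ∑ y : Fin (d l.1), (if c ⟨l, y⟩ = k then 1 else 0)
            ≤ ∑ y : Fin (d l.1), 1 := Finset.sum_le_sum (fun y _ => by split_ifs <;> omega)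
          _ = d l.1 := by simp
      · apply le_of_eq
        apply Finset.sum_eq_zero
        intro y _
        rw [if_neg]
        intro h3
        apply h2
        have h4 : ln l.1 l0 = A := by
          apply hg
          have h5 : c x0 = k := hx0.2
          rw [← h5] at h3
          exact h3
        rw [← h4]
        exact meet_left (hne _ l.2)
  obtain ⟨s, hs1, hs2⟩ := slots_pairing c B hcard hcc
  have hp : ∀ j : Fin B, ∃ P : PG F, ¬ P.orthogonal l0 ∧ ∀ x, s x = j → P.orthogonal x.1.1 := by
    intro j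
    by_cases h1 : ∃ x, s x = j
    · obtain ⟨x, hx⟩ := h1
      by_cases h2 : ∃ y, s y = j ∧ y ≠ x
      · obtain ⟨y, hy, hyx⟩ := h2
        have hcxy := hs1 x y (hx.trans hy.symm) (fun h => hyx h.symm)
        have hxy : ln x.1.1 l0 ≠ ln y.1.1 l0 := fun h => hcxy (congrArg g h)
        obtain ⟨P, hP1, hP2, hP3⟩ := exists_on_on_off (hne _ x.1.2) (hne _ y.1.2) hxy
        refine ⟨P, hP3, ?_⟩
        intro z hz
        rcases hs2 x y z (hx.trans hy.symm) (hy.trans hz.symm) with h | h | h
        · exact absurd h.symm hyx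
        · rw [← h]; exact hP2
        · rw [← h]; exact hP1
      · push Not at h2
        obtain ⟨P, hP1, hP2⟩ := exists_on_off (hne _ x.1.2)
        refine ⟨P, hP2, ?_⟩
        intro z hz
        rw [h2 z hz]
        exact hP1
    · push Not at h1
      obtain ⟨P, hP⟩ := exists_point_off l0
      exact ⟨P, hP, fun x hx => absurd hx (h1 x)⟩
  choose p hp1 hp2 using hp
  refine ⟨(Finset.univ : Finset (Fin B)).val.map p, by simp, ?_, ?_⟩
  · intro A hA
    rw [Multiset.mem_map] at hA
    obtain ⟨j, _, rfl⟩ := hA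
    exact hp1 j
  · intro l hl
    rw [Multiset.filter_map, Multiset.card_map]
    have h1 : Multiset.card (Multiset.filter ((fun A : PG F => A.orthogonal l) ∘ p)
        (Finset.univ : Finset (Fin B)).val) = (Finset.univ.filter fun j => (p j).orthogonal l).card := by
      rfl
    rw [h1]
    calc d l = (Finset.univ : Finset (Fin (d l))).card := by simp
      _ ≤ _ := by
        apply Finset.card_le_card_of_injOn (fun k => s ⟨⟨l, hl⟩, k⟩)
        · intro k _
          simp only [Finset.coe_filter, Finset.mem_univ, true_and, Set.mem_ofPred_eq]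
          exact hp2 _ ⟨⟨l, hl⟩, k⟩ rfl
        · intro k _ k' _ h
          by_contra hkk
          exact hs1 ⟨⟨l, hl⟩, k⟩ ⟨⟨l, hl⟩, k'⟩ h (fun h => hkk (by simpa using h)) rfl

end NonHit
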