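import Mathlib

/-!
Characteristic 3: a set of `q+1` affine points with only vertical triples, all of sum zero,
cannot have five full verticals (nor exactly two for `q = 9`).
-/

open Finset

namespace NonHit

namespace CharThree

open scoped Classical

variable {F : Type*} [Field F]

/-- slope of the line joining two points -/
noncomputable def sl (P X : F × F) : F := (X.2 - P.2) / (X.1 - P.1)

lemma sl_symm (P X : F × F) : sl P X = sl X P := by
  unfold sl
  rw [← neg_sub X.2, ← neg_sub X.1, neg_div_neg_eq]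
  

/-- points off the vertical through `P` -/
noncomputable def NN (S : Finset (F × F)) (P : F × F) : Finset (F × F) :=
  S.filter fun X => X.1 ≠ P.1

/-- points on the vertical through `P` -/
noncomputable def TT (S : Finset (F × F)) (P : F × F) : Finset (F × F) :=
  S.filter fun X => X.1 = P.1

/-- the product of three-point determinants -/
noncomputable def Phi (S : Finset (F × F)) (P R : F × F) : F :=
  ∏ X ∈ (S.erase P).erase R, ((X.1 - P.1) * (R.2 - P.2) - (X.2 - P.2) * (R.1 - P.1))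

noncomputable def AA (S : Finset (F × F)) (P : F × F) : F :=
  ∏ X ∈ NN S P, (X.1 - P.1)

noncomputable def BB (S : Finset (F × F)) (P : F × F) : F :=
  ∏ X ∈ (TT S P).erase P, (P.2 - X.2)

lemma AA_ne (S : Finset (F × F)) (P : F × F) : AA S P ≠ 0 := by
  unfold AA
  rw [Finset.prod_ne_zero_iff]
  intro X hX
  rw [NN, mem_filter] at hX
  exact sub_ne_zero.2 hX.2

lemma BB_ne (S : Finset (F × F)) (P : F × F) : BB S P ≠ 0 := by
  unfold BB
  rw [Finset.prod_ne_zero_iff]
  intro X hX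
  rw [mem_erase, TT, mem_filter] at hX
  refine sub_ne_zero.2 fun h => hX.1 ?_
  exact Prod.ext hX.2.2 h.symm

omit [Field F] in
lemma card_NN_add (S : Finset (F × F)) (P : F × F) :
    (NN S P).card + (TT S P).card = S.card := by
  unfold NN TT
  rw [add_comm]
  exact Finset.card_filter_add_card_filter_not (fun X : F × F => X.1 = P.1)

lemma AA_congr (S : Finset (F × F)) {P R : F × F} (h : P.1 = R.1) : AA S P = AA S R := by
  unfold AA NN
  rw [h]

lemma prod_erase_sub [Fintype F] (m : F) : ∏ x ∈ (univ : Finset F).erase m, (m - x) = -1 := by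
  have h1 : ∏ x : Fˣ, ((x : F)) = -1 := by
    have := congrArg (fun u : Fˣ => (u : F)) (FiniteField.prod_univ_units_id_eq_neg_one (K := F))
    simpa [Units.coe_prod] using this
  rw [← h1]
  symm
  refine Finset.prod_bij (fun (x : Fˣ) _ => m - (x : F)) ?_ ?_ ?_ ?_
  · intro x _
    rw [mem_erase]
    refine ⟨fun h => x.ne_zero ?_, mem_univ _⟩
    linear_combination -h
  · intro x _ y _ h
    apply Units.ext
    linear_combination -h
  · intro b hb
    rw [mem_erase] at hb
    refine ⟨Units.mk0 (m - b) (sub_ne_zero.2 (Ne.symm hb.1)), mem_univ _, ?_⟩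
    simp
  · intro x _
    ring

lemma Phi_symm {S : Finset (F × F)} {P R : F × F} (hP : P ∈ S) (hR : R ∈ S) (hne : P ≠ R)
    (hev : Even (S.card - 2)) : Phi S R P = Phi S P R := by
  unfold Phi
  rw [Finset.erase_right_comm]
  have hc : ((S.erase P).erase R).card = S.card - 2 := by
    rw [Finset.card_erase_of_mem (Finset.mem_erase.2 ⟨hne.symm, hR⟩), Finset.card_erase_of_mem hP]
    omega
  have h1 : ∀ X ∈ (S.erase P).erase R,
      ((X.1 - R.1) * (P.2 - R.2) - (X.2 - R.2) * (P.1 - R.1))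
        = (-1) * ((X.1 - P.1) * (R.2 - P.2) - (X.2 - P.2) * (R.1 - P.1)) := by
    intro X _
    ring
  rw [Finset.prod_congr rfl h1, Finset.prod_mul_distrib, Finset.prod_const, hc, hev.neg_one_pow,
    one_mul]

lemma Phi_eq [Fintype F] {S : Finset (F × F)} {P R : F × F} (hP : P ∈ S) (hR : R ∈ S)
    (hne : P.1 ≠ R.1) (hcard : S.card = Fintype.card F + 1) :
    (R.1 - P.1) * Phi S P R
      = AA S P * BB S P * ∏ X ∈ (NN S P).erase R, (sl P R - sl P X) := by
  have hd : R.1 - P.1 ≠ 0 := sub_ne_zero.2 (Ne.symm hne)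
  have hRN : R ∈ NN S P := by
    rw [NN, mem_filter]; exact ⟨hR, Ne.symm hne⟩
  have hPT : P ∈ TT S P := by
    rw [TT, mem_filter]; exact ⟨hP, rfl⟩
  have hs1 : ((S.erase P).erase R).filter (fun X => X.1 ≠ P.1) = (NN S P).erase R := by
    ext X
    simp only [mem_filter, mem_erase, NN]
    constructor
    · rintro ⟨⟨h1, h2, h3⟩, h4⟩
      exact ⟨h1, h3, h4⟩
    · rintro ⟨h1, h3, h4⟩
      exact ⟨⟨h1, fun h => h4 (by rw [h]), h3⟩, h4⟩
  have hs2 : ((S.erase P).erase R).filter (fun X => ¬ X.1 ≠ P.1) = (TT S P).erase P := by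
    ext X
    simp only [mem_filter, mem_erase, TT, not_not]
    constructor
    · rintro ⟨⟨h1, h2, h3⟩, h4⟩
      exact ⟨h2, h3, h4⟩
    · rintro ⟨h1, h3, h4⟩
      exact ⟨⟨fun h => hne (by rw [← h4, h]), h1, h3⟩, h4⟩
  have hsplit : Phi S P R
      = (∏ X ∈ (NN S P).erase R, ((X.1 - P.1) * (R.2 - P.2) - (X.2 - P.2) * (R.1 - P.1))) *
        ∏ X ∈ (TT S P).erase P, ((X.1 - P.1) * (R.2 - P.2) - (X.2 - P.2) * (R.1 - P.1)) := by
    unfold Phi
    rw [← hs1, ← hs2]
    exact (Finset.prod_filter_mul_prod_filter_not _ _ _).symm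
  have hN : (∏ X ∈ (NN S P).erase R, ((X.1 - P.1) * (R.2 - P.2) - (X.2 - P.2) * (R.1 - P.1)))
      = (∏ X ∈ (NN S P).erase R, (X.1 - P.1)) * (R.1 - P.1) ^ ((NN S P).card - 1) *
        ∏ X ∈ (NN S P).erase R, (sl P R - sl P X) := by
    rw [← Finset.card_erase_of_mem hRN, ← Finset.prod_const, ← Finset.prod_mul_distrib,
      ← Finset.prod_mul_distrib]
    refine Finset.prod_congr rfl fun X hX => ?_
    rw [mem_erase, NN, mem_filter] at hX
    have hx : X.1 - P.1 ≠ 0 := sub_ne_zero.2 hX.2.2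
    unfold sl
    field_simp
  have hT : (∏ X ∈ (TT S P).erase P, ((X.1 - P.1) * (R.2 - P.2) - (X.2 - P.2) * (R.1 - P.1)))
      = BB S P * (R.1 - P.1) ^ ((TT S P).card - 1) := by
    rw [← Finset.card_erase_of_mem hPT, ← Finset.prod_const, BB, ← Finset.prod_mul_distrib]
    refine Finset.prod_congr rfl fun X hX => ?_
    rw [mem_erase, TT, mem_filter] at hX
    rw [hX.2.2]
    ring
  have hA : AA S P = (R.1 - P.1) * ∏ X ∈ (NN S P).erase R, (X.1 - P.1) := by
    unfold AA
    rw [Finset.mul_prod_erase _ (fun X : F × F => X.1 - P.1) hRN]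
  have hpow : (R.1 - P.1) ^ ((NN S P).card - 1) * (R.1 - P.1) ^ ((TT S P).card - 1) = 1 := by
    rw [← pow_add]
    have h1 := card_NN_add S P
    have h2 : 0 < (NN S P).card := Finset.card_pos.2 ⟨R, hRN⟩
    have h3 : 0 < (TT S P).card := Finset.card_pos.2 ⟨P, hPT⟩
    have h4 : (NN S P).card - 1 + ((TT S P).card - 1) = Fintype.card F - 1 := by omega
    rw [h4]
    exact FiniteField.pow_card_sub_one_eq_one _ hd
  rw [hsplit, hN, hT, hA]
  linear_combination ((R.1 - P.1) * (∏ X ∈ (NN S P).erase R, (X.1 - P.1)) * BB S P *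
    ∏ X ∈ (NN S P).erase R, (sl P R - sl P X)) * hpow

/-- missing slopes at `P` -/
noncomputable def MM [Fintype F] (S : Finset (F × F)) (P : F × F) : Finset F :=
  univ \ (NN S P).image (sl P)

lemma sl_inj {S : Finset (F × F)}
    (hline : ∀ p ∈ S, ∀ q ∈ S, ∀ r ∈ S, p ≠ q → q ≠ r → p ≠ r →
      (q.1 - p.1) * (r.2 - p.2) = (r.1 - p.1) * (q.2 - p.2) → p.1 = q.1)
    {P : F × F} (hP : P ∈ S) : Set.InjOn (sl P) (NN S P) := by
  intro X hX Y hY h
  rw [mem_coe, NN, mem_filter] at hX hY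
  by_contra hXY
  refine hX.2 (hline P hP X hX.1 Y hY.1 ?_ hXY ?_ ?_).symm
  · rintro rfl; exact hX.2 rfl
  · rintro rfl; exact hY.2 rfl
  · have hx : X.1 - P.1 ≠ 0 := sub_ne_zero.2 hX.2
    have hy : Y.1 - P.1 ≠ 0 := sub_ne_zero.2 hY.2
    unfold sl at h
    field_simp at h
    linear_combination -h

lemma card_MM [Fintype F] {S : Finset (F × F)}
    (hline : ∀ p ∈ S, ∀ q ∈ S, ∀ r ∈ S, p ≠ q → q ≠ r → p ≠ r →
      (q.1 - p.1) * (r.2 - p.2) = (r.1 - p.1) * (q.2 - p.2) → p.1 = q.1)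
    {P : F × F} (hP : P ∈ S) (hcard : S.card = Fintype.card F + 1) :
    (MM S P).card + 1 = (TT S P).card := by
  have h1 : (MM S P).card = Fintype.card F - (NN S P).card := by
    unfold MM
    rw [Finset.card_sdiff_of_subset (Finset.subset_univ _), Finset.card_univ,
      Finset.card_image_of_injOn (sl_inj hline hP)]
  have h2 := card_NN_add S P
  have h3 : (NN S P).card ≤ Fintype.card F := by
    rw [← Finset.card_image_of_injOn (sl_inj hline hP)]
    exact Finset.card_le_univ _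
  omega

lemma prod_slopes [Fintype F] {S : Finset (F × F)}
    (hline : ∀ p ∈ S, ∀ q ∈ S, ∀ r ∈ S, p ≠ q → q ≠ r → p ≠ r →
      (q.1 - p.1) * (r.2 - p.2) = (r.1 - p.1) * (q.2 - p.2) → p.1 = q.1)
    {P R : F × F} (hP : P ∈ S) (hR : R ∈ S) (hne : P.1 ≠ R.1) :
    (∏ X ∈ (NN S P).erase R, (sl P R - sl P X)) * ∏ x ∈ MM S P, (sl P R - x) = -1 := by
  have hRN : R ∈ NN S P := by
    rw [NN, mem_filter]; exact ⟨hR, Ne.symm hne⟩
  have hinj := sl_inj hline hP
  rw [← prod_erase_sub (sl P R)]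
  have h1 : (∏ X ∈ (NN S P).erase R, (sl P R - sl P X))
      = ∏ x ∈ ((NN S P).image (sl P)).erase (sl P R), (sl P R - x) := by
    have h2 : ((NN S P).image (sl P)).erase (sl P R) = ((NN S P).erase R).image (sl P) := by
      ext x
      simp only [mem_erase, mem_image]
      constructor
      · rintro ⟨hx, X, hX, rfl⟩
        exact ⟨X, ⟨fun h => hx (by rw [h]), hX⟩, rfl⟩
      · rintro ⟨X, ⟨hXR, hX⟩, rfl⟩
        exact ⟨fun h => hXR (hinj hX hRN h), X, hX, rfl⟩
    rw [h2, Finset.prod_image]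
    intro X hX Y hY h
    exact hinj (Finset.mem_of_mem_erase hX) (Finset.mem_of_mem_erase hY) h
  rw [h1]
  have hdisj : Disjoint (((NN S P).image (sl P)).erase (sl P R)) (MM S P) := by
    unfold MM
    rw [Finset.disjoint_left]
    intro x hx hx'
    rw [mem_sdiff] at hx'
    exact hx'.2 (Finset.mem_of_mem_erase hx)
  rw [← Finset.prod_union hdisj]
  refine Finset.prod_congr ?_ fun _ _ => rfl
  ext x
  simp only [mem_union, mem_erase, MM, mem_sdiff, mem_univ, true_and, and_true]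
  constructor
  · rintro (h | h)
    · exact h.1
    · rintro rfl
      exact h (Finset.mem_image_of_mem _ hRN)
  · intro h
    by_cases hx : x ∈ (NN S P).image (sl P)
    · exact Or.inl ⟨h, hx⟩
    · exact Or.inr hx

/-- the quadratic polynomial at a point -/
lemma exists_quad {M : Finset F} (hM : M.card ≤ 2) (c : F) :
    ∃ t v w : F, (∀ m : F, c * ∏ x ∈ M, (m - x) = t * m ^ 2 + v * m + w) ∧
      (M.card = 2 → t = c) ∧ (M.card ≠ 2 → t = 0) := by
  have hc : M.card = 0 ∨ M.card = 1 ∨ M.card = 2 := by omega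
  rcases hc with h | h | h
  · rw [Finset.card_eq_zero] at h
    subst h
    exact ⟨0, 0, c, fun m => by simp, fun h => by simp at h, fun _ => rfl⟩
  · obtain ⟨x, rfl⟩ := Finset.card_eq_one.1 h
    refine ⟨0, c, -(c * x), fun m => ?_, fun h => by simp at h, fun _ => rfl⟩
    rw [Finset.prod_singleton]
    ring
  · obtain ⟨x, y, hxy, rfl⟩ := Finset.card_eq_two.1 h
    refine ⟨c, -(c * (x + y)), c * (x * y), fun m => ?_, fun _ => rfl, fun h' => absurd h h'⟩
    rw [Finset.prod_pair hxy]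
    ring

lemma three_eq_zero [CharP F 3] : (3 : F) = 0 := by
  have := CharP.cast_eq_zero F 3
  simpa using this

omit [Field F] in
/-- a full vertical through two of its points -/
lemma fibre_three {S : Finset (F × F)} {P R : F × F} (hP : P ∈ S) (hR : R ∈ S)
    (hx : P.1 = R.1) (hne : P ≠ R) (h3 : (TT S P).card = 3) :
    ∃ Q : F × F, Q ∈ S ∧ Q.1 = P.1 ∧ Q ≠ P ∧ Q ≠ R ∧ TT S P = {P, R, Q} := by
  have hPT : P ∈ TT S P := by rw [TT, mem_filter]; exact ⟨hP, rfl⟩
  have hRT : R ∈ TT S P := by rw [TT, mem_filter]; exact ⟨hR, hx.symm⟩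
  have h1 : (((TT S P).erase P).erase R).card = 1 := by
    rw [Finset.card_erase_of_mem (Finset.mem_erase.2 ⟨hne.symm, hRT⟩),
      Finset.card_erase_of_mem hPT, h3]
  obtain ⟨Q, hQ⟩ := Finset.card_eq_one.1 h1
  have hQm : Q ∈ ((TT S P).erase P).erase R := by rw [hQ]; exact Finset.mem_singleton_self _
  rw [mem_erase, mem_erase, TT, mem_filter] at hQm
  refine ⟨Q, hQm.2.2.1, hQm.2.2.2, hQm.2.1, hQm.1, ?_⟩
  rw [← hQ, Finset.insert_erase (Finset.mem_erase.2 ⟨hne.symm, hRT⟩), Finset.insert_erase hPT]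

omit [Field F] in
lemma TT_congr (S : Finset (F × F)) {P R : F × F} (h : P.1 = R.1) : TT S P = TT S R := by
  unfold TT
  rw [h]

lemma BB_congr [CharP F 3] {S : Finset (F × F)}
    (hAP : ∀ a : F, (S.filter fun p => p.1 = a).card = 3 →
      ∑ p ∈ S.filter (fun p => p.1 = a), p.2 = 0)
    {P R : F × F} (hP : P ∈ S) (hR : R ∈ S) (hx : P.1 = R.1) (h3 : (TT S P).card = 3) :
    BB S P = BB S R := by
  by_cases hne : P = R
  · rw [hne]
  obtain ⟨Q, hQS, hQx, hQP, hQR, hTT⟩ := fibre_three hP hR hx hne h3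
  have hsum : P.2 + R.2 + Q.2 = 0 := by
    have h := hAP P.1 h3
    change ∑ p ∈ TT S P, p.2 = 0 at h
    rw [hTT, Finset.sum_insert, Finset.sum_pair hQR.symm] at h
    · rw [← h]; ring
    · rw [Finset.mem_insert, Finset.mem_singleton]
      rintro (h | h)
      · exact hne h
      · exact hQP h.symm
  have h1 : BB S P = (P.2 - R.2) * (P.2 - Q.2) := by
    unfold BB
    have : (TT S P).erase P = {R, Q} := by
      rw [hTT, Finset.erase_insert]
      rw [Finset.mem_insert, Finset.mem_singleton]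
      rintro (h | h)
      · exact hne h
      · exact hQP h.symm
    rw [this, Finset.prod_pair hQR.symm]
  have h2 : BB S R = (R.2 - P.2) * (R.2 - Q.2) := by
    unfold BB
    have : (TT S R).erase R = {P, Q} := by
      rw [← TT_congr S hx, hTT, Finset.insert_comm, Finset.erase_insert]
      rw [Finset.mem_insert, Finset.mem_singleton]
      rintro (h | h)
      · exact hne h.symm
      · exact hQR h.symm
    rw [this, Finset.prod_pair hQP.symm]
  have h3' : (3 : F) = 0 := three_eq_zero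
  rw [h1, h2]
  have hQ : Q.2 = -P.2 - R.2 := by linear_combination hsum
  rw [hQ]
  linear_combination ((P.2 - R.2) * (P.2 + R.2)) * h3'

noncomputable def cc (S : Finset (F × F)) (P : F × F) : F := -1 / (AA S P * BB S P)

lemma cc_ne (S : Finset (F × F)) (P : F × F) : cc S P ≠ 0 := by
  unfold cc
  exact div_ne_zero (neg_ne_zero.2 one_ne_zero) (mul_ne_zero (AA_ne S P) (BB_ne S P))

lemma Phi_cc [Fintype F] {S : Finset (F × F)}
    (hline : ∀ p ∈ S, ∀ q ∈ S, ∀ r ∈ S, p ≠ q → q ≠ r → p ≠ r →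
      (q.1 - p.1) * (r.2 - p.2) = (r.1 - p.1) * (q.2 - p.2) → p.1 = q.1)
    (hcard : S.card = Fintype.card F + 1)
    {P R : F × F} (hP : P ∈ S) (hR : R ∈ S) (hne : P.1 ≠ R.1) :
    (R.1 - P.1) * Phi S P R * (cc S P * ∏ x ∈ MM S P, (sl P R - x)) = 1 := by
  rw [Phi_eq hP hR hne hcard]
  have h := prod_slopes hline hP hR hne
  unfold cc
  have h1 := AA_ne S P
  have h2 := BB_ne S P
  field_simp
  linear_combination -h

theorem exists_tvw [Fintype F] [CharP F 3] (S : Finset (F × F))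
    (hcard : S.card = Fintype.card F + 1)
    (hline : ∀ p ∈ S, ∀ q ∈ S, ∀ r ∈ S, p ≠ q → q ≠ r → p ≠ r →
      (q.1 - p.1) * (r.2 - p.2) = (r.1 - p.1) * (q.2 - p.2) → p.1 = q.1)
    (hvert : ∀ a : F, (S.filter fun p => p.1 = a).card ≤ 3)
    (hAP : ∀ a : F, (S.filter fun p => p.1 = a).card = 3 →
      ∑ p ∈ S.filter (fun p => p.1 = a), p.2 = 0) :
    ∃ t v w : F × F → F,
      (∀ P ∈ S, ∀ R ∈ S, P.1 ≠ R.1 →
        (t P + t R) * (R.2 - P.2) ^ 2 + (v P + v R) * ((R.2 - P.2) * (R.1 - P.1))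
          + (w P + w R) * (R.1 - P.1) ^ 2 = 0) ∧
      (∀ P ∈ S, (TT S P).card = 3 → t P ≠ 0) ∧
      (∀ P ∈ S, (TT S P).card ≠ 3 → t P = 0) ∧
      (∀ P ∈ S, ∀ R ∈ S, P.1 = R.1 → t P = t R) := by
  have hex : ∀ P : F × F, ∃ T : F × F × F, P ∈ S →
      ((∀ m : F, cc S P * ∏ x ∈ MM S P, (m - x) = T.1 * m ^ 2 + T.2.1 * m + T.2.2) ∧
      ((TT S P).card = 3 → T.1 = cc S P) ∧ ((TT S P).card ≠ 3 → T.1 = 0)) := by
    intro P
    by_cases hP : P ∈ S
    · have hM := card_MM hline hP hcard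
      have hv : (TT S P).card ≤ 3 := hvert P.1
      obtain ⟨t, v, w, h1, h2, h3⟩ := exists_quad (M := MM S P) (by omega) (cc S P)
      exact ⟨(t, v, w), fun _ => ⟨h1, fun h => h2 (by omega), fun h => h3 (by omega)⟩⟩
    · exact ⟨(0, 0, 0), fun h => absurd h hP⟩
  choose T hT using hex
  have hodd : Fintype.card F % 2 = 1 := by
    apply FiniteField.odd_card_of_char_ne_two
    rw [ringChar.eq F 3]
    norm_num
  have hev : Even (S.card - 2) := by
    rw [hcard, Nat.even_iff]
    omega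
  refine ⟨fun P => (T P).1, fun P => (T P).2.1, fun P => (T P).2.2, ?_, ?_, ?_, ?_⟩
  · intro P hP R hR hne
    have h1 := Phi_cc hline hcard hP hR hne
    have h2 := Phi_cc hline hcard hR hP (Ne.symm hne)
    rw [Phi_symm hP hR (fun h => hne (by rw [h])) hev, sl_symm R P] at h2
    rw [(hT P hP).1] at h1
    rw [(hT R hR).1] at h2
    have hd : R.1 - P.1 ≠ 0 := sub_ne_zero.2 (Ne.symm hne)
    have hK : (R.1 - P.1) * Phi S P R ≠ 0 := by
      intro h
      rw [h, zero_mul] at h1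
      exact zero_ne_one h1
    have h3 : (R.1 - P.1) * Phi S P R * (((T P).1 * sl P R ^ 2 + (T P).2.1 * sl P R + (T P).2.2)
        + ((T R).1 * sl P R ^ 2 + (T R).2.1 * sl P R + (T R).2.2)) = 0 := by
      linear_combination h1 - h2
    have h4 := (mul_eq_zero.1 h3).resolve_left hK
    have h5 : sl P R * (R.1 - P.1) = R.2 - P.2 := by
      unfold sl
      exact div_mul_cancel₀ _ hd
    rw [← h5]
    linear_combination (R.1 - P.1) ^ 2 * h4
  · intro P hP h3
    change (T P).1 ≠ 0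
    rw [(hT P hP).2.1 h3]
    exact cc_ne S P
  · intro P hP h3
    exact (hT P hP).2.2 h3
  · intro P hP R hR hx
    change (T P).1 = (T R).1
    by_cases h3 : (TT S P).card = 3
    · rw [(hT P hP).2.1 h3, (hT R hR).2.1 (by rw [← TT_congr S hx]; exact h3)]
      unfold cc
      rw [AA_congr S hx, BB_congr hAP hP hR hx h3]
    · rw [(hT P hP).2.2 h3, (hT R hR).2.2 (by rw [← TT_congr S hx]; exact h3)]

/-- the quadratic through the values of `t` seen from a full vertical -/
lemma quad_at [CharP F 3] {S : Finset (F × F)} {t v w : F × F → F}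
    (hAP : ∀ a : F, (S.filter fun p => p.1 = a).card = 3 →
      ∑ p ∈ S.filter (fun p => p.1 = a), p.2 = 0)
    (hrel : ∀ P ∈ S, ∀ R ∈ S, P.1 ≠ R.1 →
        (t P + t R) * (R.2 - P.2) ^ 2 + (v P + v R) * ((R.2 - P.2) * (R.1 - P.1))
          + (w P + w R) * (R.1 - P.1) ^ 2 = 0)
    (htc : ∀ P ∈ S, ∀ R ∈ S, P.1 = R.1 → t P = t R)
    {P : F × F} (hP : P ∈ S) (h3 : (TT S P).card = 3)
    {R₀ : F × F} (hR₀ : R₀ ∈ S) (hR3 : (TT S R₀).card = 3) (hne : P.1 ≠ R₀.1) :
    ∃ A C : F, ∀ R ∈ S, R.1 ≠ P.1 → t R = - t P + (R.1 - P.1) * (A + C * (R.1 - P.1)) := by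
  have hz : (3 : F) = 0 := three_eq_zero
  obtain ⟨P₁, hP₁, hP₁P⟩ := Finset.exists_mem_ne (s := TT S P) (by omega) P
  rw [TT, mem_filter] at hP₁
  obtain ⟨P₂, hP₂S, hP₂x, hP₂P, hP₂P₁, hTT⟩ := fibre_three hP hP₁.1 hP₁.2.symm hP₁P.symm h3
  have hsum : P.2 + P₁.2 + P₂.2 = 0 := by
    have h := hAP P.1 h3
    change ∑ p ∈ TT S P, p.2 = 0 at h
    rw [hTT, Finset.sum_insert, Finset.sum_pair hP₂P₁.symm] at h
    · rw [← h]; ring
    · rw [Finset.mem_insert, Finset.mem_singleton]
      rintro (h | h)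
      · exact hP₁P h.symm
      · exact hP₂P h.symm
  have hD : P.2 - P₁.2 ≠ 0 := by
    refine sub_ne_zero.2 fun h => hP₁P ?_
    exact Prod.ext hP₁.2 h.symm
  have hP2 : P₂.2 = -P.2 - P₁.2 := by linear_combination hsum
  have ht1 : t P₁ = t P := htc _ hP₁.1 _ hP hP₁.2
  have ht2 : t P₂ = t P := htc _ hP₂S _ hP hP₂x
  -- the summed relation
  have hss : ∀ R ∈ S, R.1 ≠ P.1 →
      -(P.2 - P₁.2) ^ 2 * (t P + t R)
        + (R.1 - P.1) * (R.2 * (v P + v P₁ + v P₂) - (v P * P.2 + v P₁ * P₁.2 + v P₂ * P₂.2))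
        + (R.1 - P.1) ^ 2 * (w P + w P₁ + w P₂) = 0 := by
    intro R hR hx
    have e0 := hrel P hP R hR (Ne.symm hx)
    have e1 := hrel P₁ hP₁.1 R hR (by rw [hP₁.2]; exact Ne.symm hx)
    have e2 := hrel P₂ hP₂S R hR (by rw [hP₂x]; exact Ne.symm hx)
    rw [ht1, hP₁.2] at e1
    rw [ht2, hP₂x, hP2] at e2
    rw [hP2]
    linear_combination e0 + e1 + e2 - (R.2 ^ 2 * (t P + t R) + (P.2 ^ 2 + P₁.2 ^ 2) * (t P + t R)
      + v R * R.2 * (R.1 - P.1) + w R * (R.1 - P.1) ^ 2) * hz
  -- the sum of the v vanishes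
  have hv : v P + v P₁ + v P₂ = 0 := by
    obtain ⟨R₁, hR₁, hR₁R⟩ := Finset.exists_mem_ne (s := TT S R₀) (by omega) R₀
    rw [TT, mem_filter] at hR₁
    have e0 := hss R₀ hR₀ (Ne.symm hne)
    have e1 := hss R₁ hR₁.1 (by rw [hR₁.2]; exact Ne.symm hne)
    rw [htc R₁ hR₁.1 R₀ hR₀ hR₁.2, hR₁.2] at e1
    have hdy : R₀.2 - R₁.2 ≠ 0 := by
      refine sub_ne_zero.2 fun h => hR₁R ?_
      exact Prod.ext hR₁.2 h.symm
    have hdx : R₀.1 - P.1 ≠ 0 := sub_ne_zero.2 (Ne.symm hne)
    have h : (R₀.1 - P.1) * (R₀.2 - R₁.2) * (v P + v P₁ + v P₂) = 0 := by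
      linear_combination e0 - e1
    exact (mul_eq_zero.1 h).resolve_left (mul_ne_zero hdx hdy)
  refine ⟨-(v P * P.2 + v P₁ * P₁.2 + v P₂ * P₂.2) / (P.2 - P₁.2) ^ 2,
    (w P + w P₁ + w P₂) / (P.2 - P₁.2) ^ 2, fun R hR hx => ?_⟩
  have e := hss R hR hx
  rw [hv] at e
  have hD2 : (P.2 - P₁.2) ^ 2 ≠ 0 := pow_ne_zero 2 hD
  field_simp
  linear_combination -e

lemma two_pts {S : Finset (F × F)} {t v w : F × F → F}
    (hrel : ∀ P ∈ S, ∀ R ∈ S, P.1 ≠ R.1 →
        (t P + t R) * (R.2 - P.2) ^ 2 + (v P + v R) * ((R.2 - P.2) * (R.1 - P.1))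
          + (w P + w R) * (R.1 - P.1) ^ 2 = 0)
    (htc : ∀ P ∈ S, ∀ R ∈ S, P.1 = R.1 → t P = t R)
    {P P' R R' : F × F} (hP : P ∈ S) (hP' : P' ∈ S) (hR : R ∈ S) (hR' : R' ∈ S)
    (hPx : P'.1 = P.1) (hRx : R'.1 = R.1) (hPP : P' ≠ P) (hRR : R' ≠ R) (hne : P.1 ≠ R.1) :
    2 * (t P + t R) = (R.1 - P.1) *
      ((v P' - v P) / (P'.2 - P.2) - (v R' - v R) / (R'.2 - R.2)) := by
  have e1 := hrel P hP R hR hne
  have e2 := hrel P' hP' R hR (by rw [hPx]; exact hne)
  have e3 := hrel P hP R' hR' (by rw [hRx]; exact hne)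
  have e4 := hrel P' hP' R' hR' (by rw [hPx, hRx]; exact hne)
  rw [htc P' hP' P hP hPx, hPx] at e2
  rw [htc R' hR' R hR hRx, hRx] at e3
  rw [htc P' hP' P hP hPx, htc R' hR' R hR hRx, hPx, hRx] at e4
  have hd : P'.2 - P.2 ≠ 0 := sub_ne_zero.2 fun h => hPP (Prod.ext hPx h)
  have he : R'.2 - R.2 ≠ 0 := sub_ne_zero.2 fun h => hRR (Prod.ext hRx h)
  field_simp
  linear_combination -(e1 - e2 - e3 + e4)

end CharThree

open CharThree in
open scoped Classical in
theorem char_three_affine {F : Type*} [Field F] [Fintype F] [CharP F 3]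
    (S : Finset (F × F)) (hcard : S.card = Fintype.card F + 1)
    (hline : ∀ p ∈ S, ∀ q ∈ S, ∀ r ∈ S, p ≠ q → q ≠ r → p ≠ r →
      (q.1 - p.1) * (r.2 - p.2) = (r.1 - p.1) * (q.2 - p.2) → p.1 = q.1)
    (hvert : ∀ a : F, (S.filter fun p => p.1 = a).card ≤ 3)
    (hAP : ∀ a : F, (S.filter fun p => p.1 = a).card = 3 →
      ∑ p ∈ S.filter (fun p => p.1 = a), p.2 = 0)
    (hT : 5 ≤ (Finset.univ.filter fun a : F => (S.filter fun p => p.1 = a).card = 3).card ∨
      (Fintype.card F = 9 ∧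
        (Finset.univ.filter fun a : F => (S.filter fun p => p.1 = a).card = 3).card = 2)) :
    False := by
  obtain ⟨t, v, w, hrel, ht3, ht0, htc⟩ := exists_tvw S hcard hline hvert hAP
  have hz : (3 : F) = 0 := three_eq_zero
  set U := Finset.univ.filter fun a : F => (S.filter fun p => p.1 = a).card = 3 with hU
  have hpt : ∀ a ∈ U, ∃ P ∈ S, P.1 = a ∧ (TT S P).card = 3 := by
    intro a ha
    rw [hU, mem_filter] at ha
    obtain ⟨P, hP⟩ := Finset.card_pos.1 (show 0 < (S.filter fun p => p.1 = a).card by omega)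
    rw [mem_filter] at hP
    refine ⟨P, hP.1, hP.2, ?_⟩
    rw [TT, hP.2]
    exact ha.2
  have hU2 : 1 < U.card := by
    rcases hT with h | h
    · omega
    · omega
  obtain ⟨a, ha, b, hb, hab⟩ := Finset.one_lt_card.1 hU2
  obtain ⟨P, hP, rfl, hP3⟩ := hpt a ha
  obtain ⟨R, hR, rfl, hR3⟩ := hpt b hb
  obtain ⟨A, C, hS1⟩ := quad_at hAP hrel htc hP hP3 hR hR3 hab
  have htP := ht3 P hP hP3
  rcases hT with h5 | ⟨h9, h2⟩
  · -- at least five full verticals
    obtain ⟨A', C', hS2⟩ := quad_at hAP hrel htc hR hR3 hP hP3 (Ne.symm hab)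
    set f : Polynomial F := (Polynomial.C (-t P) + (Polynomial.X - Polynomial.C P.1) *
      (Polynomial.C A + Polynomial.C C * (Polynomial.X - Polynomial.C P.1)))
      - (Polynomial.C (-t R) + (Polynomial.X - Polynomial.C R.1) *
      (Polynomial.C A' + Polynomial.C C' * (Polynomial.X - Polynomial.C R.1))) with hf
    have hdeg : f.natDegree ≤ 2 := by
      rw [hf]
      compute_degree
    have hcardU : 2 < ((U.erase P.1).erase R.1).card := by
      rw [Finset.card_erase_of_mem (Finset.mem_erase.2 ⟨Ne.symm hab, hb⟩),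
        Finset.card_erase_of_mem ha]
      omega
    have hev : ∀ x ∈ (U.erase P.1).erase R.1, f.eval x = 0 := by
      intro x hx
      rw [mem_erase, mem_erase] at hx
      obtain ⟨Q, hQ, rfl, -⟩ := hpt x hx.2.2
      have e1 := hS1 Q hQ hx.2.1
      have e2 := hS2 Q hQ hx.1
      rw [hf]
      simp only [Polynomial.eval_sub, Polynomial.eval_add, Polynomial.eval_mul,
        Polynomial.eval_C, Polynomial.eval_X]
      linear_combination -e1 + e2
    have hf0 : f = 0 :=
      Polynomial.eq_zero_of_natDegree_lt_card_of_eval_eq_zero' f _ hev (by omega)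
    have hfa : f.eval P.1 = 0 := by rw [hf0, Polynomial.eval_zero]
    rw [hf] at hfa
    simp only [Polynomial.eval_sub, Polynomial.eval_add, Polynomial.eval_mul,
      Polynomial.eval_C, Polynomial.eval_X] at hfa
    have e := hS2 P hP hab
    apply htP
    linear_combination t P * hz + hfa - e
  · -- q = 9, two full verticals
    have hUe : U = {P.1, R.1} := by
      symm
      apply Finset.eq_of_subset_of_card_le
      · intro x hx
        rw [Finset.mem_insert, Finset.mem_singleton] at hx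
        rcases hx with rfl | rfl
        · exact ha
        · exact hb
      · rw [h2, Finset.card_pair hab]
    set N := S.filter (fun X => X.1 ≠ P.1 ∧ X.1 ≠ R.1) with hN
    have hNc : N.card = 4 := by
      have h1 : N = (S \ TT S P) \ TT S R := by
        ext X
        simp only [hN, mem_filter, TT, mem_sdiff, not_and]
        constructor
        · rintro ⟨h1, h2, h3⟩
          exact ⟨⟨h1, fun _ => h2⟩, fun _ => h3⟩
        · rintro ⟨⟨h1, h2⟩, h3⟩
          exact ⟨h1, h2 h1, h3 h1⟩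
      have h2' : TT S R ⊆ S \ TT S P := by
        intro X hX
        rw [TT, mem_filter] at hX
        rw [mem_sdiff, TT, mem_filter]
        refine ⟨hX.1, fun h => hab ?_⟩
        rw [← h.2, hX.2]
      have h3' : TT S P ⊆ S := Finset.filter_subset _ _
      rw [h1, Finset.card_sdiff_of_subset h2', Finset.card_sdiff_of_subset h3', hP3, hR3, hcard, h9]
    have hfib : ∀ x ∈ N.image Prod.fst, (N.filter (fun X => X.1 = x)).card ≤ 2 := by
      intro x hx
      obtain ⟨X, hX, rfl⟩ := Finset.mem_image.1 hx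
      rw [hN, mem_filter] at hX
      have h1 : N.filter (fun Y => Y.1 = X.1) = S.filter (fun Y => Y.1 = X.1) := by
        ext Y
        simp only [hN, mem_filter]
        constructor
        · rintro ⟨⟨h1, -⟩, h2⟩
          exact ⟨h1, h2⟩
        · rintro ⟨h1, h2⟩
          exact ⟨⟨h1, by rw [h2]; exact hX.2⟩, h2⟩
      rw [h1]
      have h2 := hvert X.1
      have h3 : (S.filter (fun Y => Y.1 = X.1)).card ≠ 3 := by
        intro h
        have : X.1 ∈ U := by
          rw [hU, mem_filter]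
          exact ⟨mem_univ _, h⟩
        rw [hUe, Finset.mem_insert, Finset.mem_singleton] at this
        rcases this with h' | h'
        · exact hX.2.1 h'
        · exact hX.2.2 h'
      omega
    have htN : ∀ X ∈ N, t X = 0 := by
      intro X hX
      rw [hN, mem_filter] at hX
      refine ht0 X hX.1 fun h => ?_
      have : X.1 ∈ U := by
        rw [hU, mem_filter]
        exact ⟨mem_univ _, h⟩
      rw [hUe, Finset.mem_insert, Finset.mem_singleton] at this
      rcases this with h' | h'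
      · exact hX.2.1 h'
      · exact hX.2.2 h'
    -- at most two abscissas
    set g : Polynomial F := Polynomial.C (-t P) + (Polynomial.X - Polynomial.C P.1) *
      (Polynomial.C A + Polynomial.C C * (Polynomial.X - Polynomial.C P.1)) with hg
    have hgdeg : g.natDegree ≤ 2 := by
      rw [hg]
      compute_degree
    have hg0 : g ≠ 0 := by
      intro h
      have : g.eval P.1 = 0 := by rw [h, Polynomial.eval_zero]
      rw [hg] at this
      simp only [Polynomial.eval_sub, Polynomial.eval_add, Polynomial.eval_mul,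
        Polynomial.eval_C, Polynomial.eval_X] at this
      apply htP
      linear_combination -this
    have himg : (N.image Prod.fst).card ≤ 2 := by
      by_contra hlt
      push Not at hlt
      refine hg0 (Polynomial.eq_zero_of_natDegree_lt_card_of_eval_eq_zero' g _ ?_
        (lt_of_le_of_lt hgdeg hlt))
      intro x hx
      obtain ⟨X, hX, rfl⟩ := Finset.mem_image.1 hx
      have h1 := htN X hX
      rw [hN, mem_filter] at hX
      have e := hS1 X hX.1 hX.2.1
      rw [hg]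
      simp only [Polynomial.eval_sub, Polynomial.eval_add, Polynomial.eval_mul,
        Polynomial.eval_C, Polynomial.eval_X]
      linear_combination -e + h1
    have hsumc := Finset.card_eq_sum_card_image (Prod.fst : F × F → F) N
    have hle := Finset.sum_le_card_nsmul (N.image Prod.fst)
      (fun x => (N.filter (fun X => X.1 = x)).card) 2 hfib
    rw [← hsumc, hNc, smul_eq_mul] at hle
    have himg2 : (N.image Prod.fst).card = 2 := by omega
    obtain ⟨x₁, x₂, hx12, hxe⟩ := Finset.card_eq_two.1 himg2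
    rw [hxe, Finset.sum_pair hx12, hNc] at hsumc
    have hf1 := hfib x₁ (by rw [hxe]; simp)
    have hf2 := hfib x₂ (by rw [hxe]; simp)
    have hc1 : (N.filter (fun X => X.1 = x₁)).card = 2 := by omega
    have hc2 : (N.filter (fun X => X.1 = x₂)).card = 2 := by omega
    obtain ⟨P', hP', hP'P⟩ := Finset.exists_mem_ne (s := TT S P) (by omega) P
    rw [TT, mem_filter] at hP'
    obtain ⟨X₁, X₁', hX1ne, hX1⟩ := Finset.card_eq_two.1 hc1
    obtain ⟨X₂, X₂', hX2ne, hX2⟩ := Finset.card_eq_two.1 hc2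
    have m1 : X₁ ∈ N.filter (fun X => X.1 = x₁) := by rw [hX1]; simp
    have m1' : X₁' ∈ N.filter (fun X => X.1 = x₁) := by rw [hX1]; simp
    have m2 : X₂ ∈ N.filter (fun X => X.1 = x₂) := by rw [hX2]; simp
    have m2' : X₂' ∈ N.filter (fun X => X.1 = x₂) := by rw [hX2]; simp
    rw [mem_filter] at m1 m1' m2 m2'
    have t1 := htN X₁ m1.1
    have t2 := htN X₂ m2.1
    have n1 := m1.1
    have n1' := m1'.1
    have n2 := m2.1
    have n2' := m2'.1
    rw [hN, mem_filter] at n1 n1' n2 n2'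
    have r1 := two_pts hrel htc hP hP'.1 n1.1 n1'.1 hP'.2 (by rw [m1.2, m1'.2]) hP'P hX1ne.symm
      (Ne.symm n1.2.1)
    have r2 := two_pts hrel htc hP hP'.1 n2.1 n2'.1 hP'.2 (by rw [m2.2, m2'.2]) hP'P hX2ne.symm
      (Ne.symm n2.2.1)
    have r3 := two_pts hrel htc n1.1 n1'.1 n2.1 n2'.1 (by rw [m1.2, m1'.2]) (by rw [m2.2, m2'.2])
      hX1ne.symm hX2ne.symm (by rw [m1.2, m2.2]; exact hx12)
    rw [t1] at r1
    rw [t2] at r2
    rw [t1, t2] at r3
    set V0 := (v P' - v P) / (P'.2 - P.2)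
    set V1 := (v X₁' - v X₁) / (X₁'.2 - X₁.2)
    set V2 := (v X₂' - v X₂) / (X₂'.2 - X₂.2)
    have hx : X₂.1 - X₁.1 ≠ 0 := by
      rw [m1.2, m2.2]
      exact sub_ne_zero.2 hx12.symm
    have hV : V1 - V2 = 0 := by
      have : (X₂.1 - X₁.1) * (V1 - V2) = 0 := by linear_combination -r3
      exact (mul_eq_zero.1 this).resolve_left hx
    have hV0 : V0 - V1 = 0 := by
      have : (X₂.1 - X₁.1) * (V0 - V1) = 0 := by
        linear_combination r1 - r2 - (X₂.1 - P.1) * hV
      exact (mul_eq_zero.1 this).resolve_left hx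
    apply htP
    linear_combination t P * hz - r1 - (X₁.1 - P.1) * hV0

end NonHit
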