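import Pool.Agent.Lib.MP_8b6d0b_co.Geom
import Pool.Agent.Lib.MP_8b6d0b_co.J5CharThree

/-!
# All multisecants are 3-secants through a point off the set: impossible
-/

namespace NonHit

open Projectivization Matrix
open scoped LinearAlgebra.Projectivization Classical

variable {F : Type*} [Field F]

namespace J8

theorem cramer (E A B x : Fin 3 → F) :
    det3 E A B • x = det3 x A B • E + det3 E x B • A + det3 E A x • B := by
  ext i
  fin_cases i <;> simp [det3] <;> ring

theorem det3_combo (E A B : Fin 3 → F) (a1 b1 c1 a2 b2 c2 a3 b3 c3 : F) :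
    det3 (a1 • E + b1 • A + c1 • B) (a2 • E + b2 • A + c2 • B) (a3 • E + b3 • A + c3 • B)
      = (a1 * (b2 * c3 - b3 * c2) - b1 * (a2 * c3 - a3 * c2) + c1 * (a2 * b3 - a3 * b2))
        * det3 E A B := by
  simp only [det3, Pi.add_apply, Pi.smul_apply, smul_eq_mul]
  ring

theorem det3_coords {E A B : Fin 3 → F} (h : det3 E A B = 1) (x y z : Fin 3 → F) :
    det3 x y z = det3 x A B * (det3 E y B * det3 E A z - det3 E z B * det3 E A y)
      - det3 E x B * (det3 y A B * det3 E A z - det3 z A B * det3 E A y)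
      + det3 E A x * (det3 y A B * det3 E z B - det3 z A B * det3 E y B) := by
  have hx := cramer E A B x
  have hy := cramer E A B y
  have hz := cramer E A B z
  rw [h, one_smul] at hx hy hz
  conv_lhs => rw [hx, hy, hz]
  rw [det3_combo, h, mul_one]

theorem exists_third {P Z : PG F} (h : P ≠ Z) : ∃ W : Fin 3 → F, det3 P.rep Z.rep W ≠ 0 := by
  have hc := cross_rep_ne_zero h
  obtain ⟨i, hi⟩ : ∃ i, crossProduct P.rep Z.rep i ≠ 0 := by
    by_contra hcon
    push Not at hcon
    exact hc (funext hcon)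
  refine ⟨Pi.single i 1, ?_⟩
  rw [det3_eq_dot_cross]
  simpa using hi

theorem span_vec {p z q w : Fin 3 → F} (hw : det3 p z w ≠ 0) (hd : det3 p z q = 0) :
    q = (det3 q z w / det3 p z w) • p + (det3 p q w / det3 p z w) • z := by
  have hc := cramer p z w q
  rw [hd, zero_smul, add_zero] at hc
  calc q = (det3 p z w)⁻¹ • (det3 p z w • q) := by rw [smul_smul, inv_mul_cancel₀ hw, one_smul]
    _ = _ := by
      rw [hc, smul_add, smul_smul, smul_smul, inv_mul_eq_div, inv_mul_eq_div]

theorem exists_span {P Z Q : PG F} (h : P ≠ Z) (hd : det3 P.rep Z.rep Q.rep = 0) :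
    ∃ α β : F, Q.rep = α • P.rep + β • Z.rep := by
  obtain ⟨W, hW⟩ := exists_third h
  exact ⟨_, _, span_vec hW hd⟩

theorem cross_combo (p z : Fin 3 → F) (α β γ δ : F) :
    crossProduct (α • p + β • z) (γ • p + δ • z) = (α * δ - β * γ) • crossProduct p z := by
  ext i
  fin_cases i <;> simp [cross_apply] <;> ring

theorem coeff_ne {P Z Q : PG F} {α β : F} (h : Q.rep = α • P.rep + β • Z.rep) (hQZ : Q ≠ Z) :
    α ≠ 0 := by
  rintro rfl
  apply cross_rep_ne_zero hQZ
  have h1 := cross_combo P.rep Z.rep 0 β 0 1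
  rw [← h, zero_smul, one_smul, zero_add] at h1
  rw [h1]
  simp

theorem coeff_ne' {P Z Q : PG F} {α β : F} (h : Q.rep = α • P.rep + β • Z.rep) (hQP : Q ≠ P) :
    β ≠ 0 := by
  rintro rfl
  apply cross_rep_ne_zero hQP
  have h1 := cross_combo P.rep Z.rep α 0 1 0
  rw [← h, zero_smul, one_smul, add_zero] at h1
  rw [h1]
  simp

theorem det_ne {P Z Q E : PG F} {α β γ δ : F} (h : Q.rep = α • P.rep + β • Z.rep)
    (hE : E.rep = γ • P.rep + δ • Z.rep) (hQE : Q ≠ E) : α * δ - β * γ ≠ 0 := by
  intro h0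
  apply cross_rep_ne_zero hQE
  rw [h, hE, cross_combo, h0, zero_smul]

/-- the harmonic relation on a three-secant, and characteristic three -/
theorem harm {P Q Z E : PG F} {α β γ δ : F} (h : Q.rep = α • P.rep + β • Z.rep)
    (hE : E.rep = γ • P.rep + δ • Z.rep) (hQE : Q ≠ E) (hh : (δ * α) ^ 2 = (γ * β) ^ 2) :
    δ * α = -(γ * β) := by
  rcases sq_eq_sq_iff_eq_or_eq_neg.mp hh with h1 | h1
  · exact absurd (show α * δ - β * γ = 0 by linear_combination h1) (det_ne h hE hQE)
  · exact h1

theorem frame_missing [Fintype F] {K : Finset (PG F)} (hK : K.card = Fintype.card F + 1)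
    {E : PG F} (hE : E ∉ K) {l : PG F} (hl : 3 ≤ secN K l) (hEl : E.orthogonal l) :
    ∃ A B : Fin 3 → F, det3 E.rep A B = 1 ∧ ∀ x ∈ K, det3 E.rep x.rep B ≠ 0 := by
  obtain ⟨P, hP, Q, hQ, hPQ⟩ := Finset.one_lt_card.mp (show 1 < (K.filter fun p => p.orthogonal l).card
    by unfold secN at hl; omega)
  rw [Finset.mem_filter] at hP hQ
  have hEK : E ∉ K.erase P := fun h => hE (Finset.mem_of_mem_erase h)
  have hcard : ((K.erase P).erase E).card ≤ Fintype.card F := by
    rw [Finset.erase_eq_of_notMem hEK, Finset.card_erase_of_mem hP.1, hK]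
    omega
  obtain ⟨A, B, h1, h2⟩ := exists_tangent_frame (K.erase P) E hcard
  rw [Finset.erase_eq_of_notMem hEK] at h2
  refine ⟨A, B, h1, fun x hx => ?_⟩
  by_cases hxP : x = P
  · subst hxP
    intro h0
    have hEx : E ≠ x := fun h => hE (h ▸ hx)
    have h3 : det3 E.rep x.rep Q.rep = 0 := (on_line_iff hEx hEl hP.2 Q).mp hQ.2
    obtain ⟨α, β, h4⟩ := exists_span hEx h3
    apply h2 Q (Finset.mem_erase.mpr ⟨hPQ.symm, hQ.1⟩)
    rw [h4]
    have : det3 E.rep (α • E.rep + β • x.rep) B = β * det3 E.rep x.rep B := by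
      simp only [det3, Pi.add_apply, Pi.smul_apply, smul_eq_mul]; ring
    rw [this, h0, mul_zero]
  · exact h2 x (Finset.mem_erase.mpr ⟨hxP, hx⟩)

theorem det3_lin (u v a b : Fin 3 → F) (α β : F) :
    det3 u (α • a + β • b) v = α * det3 u a v + β * det3 u b v := by
  simp only [det3, Pi.add_apply, Pi.smul_apply, smul_eq_mul]; ring

theorem det3_lin1 (u v a b : Fin 3 → F) (α β : F) :
    det3 (α • a + β • b) u v = α * det3 a u v + β * det3 b u v := by
  simp only [det3, Pi.add_apply, Pi.smul_apply, smul_eq_mul]; ring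

end J8

open J8 in
theorem concurrent_off [Fintype F] (hodd : Odd (Fintype.card F)) (K : Finset (PG F))
    (hK : K.card = Fintype.card F + 1) (E : PG F) (hE : E ∉ K)
    (hall : ∀ l : PG F, 3 ≤ secN K l → E.orthogonal l ∧ secN K l = 3)
    (hT2 : 2 ≤ (Finset.univ.filter fun l : PG F => 3 ≤ secN K l).card)
    (hTq : 2 * (Finset.univ.filter fun l : PG F => 3 ≤ secN K l).card + 5 ≤ Fintype.card F)
    (hTr : Fintype.card F ≤ 3 * (Finset.univ.filter fun l : PG F => 3 ≤ secN K l).card + 3)
    (hharm : ∀ l : PG F, 3 ≤ secN K l → ∀ P ∈ K, ∀ Q ∈ K, ∀ Z ∈ K,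
      P.orthogonal l → Q.orthogonal l → Z.orthogonal l → P ≠ Q → Q ≠ Z → P ≠ Z →
      ∀ α β γ δ : F, Q.rep = α • P.rep + β • Z.rep → E.rep = γ • P.rep + δ • Z.rep →
        (δ * α) ^ 2 = (γ * β) ^ 2) :
    False := by
  have hEne : ∀ x ∈ K, E ≠ x := fun x hx h => hE (h ▸ hx)
  -- a three-secant
  obtain ⟨l0, hl0⟩ := Finset.card_pos.mp (show 0 <
    (Finset.univ.filter fun l : PG F => 3 ≤ secN K l).card by omega)
  rw [Finset.mem_filter] at hl0
  -- the relations on a three-secant
  have hrel : ∀ l : PG F, 3 ≤ secN K l → ∀ P ∈ K, ∀ Q ∈ K, ∀ Z ∈ K,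
      P.orthogonal l → Q.orthogonal l → Z.orthogonal l → P ≠ Q → Q ≠ Z → P ≠ Z →
      ∃ α β γ δ : F, Q.rep = α • P.rep + β • Z.rep ∧ E.rep = γ • P.rep + δ • Z.rep ∧
        α ≠ 0 ∧ β ≠ 0 ∧ γ ≠ 0 ∧ δ ≠ 0 ∧ δ * α = -(γ * β) := by
    intro l hl P hP Q hQ Z hZ hPl hQl hZl hPQ hQZ hPZ
    have hEl := (hall l hl).1
    obtain ⟨α, β, h1⟩ := exists_span hPZ ((on_line_iff hPZ hPl hZl Q).mp hQl)
    obtain ⟨γ, δ, h2⟩ := exists_span hPZ ((on_line_iff hPZ hPl hZl E).mp hEl)
    refine ⟨α, β, γ, δ, h1, h2, coeff_ne h1 hQZ, coeff_ne' h1 hPQ.symm,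
      coeff_ne h2 (hEne Z hZ), coeff_ne' h2 (hEne P hP), ?_⟩
    exact harm h1 h2 (hEne Q hQ).symm
      (hharm l hl P hP Q hQ Z hZ hPl hQl hZl hPQ hQZ hPZ α β γ δ h1 h2)
  -- characteristic three
  have h30 : (3 : F) = 0 := by
    have hc3 : 2 < (K.filter fun p => p.orthogonal l0).card := by
      have := hl0.2
      unfold secN at this
      omega
    obtain ⟨P, Q, Z, hP, hQ, hZ, hPQ, hPZ, hQZ⟩ := Finset.two_lt_card_iff.mp hc3
    rw [Finset.mem_filter] at hP hQ hZ
    obtain ⟨α, β, γ, δ, h1, h2, hα, hβ, hγ, hδ, h3⟩ := hrel l0 hl0.2 P hP.1 Q hQ.1 Z hZ.1 hP.2 hQ.2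
      hZ.2 hPQ hQZ hPZ
    have h4 : P.rep = α⁻¹ • Q.rep + (-(β / α)) • Z.rep := by
      rw [h1, smul_add, smul_smul, smul_smul, inv_mul_cancel₀ hα, one_smul, add_assoc, ← add_smul]
      rw [show α⁻¹ * β + -(β / α) = 0 by field_simp; ring, zero_smul, add_zero]
    have h5 : E.rep = (γ * α⁻¹) • Q.rep + (δ - γ * β / α) • Z.rep := by
      rw [h2]
      nth_rewrite 1 [h4]
      rw [smul_add, smul_smul, smul_smul, add_assoc, ← add_smul]
      congr 2
      ring
    have h6 := hharm l0 hl0.2 Q hQ.1 P hP.1 Z hZ.1 hQ.2 hP.2 hZ.2 hPQ.symm hPZ hQZ _ _ _ _ h4 h5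
    have h7 : δ - γ * β / α = 2 * δ := by
      field_simp
      linear_combination -h3
    rw [h7] at h6
    have h8 : (γ * α⁻¹ * -(β / α)) = δ / α := by
      field_simp
      linear_combination -h3
    rw [h8] at h6
    have h9 : (3:F) * (δ / α) ^ 2 = 0 := by
      have : (2 * δ * α⁻¹) ^ 2 = 4 * (δ / α) ^ 2 := by ring
      rw [this] at h6
      linear_combination h6
    rcases mul_eq_zero.mp h9 with h | h
    · exact h
    · exact absurd (pow_eq_zero_iff (two_ne_zero) |>.mp h) (div_ne_zero hδ hα)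
  have hchar : CharP F 3 := by
    obtain ⟨p, hp⟩ := CharP.exists F
    have h1 : p ∣ 3 := (CharP.cast_eq_zero_iff F p 3).mp (by exact_mod_cast h30)
    rcases (Nat.dvd_prime Nat.prime_three).mp h1 with h | h
    · exact absurd h (CharP.char_ne_one F p)
    · rw [← h]; exact hp
  -- affine coordinates
  obtain ⟨A, B, hAB, hmiss⟩ := frame_missing hK hE hl0.2 (hall l0 hl0.2).1
  set X : PG F → F := fun x => det3 E.rep A x.rep / det3 E.rep x.rep B with hX
  set Y : PG F → F := fun x => det3 x.rep A B / det3 E.rep x.rep B with hY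
  have hEb : ∀ x y : Fin 3 → F, det3 E.rep x y
      = det3 E.rep x B * det3 E.rep A y - det3 E.rep y B * det3 E.rep A x := by
    intro x y
    rw [det3_coords hAB E.rep x y, hAB, det3_self12, det3_self13]
    ring
  have hXiff : ∀ x ∈ K, ∀ y ∈ K, X x = X y ↔ det3 E.rep x.rep y.rep = 0 := by
    intro x hx y hy
    rw [hEb, hX]
    simp only
    rw [div_eq_div_iff (hmiss x hx) (hmiss y hy)]
    constructor
    · intro h; linear_combination -h
    · intro h; linear_combination -h
  have hca : ∀ x ∈ K, det3 x.rep A B = det3 E.rep x.rep B * Y x := by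
    intro x hx
    simp only [hY]
    rw [mul_div_cancel₀ _ (hmiss x hx)]
  have hcc : ∀ x ∈ K, det3 E.rep A x.rep = det3 E.rep x.rep B * X x := by
    intro x hx
    simp only [hX]
    rw [mul_div_cancel₀ _ (hmiss x hx)]
  have hinj : Set.InjOn (fun x => (X x, Y x)) (K : Set (PG F)) := by
    intro x hx y hy hxy
    by_contra hne
    obtain ⟨W, hW⟩ := exists_third hne
    apply hW
    have h1 : X x = X y := congrArg Prod.fst hxy
    have h2 : Y x = Y y := congrArg Prod.snd hxy
    rw [det3_coords hAB, hca x hx, hca y hy, hcc x hx, hcc y hy, h1, h2]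
    ring
  set S : Finset (F × F) := K.image fun x => (X x, Y x) with hS
  have hScard : S.card = Fintype.card F + 1 := by
    rw [hS, Finset.card_image_of_injOn hinj, hK]
  have hfib : ∀ a : F, S.filter (fun p => p.1 = a) = (K.filter fun x => X x = a).image
      fun x => (X x, Y x) := by
    intro a
    rw [hS, Finset.filter_image]
  have hfibinj : ∀ a : F, Set.InjOn (fun x => (X x, Y x))
      ((K.filter fun x => X x = a : Finset (PG F)) : Set (PG F)) := by
    intro a
    exact hinj.mono fun x hx => by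
      rw [Finset.coe_filter] at hx
      exact hx.1
  have hfibcard : ∀ a : F, (S.filter fun p => p.1 = a).card = (K.filter fun x => X x = a).card := by
    intro a
    rw [hfib, Finset.card_image_of_injOn (hfibinj a)]
  have hsec : ∀ x ∈ K, (K.filter fun y => X y = X x) = K.filter fun y => y.orthogonal (ln E x) := by
    intro x hx
    refine Finset.filter_congr fun y hy => ?_
    rw [on_ln_iff (hEne x hx), eq_comm, hXiff x hx y hy]
  have hsec' : ∀ x ∈ K, (K.filter fun y => X y = X x).card = secN K (ln E x) := by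
    intro x hx
    rw [hsec x hx]
    rfl
  -- the hypotheses of `char_three_affine`
  refine char_three_affine S hScard ?_ ?_ ?_ ?_
  · -- collinear points
    intro p hp q hq r hr hpq hqr hpr hcol
    rw [hS, Finset.mem_image] at hp hq hr
    obtain ⟨x, hx, rfl⟩ := hp
    obtain ⟨y, hy, rfl⟩ := hq
    obtain ⟨z, hz, rfl⟩ := hr
    have hxy : x ≠ y := fun h => hpq (by rw [h])
    have hyz : y ≠ z := fun h => hqr (by rw [h])
    have hxz : x ≠ z := fun h => hpr (by rw [h])
    simp only at hcol ⊢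
    have h1 : det3 x.rep y.rep z.rep = 0 := by
      rw [det3_coords hAB, hca x hx, hca y hy, hca z hz, hcc x hx, hcc y hy, hcc z hz]
      linear_combination (det3 E.rep x.rep B * det3 E.rep y.rep B * det3 E.rep z.rep B) * hcol
    have h2 : 3 ≤ secN K (ln x y) := by
      have hsub : ({x, y, z} : Finset (PG F)) ⊆ K.filter fun p => p.orthogonal (ln x y) := by
        intro w hw
        rw [Finset.mem_insert, Finset.mem_insert, Finset.mem_singleton] at hw
        rw [Finset.mem_filter]
        rcases hw with rfl | rfl | rfl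
        · exact ⟨hx, left_on_ln hxy⟩
        · exact ⟨hy, right_on_ln hxy⟩
        · exact ⟨hz, (on_ln_iff hxy _).mpr h1⟩
      have h3 : ({x, y, z} : Finset (PG F)).card = 3 := by
        rw [Finset.card_eq_three]
        exact ⟨x, y, z, hxy, hxz, hyz, rfl⟩
      rw [← h3]
      exact Finset.card_le_card hsub
    have h4 := (on_ln_iff hxy E).mp (hall _ h2).1
    rw [hXiff x hx y hy, ← det3_cycle]
    exact h4
  · -- verticals
    intro a
    rw [hfibcard]
    rcases (K.filter fun x => X x = a).eq_empty_or_nonempty with h | ⟨x, hx⟩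
    · rw [h]; simp
    · rw [Finset.mem_filter] at hx
      obtain ⟨hxK, rfl⟩ := hx
      rw [hsec' x hxK]
      by_contra hcon
      push Not at hcon
      have := (hall (ln E x) (by omega)).2
      omega
  · -- sums
    intro a ha
    rw [hfibcard] at ha
    rw [hfib, Finset.sum_image (hfibinj a)]
    obtain ⟨P, Q, Z, hPQ, hPZ, hQZ, hPQZ⟩ := Finset.card_eq_three.mp ha
    have hmem : ∀ w ∈ ({P, Q, Z} : Finset (PG F)), w ∈ K ∧ X w = a := by
      intro w hw
      rw [← hPQZ, Finset.mem_filter] at hw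
      exact hw
    have hP := hmem P (by simp)
    have hQ := hmem Q (by simp)
    have hZ := hmem Z (by simp)
    rw [hPQZ, Finset.sum_insert (by simp [hPQ, hPZ]), Finset.sum_insert (by simp [hQZ]),
      Finset.sum_singleton]
    simp only
    have hEP := hEne P hP.1
    have h3 : secN K (ln E P) = 3 := by
      rw [← hsec' P hP.1, hP.2]
      exact ha
    have hon : ∀ w, w ∈ K ∧ X w = a → w.orthogonal (ln E P) := by
      intro w hw
      rw [on_ln_iff hEP, ← hXiff P hP.1 w hw.1, hP.2, hw.2]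
    obtain ⟨α, β, γ, δ, h1, h2, hα, hβ, hγ, hδ, h5⟩ := hrel (ln E P) h3.ge P hP.1 Q hQ.1 Z hZ.1
      (hon P hP) (hon Q hQ) (hon Z hZ) hPQ hQZ hPZ
    have e1 : det3 E.rep Q.rep B = α * det3 E.rep P.rep B + β * det3 E.rep Z.rep B := by
      rw [h1, det3_lin]
    have e2 : det3 Q.rep A B = α * det3 P.rep A B + β * det3 Z.rep A B := by
      rw [h1, det3_lin1]
    have e3 : 0 = γ * det3 E.rep P.rep B + δ * det3 E.rep Z.rep B := by
      rw [← det3_lin, ← h2, det3_self12]
    have e4 : 1 = γ * det3 P.rep A B + δ * det3 Z.rep A B := by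
      rw [← det3_lin1, ← h2, hAB]
    have hbP := hmiss P hP.1
    have hbQ := hmiss Q hQ.1
    have hbZ := hmiss Z hZ.1
    simp only [hY]
    set bP := det3 E.rep P.rep B
    set bQ := det3 E.rep Q.rep B
    set bZ := det3 E.rep Z.rep B
    set aP := det3 P.rep A B
    set aQ := det3 Q.rep A B
    set aZ := det3 Z.rep A B
    have g1 : bZ = -(γ * bP) / δ := by
      rw [eq_div_iff hδ]; linear_combination -e3
    have g2 : aZ = (1 - γ * aP) / δ := by
      rw [eq_div_iff hδ]; linear_combination -e4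
    have g3 : α = -(γ * β) / δ := by
      rw [eq_div_iff hδ]; linear_combination h5
    have g4 : bQ * δ = -2 * γ * β * bP := by
      rw [e1, g1, g3]; field_simp; ring
    have g5 : aQ * δ = β * (1 - 2 * γ * aP) := by
      rw [e2, g2, g3]; field_simp; ring
    have h20 : (2:F) ≠ 0 := by
      intro h2
      have : (1:F) = 0 := by linear_combination h30 - h2
      exact one_ne_zero this
    have g6 : aQ / bQ = (1 - 2 * γ * aP) / (-2 * γ * bP) := by
      rw [div_eq_div_iff hbQ (mul_ne_zero (mul_ne_zero (neg_ne_zero.mpr h20) hγ) hbP)]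
      have : δ * β * (aQ * (-2 * γ * bP)) = δ * β * ((1 - 2 * γ * aP) * bQ) := by
        linear_combination (-(δ * aQ)) * g4 + (δ * bQ) * g5
      exact mul_left_cancel₀ (mul_ne_zero hδ hβ) this
    have g7 : aZ / bZ = (1 - γ * aP) / (-(γ * bP)) := by
      rw [g1, g2]; field_simp
    rw [g6, g7]
    field_simp
    linear_combination (aP * γ * 2 - 1) * h30
  · -- number of three-secants
    set T := Finset.univ.filter fun l : PG F => 3 ≤ secN K l with hTdef
    set U := Finset.univ.filter fun a : F => (S.filter fun p => p.1 = a).card = 3 with hUdef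
    have hTU : U.card = T.card := by
      set K3 := K.filter fun x => 3 ≤ secN K (ln E x) with hK3
      have h1 : K3.card = ∑ l ∈ T, (K3.filter fun x => ln E x = l).card := by
        refine Finset.card_eq_sum_card_fiberwise fun x hx => ?_
        rw [Finset.mem_coe, hK3, Finset.mem_filter] at hx
        rw [Finset.mem_coe, hTdef, Finset.mem_filter]
        exact ⟨Finset.mem_univ _, hx.2⟩
      have h2 : ∀ l ∈ T, (K3.filter fun x => ln E x = l).card = 3 := by
        intro l hl
        rw [hTdef, Finset.mem_filter] at hl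
        have h3 := hall l hl.2
        rw [← h3.2]
        unfold secN
        congr 1
        ext x
        simp only [hK3, Finset.mem_filter]
        constructor
        · rintro ⟨⟨hx, -⟩, rfl⟩
          exact ⟨hx, right_on_ln (hEne x hx)⟩
        · rintro ⟨hx, hxl⟩
          have h4 := ln_eq (hEne x hx) h3.1 hxl
          exact ⟨⟨hx, by rw [h4]; exact hl.2⟩, h4⟩
      have h3 : K3.card = ∑ a ∈ U, (K3.filter fun x => X x = a).card := by
        refine Finset.card_eq_sum_card_fiberwise fun x hx => ?_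
        rw [Finset.mem_coe, hK3, Finset.mem_filter] at hx
        rw [Finset.mem_coe, hUdef, Finset.mem_filter]
        refine ⟨Finset.mem_univ _, ?_⟩
        rw [hfibcard, hsec' x hx.1]
        exact (hall _ hx.2).2
      have h4 : ∀ a ∈ U, (K3.filter fun x => X x = a).card = 3 := by
        intro a ha
        rw [hUdef, Finset.mem_filter, hfibcard] at ha
        rw [← ha.2]
        congr 1
        ext x
        simp only [hK3, Finset.mem_filter]
        constructor
        · rintro ⟨⟨hx, -⟩, rfl⟩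
          exact ⟨hx, rfl⟩
        · rintro ⟨hx, rfl⟩
          refine ⟨⟨hx, ?_⟩, rfl⟩
          rw [← hsec' x hx]
          exact ha.2.ge
      rw [Finset.sum_congr rfl h2, Finset.sum_const, smul_eq_mul] at h1
      rw [Finset.sum_congr rfl h4, Finset.sum_const, smul_eq_mul] at h3
      omega
    obtain ⟨k, hprime, hk⟩ := FiniteField.card F 3
    have hq9 : 9 ≤ Fintype.card F := by omega
    rcases Nat.lt_or_ge (k : ℕ) 3 with hk3 | hk3
    · right
      have hk2 : (k : ℕ) = 2 := by
        have : (k : ℕ) ≠ 0 := k.ne_zero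
        have h1 : (k : ℕ) ≠ 1 := by
          intro h
          rw [hk, h] at hq9
          norm_num at hq9
        omega
      have h9 : Fintype.card F = 9 := by rw [hk, hk2]; norm_num
      refine ⟨h9, ?_⟩
      rw [hTU]
      omega
    · left
      have h27 : 27 ≤ Fintype.card F := by
        rw [hk]
        calc 27 = 3 ^ 3 := by norm_num
          _ ≤ 3 ^ (k : ℕ) := Nat.pow_le_pow_right (by norm_num) hk3
      rw [hTU]
      omega

end NonHit
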