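import Pool.Agent.Lib.MP_8b6d0b_co.Harmonic
import Pool.Agent.Lib.MP_8b6d0b_co.J6Slots
import Pool.Agent.Lib.MP_8b6d0b_co.J8ConcurrentOff

/-!
# The case analysis: choosing the test multiset
-/

namespace NonHit

open Projectivization Matrix
open scoped LinearAlgebra.Projectivization Classical

set_option linter.unusedSectionVars false

variable {F : Type*} [Field F] [Fintype F] (K : Finset (PG F))

theorem cnt_add (M N : Multiset (PG F)) (l : PG F) : cnt (M + N) l = cnt M l + cnt N l := by
  unfold cnt; rw [Multiset.filter_add, Multiset.card_add]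

theorem cnt_replicate_of_on {Y l : PG F} (h : Y.orthogonal l) (n : ℕ) :
    cnt (Multiset.replicate n Y) l = n := by
  unfold cnt
  rw [Multiset.filter_eq_self.mpr, Multiset.card_replicate]
  intro a ha
  rw [Multiset.eq_of_mem_replicate ha]; exact h

theorem cnt_of_all_on {M : Multiset (PG F)} {l : PG F} (h : ∀ A ∈ M, A.orthogonal l) :
    cnt M l = M.card := by
  unfold cnt
  rw [Multiset.filter_eq_self.mpr h]

theorem cnt_of_all_off {M : Multiset (PG F)} {l : PG F} (h : ∀ A ∈ M, ¬ A.orthogonal l) :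
    cnt M l = 0 := by
  unfold cnt
  rw [Multiset.filter_eq_nil.mpr h, Multiset.card_zero]

theorem one_le_cnt {M : Multiset (PG F)} {l Y : PG F} (hY : Y ∈ M) (h : Y.orthogonal l) :
    1 ≤ cnt M l := by
  unfold cnt
  rw [Nat.succ_le_iff, Multiset.card_pos_iff_exists_mem]
  exact ⟨Y, by rw [Multiset.mem_filter]; exact ⟨hY, h⟩⟩

/-- Application of the key lemma with test multiset: the points of `K` on `l0` but `P0`,
`2 i0 - 5` copies of a point `Y` of `l0`, and a multiset `M1` off `l0`. -/
theorem key_apply (hodd : Odd (Fintype.card F)) (hK : K.card = Fintype.card F + 1)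
    (l0 : PG F) (h3 : 3 ≤ secN K l0) (P0 Y : PG F) (hP0 : P0 ∈ K) (hP0l : P0.orthogonal l0)
    (hYl : Y.orthogonal l0) (hYP : Y ≠ P0) (M1 : Multiset (PG F))
    (hM1 : M1.card + 3 * secN K l0 = Fintype.card F + 2) (hoff : ∀ A ∈ M1, ¬ A.orthogonal l0)
    (hcov : ∀ l, l ≠ l0 → 3 ≤ secN K l → 3 * (secN K l - 2) <
      (if Y.orthogonal l then 2 * secN K l0 - 5 + (if Y ∈ K then 1 else 0) else 0) + cnt M1 l) :
    False := by
  set L := (K.filter (fun p : PG F => p.orthogonal l0)).erase P0 with hL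
  have hP0L : P0 ∈ K.filter (fun p : PG F => p.orthogonal l0) := by
    rw [Finset.mem_filter]; exact ⟨hP0, hP0l⟩
  have hLc : L.card + 1 = secN K l0 := by
    rw [hL, Finset.card_erase_add_one hP0L]; rfl
  have hLon : ∀ A ∈ L.val, A.orthogonal l0 := by
    intro A hA
    have : A ∈ L := hA
    rw [hL, Finset.mem_erase, Finset.mem_filter] at this
    exact this.2.2
  set M : Multiset (PG F) := L.val + Multiset.replicate (2 * secN K l0 - 5) Y + M1 with hM
  refine key_lemma K M hodd hK ?_ l0 h3 P0 hP0 hP0l ?_ ?_ ?_ ?_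
  · rw [hM, Multiset.card_add, Multiset.card_add, Multiset.card_replicate]
    have : L.val.card = L.card := rfl
    omega
  · rw [hM, Multiset.mem_add, Multiset.mem_add]
    rintro ((h | h) | h)
    · have : P0 ∈ L := h
      rw [hL] at this
      simp at this
    · exact hYP (Multiset.eq_of_mem_replicate h).symm
    · exact hoff P0 h hP0l
  · intro Q hQ hQl hQP
    rw [hM, Multiset.mem_add, Multiset.mem_add]
    left; left
    have : Q ∈ L := by
      rw [hL, Finset.mem_erase, Finset.mem_filter]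
      exact ⟨hQP, hQ, hQl⟩
    exact this
  · rw [hM, cnt_add, cnt_add, cnt_of_all_on hLon, cnt_replicate_of_on hYl, cnt_of_all_off hoff]
    have : L.val.card = L.card := rfl
    omega
  · intro l hl hl3
    have h1 := hcov l hl hl3
    rw [hM, cnt_add, cnt_add]
    by_cases hYo : Y.orthogonal l
    · rw [if_pos hYo] at h1
      rw [cnt_replicate_of_on hYo]
      by_cases hYK : Y ∈ K
      · rw [if_pos hYK] at h1
        have h2 : 1 ≤ cnt L.val l := by
          apply one_le_cnt (Y := Y) _ hYo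
          have : Y ∈ L := by
            rw [hL, Finset.mem_erase, Finset.mem_filter]
            exact ⟨hYP, hYK, hYl⟩
          exact this
        omega
      · rw [if_neg hYK] at h1
        omega
    · rw [if_neg hYo] at h1
      omega

/-- the set of multisecants -/
noncomputable def TT : Finset (PG F) := Finset.univ.filter fun l => 3 ≤ secN K l

theorem mem_TT {l : PG F} : l ∈ TT K ↔ 3 ≤ secN K l := by
  unfold TT; simp

/-- twice the defect sum -/
noncomputable def WW : ℕ := ∑ l ∈ TT K, (secN K l - 1) * (secN K l - 2)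

theorem exists_two_on {l : PG F} (h : 3 ≤ secN K l) (E : PG F) :
    ∃ P ∈ K, P.orthogonal l ∧ P ≠ E := by
  have h4 : 1 < (K.filter (fun p : PG F => p.orthogonal l)).card := by
    unfold secN at h
    omega
  obtain ⟨Y, hY, hYP⟩ := Finset.exists_mem_ne h4 E
  rw [Finset.mem_filter] at hY
  exact ⟨Y, hY.1, hY.2, hYP⟩

theorem sq_aux (n : ℕ) (h : 3 ≤ n) : 3 * n ≤ (n - 1) * (n - 2) + 7 := by
  obtain ⟨m, rfl⟩ := Nat.exists_eq_add_of_le h
  have h1 : 3 + m - 1 = m + 2 := by omega
  have h2 : 3 + m - 2 = m + 1 := by omega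
  rw [h1, h2]
  nlinarith

theorem sq_aux2 (n : ℕ) (h : 3 ≤ n) : 3 * n - 5 ≤ 2 * ((n - 1) * (n - 2)) := by
  have h1 := sq_aux n h
  have h2 : 2 ≤ (n - 1) * (n - 2) := by
    calc 2 = 2 * 1 := rfl
      _ ≤ (n - 1) * (n - 2) := Nat.mul_le_mul (by omega) (by omega)
  omega

/-- No good multisecant: a multisecant all of whose points are good is impossible. -/
theorem good_line (hodd : Odd (Fintype.card F)) (hK : K.card = Fintype.card F + 1)
    (hW : WW K + 5 ≤ Fintype.card F) (l0 : PG F) (h3 : 3 ≤ secN K l0)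
    (hgood : ∀ A : PG F, A.orthogonal l0 →
      ∑ l ∈ (TT K).filter (fun l => A.orthogonal l), (3 * secN K l - 5) ≤ WW K + 2) : False := by
  have hl0 : l0 ∈ TT K := (mem_TT K).mpr h3
  have hsplit : WW K = (secN K l0 - 1) * (secN K l0 - 2) +
      ∑ l ∈ (TT K).erase l0, (secN K l - 1) * (secN K l - 2) := by
    unfold WW
    exact (Finset.add_sum_erase _ (fun l => (secN K l - 1) * (secN K l - 2)) hl0).symm
  have hsq := sq_aux _ h3
  have hB : 3 * secN K l0 ≤ Fintype.card F + 2 := by omega
  obtain ⟨M1, hM1c, hM1off, hM1⟩ := slots l0 ((TT K).erase l0) (by simp)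
    (fun l => 3 * secN K l - 5) (Fintype.card F + 2 - 3 * secN K l0) (by
      intro A hA
      have h1 := hgood A hA
      have h2 : l0 ∈ (TT K).filter (fun l => A.orthogonal l) := by
        rw [Finset.mem_filter]; exact ⟨hl0, hA⟩
      have h4 : (3 * secN K l0 - 5) + ∑ l ∈ ((TT K).erase l0).filter (fun l => A.orthogonal l),
          (3 * secN K l - 5)
          = ∑ l ∈ (TT K).filter (fun l => A.orthogonal l), (3 * secN K l - 5) := by
        rw [Finset.filter_erase]
        exact Finset.add_sum_erase _ (fun l => 3 * secN K l - 5) h2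
      omega) (by
      have h1 : ∑ l ∈ (TT K).erase l0, (3 * secN K l - 5)
          ≤ ∑ l ∈ (TT K).erase l0, 2 * ((secN K l - 1) * (secN K l - 2)) := by
        refine Finset.sum_le_sum fun l hl => sq_aux2 _ ?_
        exact (mem_TT K).mp (Finset.mem_of_mem_erase hl)
      rw [← Finset.mul_sum] at h1
      omega)
  obtain ⟨P0, hP0, hP0l, -⟩ := exists_two_on K h3 l0
  obtain ⟨Y, hY, hYl, hYP⟩ := exists_two_on K h3 P0
  refine key_apply K hodd hK l0 h3 P0 Y hP0 hP0l hYl hYP M1 (by omega) hM1off ?_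
  intro l hl hl3
  have h1 := hM1 l (by rw [Finset.mem_erase]; exact ⟨hl, (mem_TT K).mpr hl3⟩)
  have h2 : cnt M1 l = (M1.filter fun A => A.orthogonal l).card := rfl
  omega

theorem bad_card (A : PG F)
    (hbad : WW K + 3 ≤ ∑ l ∈ (TT K).filter (fun l => A.orthogonal l), (3 * secN K l - 5)) :
    2 * (TT K).card + 3 ≤ 4 * ((TT K).filter (fun l => A.orthogonal l)).card := by
  have h1 : ∑ l ∈ (TT K).filter (fun l => A.orthogonal l), (3 * secN K l - 5)
      ≤ ∑ l ∈ (TT K).filter (fun l => A.orthogonal l), ((secN K l - 1) * (secN K l - 2) + 2) := by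
    refine Finset.sum_le_sum fun l hl => ?_
    rw [Finset.mem_filter, mem_TT] at hl
    have := sq_aux _ hl.1
    omega
  rw [Finset.sum_add_distrib, Finset.sum_const, smul_eq_mul] at h1
  have h2 : WW K = ∑ l ∈ (TT K).filter (fun l => A.orthogonal l), (secN K l - 1) * (secN K l - 2)
      + ∑ l ∈ (TT K).filter (fun l => ¬ A.orthogonal l), (secN K l - 1) * (secN K l - 2) := by
    unfold WW
    exact (Finset.sum_filter_add_sum_filter_not _ _ _).symm
  have h3 : ((TT K).filter (fun l => ¬ A.orthogonal l)).card * 2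
      ≤ ∑ l ∈ (TT K).filter (fun l => ¬ A.orthogonal l), (secN K l - 1) * (secN K l - 2) := by
    rw [← smul_eq_mul, ← Finset.sum_const]
    refine Finset.sum_le_sum fun l hl => ?_
    rw [Finset.mem_filter, mem_TT] at hl
    calc 2 = 2 * 1 := rfl
      _ ≤ (secN K l - 1) * (secN K l - 2) := Nat.mul_le_mul (by omega) (by omega)
  have h4 : ((TT K).filter (fun l => A.orthogonal l)).card
      + ((TT K).filter (fun l => ¬ A.orthogonal l)).card = (TT K).card :=
    Finset.card_filter_add_card_filter_not _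
  omega

theorem two_bad (A A' : PG F) (h : A ≠ A') :
    ((TT K).filter (fun l => A.orthogonal l)).card
      + ((TT K).filter (fun l => A'.orthogonal l)).card ≤ (TT K).card + 1 := by
  rw [← Finset.card_union_add_card_inter]
  have h1 : ((TT K).filter (fun l => A.orthogonal l) ∪
      (TT K).filter (fun l => A'.orthogonal l)).card ≤ (TT K).card :=
    Finset.card_le_card (Finset.union_subset (Finset.filter_subset _ _) (Finset.filter_subset _ _))
  have h2 : ((TT K).filter (fun l => A.orthogonal l) ∩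
      (TT K).filter (fun l => A'.orthogonal l)).card ≤ 1 := by
    rw [Finset.card_le_one]
    intro l hl m hm
    rw [Finset.mem_inter, Finset.mem_filter, Finset.mem_filter] at hl hm
    rcases eq_or_eq hl.1.2 hl.2.2 hm.1.2 hm.2.2 with h' | h'
    · exact absurd h' h
    · exact h'
  omega

/-- If the multisecants are not concurrent, the defect is large. -/
theorem not_concurrent (hodd : Odd (Fintype.card F)) (hK : K.card = Fintype.card F + 1)
    (hW : WW K + 5 ≤ Fintype.card F) (hnc : ∀ E : PG F, ∃ l ∈ TT K, ¬ E.orthogonal l) : False := by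
  by_cases hb : ∃ A : PG F, WW K + 3 ≤
      ∑ l ∈ (TT K).filter (fun l => A.orthogonal l), (3 * secN K l - 5)
  · obtain ⟨A, hA⟩ := hb
    obtain ⟨l0, hl0, hAl⟩ := hnc A
    refine good_line K hodd hK hW l0 ((mem_TT K).mp hl0) ?_
    intro A' hA'
    by_contra hcon
    have h1 := bad_card K A hA
    have h2 := bad_card K A' (by omega)
    have h3 := two_bad K A A' (by rintro rfl; exact hAl hA')
    omega
  · push Not at hb
    obtain ⟨P, hP⟩ : K.Nonempty := by
      rw [← Finset.card_pos, hK]; omega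
    obtain ⟨l0, hl0, -⟩ := hnc P
    refine good_line K hodd hK hW l0 ((mem_TT K).mp hl0) ?_
    intro A' _
    have := hb A'
    omega

/-- All multisecants through `E`: the main case. -/
theorem concurrent_gen (hodd : Odd (Fintype.card F)) (hK : K.card = Fintype.card F + 1)
    (E : PG F) (hE : ∀ l ∈ TT K, E.orthogonal l) (l0 : PG F) (h3 : 3 ≤ secN K l0) (e : ℕ)
    (he : e ≤ 2 * secN K l0 - 5 + (if E ∈ K then 1 else 0))
    (hbudget : 3 * secN K l0 + ∑ l ∈ (TT K).erase l0, (3 * secN K l - 5 - e)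
      ≤ Fintype.card F + 2) : False := by
  have hl0 : l0 ∈ TT K := (mem_TT K).mpr h3
  obtain ⟨M1, hM1c, hM1off, hM1⟩ := slots l0 ((TT K).erase l0) (by simp)
    (fun l => 3 * secN K l - 5 - e) (Fintype.card F + 2 - 3 * secN K l0) (by
      intro A hA
      have h1 : ∑ l ∈ ((TT K).erase l0).filter (fun l => A.orthogonal l), (3 * secN K l - 5 - e)
        ≤ ∑ l ∈ (TT K).erase l0, (3 * secN K l - 5 - e) :=
        Finset.sum_le_sum_of_subset (Finset.filter_subset _ _)
      omega) (by omega)
  obtain ⟨P0, hP0, hP0l, hP0E⟩ := exists_two_on K h3 E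
  refine key_apply K hodd hK l0 h3 P0 E hP0 hP0l (hE l0 hl0) hP0E.symm M1 (by omega) hM1off ?_
  intro l hl hl3
  have h1 := hM1 l (by rw [Finset.mem_erase]; exact ⟨hl, (mem_TT K).mpr hl3⟩)
  have h2 : cnt M1 l = (M1.filter fun A => A.orthogonal l).card := rfl
  rw [if_pos (hE l ((mem_TT K).mpr hl3))]
  omega

theorem sum_aux (s : Finset (PG F)) (hs : ∀ l ∈ s, 3 ≤ secN K l) :
    ∑ l ∈ s, (3 * secN K l - 5 - 2) ≤ ∑ l ∈ s, (secN K l - 1) * (secN K l - 2) := by
  refine Finset.sum_le_sum fun l hl => ?_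
  have := sq_aux _ (hs l hl)
  omega

theorem concurrent_two (hodd : Odd (Fintype.card F)) (hK : K.card = Fintype.card F + 1)
    (hW : WW K + 5 ≤ Fintype.card F)
    (E : PG F) (hE : ∀ l ∈ TT K, E.orthogonal l) (l0 : PG F) (h3 : 3 ≤ secN K l0)
    (he : E ∈ K ∨ 4 ≤ secN K l0) : False := by
  have hl0 : l0 ∈ TT K := (mem_TT K).mpr h3
  refine concurrent_gen K hodd hK E hE l0 h3 2 ?_ ?_
  · rcases he with he | he
    · rw [if_pos he]; omega
    · omega
  · have h1 := sum_aux K ((TT K).erase l0) (fun l hl => (mem_TT K).mp (Finset.mem_of_mem_erase hl))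
    have hsplit : WW K = (secN K l0 - 1) * (secN K l0 - 2) +
        ∑ l ∈ (TT K).erase l0, (secN K l - 1) * (secN K l - 2) := by
      unfold WW
      exact (Finset.add_sum_erase _ (fun l => (secN K l - 1) * (secN K l - 2)) hl0).symm
    have := sq_aux _ h3
    omega

theorem even_term (n : ℕ) : Even ((n - 1) * (n - 2)) := by
  rcases Nat.even_or_odd n with h | h
  · rcases h with ⟨k, hk⟩
    apply Even.mul_left
    exact ⟨k - 1, by omega⟩
  · rcases h with ⟨k, hk⟩
    apply Even.mul_right
    exact ⟨k, by omega⟩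

theorem WW_eq : WW K = ∑ l : PG F, (secN K l - 1) * (secN K l - 2) := by
  unfold WW TT
  rw [Finset.sum_filter]
  refine Finset.sum_congr rfl fun l _ => ?_
  split_ifs with h
  · rfl
  · have h1 : secN K l - 2 = 0 := by omega
    rw [h1, mul_zero]

/-- **The main bound.** -/
theorem main_bound (hodd : Odd (Fintype.card F)) (hK : K.card = Fintype.card F + 1)
    (hT : ∃ l : PG F, 3 ≤ secN K l) :
    Fintype.card F ≤ ∑ l : PG F, (secN K l - 1) * (secN K l - 2) + 3 := by
  by_contra hcon
  rw [← WW_eq] at hcon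
  have hev : Even (WW K) := by
    unfold WW
    exact Finset.even_sum _ fun l _ => even_term _
  have hW : WW K + 5 ≤ Fintype.card F := by
    rcases hev with ⟨a, ha⟩
    rcases hodd with ⟨b, hb⟩
    omega
  obtain ⟨l1, hl1⟩ := hT
  have hl1T : l1 ∈ TT K := (mem_TT K).mpr hl1
  by_cases hc : ∃ E : PG F, ∀ l ∈ TT K, E.orthogonal l
  swap
  · push Not at hc
    exact not_concurrent K hodd hK hW hc
  obtain ⟨E, hE⟩ := hc
  by_cases hEK : E ∈ K
  · exact concurrent_two K hodd hK hW E hE l1 hl1 (Or.inl hEK)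
  by_cases h4 : ∃ l0 ∈ TT K, 4 ≤ secN K l0
  · obtain ⟨l0, hl0, h4⟩ := h4
    exact concurrent_two K hodd hK hW E hE l0 (by omega) (Or.inr h4)
  push Not at h4
  have hthree : ∀ l, 3 ≤ secN K l → secN K l = 3 := by
    intro l hl
    have := h4 l ((mem_TT K).mpr hl)
    omega
  by_cases hT2 : 2 ≤ (TT K).card
  swap
  · have h1 : (TT K).card ≤ 1 := by omega
    rw [Finset.card_le_one] at h1
    obtain ⟨P, hP, hPl, -⟩ := exists_two_on K hl1 E
    refine concurrent_two K hodd hK hW P ?_ l1 hl1 (Or.inl hP)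
    intro l hl
    rw [h1 l hl l1 hl1T]; exact hPl
  have hWT : WW K = 2 * (TT K).card := by
    unfold WW
    rw [Finset.sum_congr rfl (g := fun _ => 2) (by
      intro l hl
      rw [hthree l ((mem_TT K).mp hl)]), Finset.sum_const, smul_eq_mul, mul_comm]
  by_cases hq : 3 * (TT K).card + 4 ≤ Fintype.card F
  · refine concurrent_gen K hodd hK E hE l1 hl1 1 (by omega) ?_
    have h1 : ∑ l ∈ (TT K).erase l1, (3 * secN K l - 5 - 1) = 3 * ((TT K).card - 1) := by
      rw [Finset.sum_congr rfl (g := fun _ => 3) (by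
        intro l hl
        rw [hthree l ((mem_TT K).mp (Finset.mem_of_mem_erase hl))]), Finset.sum_const,
        smul_eq_mul, mul_comm, Finset.card_erase_of_mem hl1T]
    rw [h1, hthree l1 hl1]
    omega
  refine concurrent_off hodd K hK E hEK (fun l hl => ⟨hE l ((mem_TT K).mpr hl), hthree l hl⟩)
    hT2 (by
      have : (Finset.univ.filter fun l : PG F => 3 ≤ secN K l).card = (TT K).card := rfl
      omega) (by
      have : (Finset.univ.filter fun l : PG F => 3 ≤ secN K l).card = (TT K).card := rfl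
      omega) ?_
  intro l hl P hP Q hQ Z hZ hPl hQl hZl hPQ hQZ hPZ α β γ δ hQr hEr
  have hlT : l ∈ TT K := (mem_TT K).mpr hl
  obtain ⟨M0, hM0c, hM0off, hM0⟩ := slots l ((TT K).erase l) (by simp)
    (fun _ => 2) (Fintype.card F - 7) (by
      intro A hA
      have h1 : ∑ l ∈ ((TT K).erase l).filter (fun l => A.orthogonal l), 2
        ≤ ∑ l ∈ (TT K).erase l, 2 :=
        Finset.sum_le_sum_of_subset (Finset.filter_subset _ _)
      have h2 : ∑ l ∈ (TT K).erase l, 2 = 2 * ((TT K).card - 1) := by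
        rw [Finset.sum_const, smul_eq_mul, mul_comm, Finset.card_erase_of_mem hlT]
      omega) (by
      have h2 : ∑ l ∈ (TT K).erase l, 2 = 2 * ((TT K).card - 1) := by
        rw [Finset.sum_const, smul_eq_mul, mul_comm, Finset.card_erase_of_mem hlT]
      omega)
  refine harmonic_rel K hodd hK hP hQ hZ hPl hQl hZl (hE l hlT) hPQ hQZ hPZ (hthree l hl) M0
    (by omega) hM0off ?_ α β γ δ hQr hEr
  intro l' hl' hl3
  have h1 := hM0 l' (by rw [Finset.mem_erase]; exact ⟨hl', (mem_TT K).mpr hl3⟩)
  have h2 : cnt (E ::ₘ E ::ₘ Q ::ₘ M0) l' = cnt (Multiset.replicate 2 E) l' + cnt (Q ::ₘ M0) l' := by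
    rw [← cnt_add]
    congr 1
    rw [show Multiset.replicate 2 E = {E} + {E} from rfl, add_assoc, Multiset.singleton_add,
      Multiset.singleton_add]
  have h3 : cnt (Q ::ₘ M0) l' = cnt {Q} l' + cnt M0 l' := by
    rw [← cnt_add, Multiset.singleton_add]
  have h5 : cnt M0 l' = (M0.filter fun A => A.orthogonal l').card := rfl
  rw [h2, h3, cnt_replicate_of_on (hE l' ((mem_TT K).mpr hl3)), hthree l' hl3]
  omega

end NonHit
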