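import Mathlib

/-!
# Non-hitting index of point sets of `PG(2,q)`: basic definitions

Points and lines of `PG(2,q)` are both elements of `ℙ F (Fin 3 → F)`;
the point `p` is on the line `l` iff `p.orthogonal l` (the dot product of representatives vanishes).
-/

namespace NonHit

open Projectivization
open scoped LinearAlgebra.Projectivization Classical

/-- Points (and, by duality, lines) of `PG(2,F)`. -/
abbrev PG (F : Type*) [Field F] := ℙ F (Fin 3 → F)

noncomputable instance instFintypePG (F : Type*) [Field F] [Finite F] : Fintype (PG F) :=
  Fintype.ofFinite _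

variable {F : Type*} [Field F]

/-- The number of points of `S` on the line `l`. -/
noncomputable def secN (S : Finset (PG F)) (l : PG F) : ℕ :=
  (S.filter fun p => p.orthogonal l).card

/-- The non-hitting index: the number of lines that contain no point of `S`. -/
noncomputable def u0 [Finite F] (S : Finset (PG F)) : ℕ :=
  (Finset.univ.filter fun l : PG F => ∀ p ∈ S, ¬ p.orthogonal l).card

/-- The `3 × 3` determinant with rows `a, b, c`. -/
def det3 (a b c : Fin 3 → F) : F :=
  a 0 * (b 1 * c 2 - b 2 * c 1) - a 1 * (b 0 * c 2 - b 2 * c 0) + a 2 * (b 0 * c 1 - b 1 * c 0)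

end NonHit
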