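import Pool.Agent.Lib.MP_8b6d0b_co.Defs

/-!
# Basic facts on `PG(2,F)` in terms of `3 × 3` determinants
-/

namespace NonHit

open Projectivization Matrix
open scoped LinearAlgebra.Projectivization Classical

variable {F : Type*} [Field F]

theorem det3_swap (a b c : Fin 3 → F) : det3 b a c = -det3 a b c := by unfold det3; ring
theorem det3_swap' (a b c : Fin 3 → F) : det3 a c b = -det3 a b c := by unfold det3; ring
theorem det3_cycle (a b c : Fin 3 → F) : det3 b c a = det3 a b c := by unfold det3; ring
theorem det3_self12 (a c : Fin 3 → F) : det3 a a c = 0 := by unfold det3; ring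
theorem det3_self13 (a b : Fin 3 → F) : det3 a b a = 0 := by unfold det3; ring
theorem det3_self23 (a b : Fin 3 → F) : det3 a b b = 0 := by unfold det3; ring

theorem det3_plucker (p x y A B : Fin 3 → F) :
    det3 p x y * det3 p A B = det3 p x B * det3 p A y - det3 p A x * det3 p y B := by
  unfold det3; ring

theorem det3_eq_dot_cross (a b c : Fin 3 → F) : det3 a b c = c ⬝ᵥ crossProduct a b := by
  rw [cross_apply]
  simp only [dotProduct, Fin.sum_univ_three, Matrix.cons_val_zero, Matrix.cons_val_one,
    Matrix.cons_val, det3]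
  ring

theorem orth_iff (p l : PG F) : p.orthogonal l ↔ p.rep ⬝ᵥ l.rep = 0 := by
  have h := orthogonal_mk p.rep_nonzero l.rep_nonzero
  rwa [mk_rep, mk_rep] at h

theorem cross_rep_ne_zero {p q : PG F} (h : p ≠ q) : crossProduct p.rep q.rep ≠ 0 := by
  intro h0
  apply h
  rw [← p.mk_rep, ← q.mk_rep]
  exact (mk_eq_mk_iff_crossProduct_eq_zero p.rep_nonzero q.rep_nonzero).mpr h0

/-- the line through two points (or the intersection of two lines) -/
noncomputable def ln (p q : PG F) : PG F := Projectivization.cross p q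

theorem left_on_ln {p q : PG F} (h : p ≠ q) : p.orthogonal (ln p q) :=
  Projectivization.orthogonal_cross_left h

theorem right_on_ln {p q : PG F} (h : p ≠ q) : q.orthogonal (ln p q) :=
  Projectivization.orthogonal_cross_right h

theorem ln_comm (p q : PG F) : ln p q = ln q p := Projectivization.cross_comm p q

theorem on_ln_iff {p q : PG F} (h : p ≠ q) (r : PG F) :
    r.orthogonal (ln p q) ↔ det3 p.rep q.rep r.rep = 0 := by
  have h1 : ln p q = Projectivization.mk F (crossProduct p.rep q.rep) (cross_rep_ne_zero h) := by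
    unfold ln
    conv_lhs => rw [← p.mk_rep, ← q.mk_rep]
    exact cross_mk_of_cross_ne_zero p.rep_nonzero q.rep_nonzero (cross_rep_ne_zero h)
  rw [h1, det3_eq_dot_cross]
  conv_lhs => rw [← r.mk_rep]
  exact orthogonal_mk r.rep_nonzero (cross_rep_ne_zero h)

theorem eq_or_eq {p q l m : PG F} (h1 : p.orthogonal l) (h2 : q.orthogonal l)
    (h3 : p.orthogonal m) (h4 : q.orthogonal m) : p = q ∨ l = m :=
  Configuration.ofField.eq_or_eq_of_orthogonal h1 h2 h3 h4

theorem ln_eq {p q l : PG F} (h : p ≠ q) (h1 : p.orthogonal l) (h2 : q.orthogonal l) :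
    ln p q = l := by
  rcases eq_or_eq (left_on_ln h) (right_on_ln h) h1 h2 with h3 | h3
  · exact absurd h3 h
  · exact h3

theorem on_line_iff {p q l : PG F} (h : p ≠ q) (h1 : p.orthogonal l) (h2 : q.orthogonal l)
    (r : PG F) : r.orthogonal l ↔ det3 p.rep q.rep r.rep = 0 := by
  rw [← on_ln_iff h, ln_eq h h1 h2]

/-- the intersection point of two lines -/
theorem meet_left {l m : PG F} (h : l ≠ m) : (ln l m).orthogonal l :=
  orthogonal_comm.mp (left_on_ln h)

theorem meet_right {l m : PG F} (h : l ≠ m) : (ln l m).orthogonal m :=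
  orthogonal_comm.mp (right_on_ln h)

theorem exists_frame (p : Fin 3 → F) (hp : p ≠ 0) : ∃ e f : Fin 3 → F, det3 p e f = 1 := by
  have : ∃ i, p i ≠ 0 := by
    by_contra h
    push Not at h
    exact hp (funext h)
  obtain ⟨i, hi⟩ := this
  fin_cases i
  · refine ⟨![0, (p 0)⁻¹, 0], ![0, 0, 1], ?_⟩
    simp only [det3, Matrix.cons_val_zero, Matrix.cons_val_one, Matrix.cons_val]
    simp at hi
    field_simp
    ring
  · refine ⟨![-(p 1)⁻¹, 0, 0], ![0, 0, 1], ?_⟩
    simp only [det3, Matrix.cons_val_zero, Matrix.cons_val_one, Matrix.cons_val]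
    simp at hi
    field_simp
    ring
  · refine ⟨![(p 2)⁻¹, 0, 0], ![0, 1, 0], ?_⟩
    simp only [det3, Matrix.cons_val_zero, Matrix.cons_val_one, Matrix.cons_val]
    simp at hi
    field_simp
    ring

/-- `x` is not proportional to `p` if the two determinants with a frame do not both vanish. -/
theorem not_both_zero {p q : PG F} (h : p ≠ q) {e f : Fin 3 → F} (hef : det3 p.rep e f = 1)
    (h1 : det3 p.rep q.rep e = 0) (h2 : det3 p.rep q.rep f = 0) : False := by
  have hc := cross_rep_ne_zero h
  apply hc
  -- the linear functional `y ↦ det3 p q y` vanishes on the basis `p, e, f`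
  have h3 : ∀ y : Fin 3 → F, det3 p.rep q.rep y = 0 := by
    intro y
    have := det3_plucker p.rep q.rep y e f
    rw [hef, mul_one, h2, zero_mul, zero_sub] at this
    rw [this]
    have h4 : det3 p.rep e q.rep = 0 := by rw [det3_swap', h1, neg_zero]
    rw [h4, zero_mul, neg_zero]
  have h4 : ∀ y : Fin 3 → F, y ⬝ᵥ crossProduct p.rep q.rep = 0 := by
    intro y; rw [← det3_eq_dot_cross]; exact h3 y
  funext i
  have := h4 (Pi.single i 1)
  simpa using this

/-- A frame `A, B` at `P` such that `B` avoids all lines `P x`, `x ∈ K \ P`, if `|K \ P| ≤ q`. -/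
theorem exists_tangent_frame [Fintype F] (K : Finset (PG F)) (P : PG F)
    (hK : (K.erase P).card ≤ Fintype.card F) :
    ∃ A B : Fin 3 → F, det3 P.rep A B = 1 ∧ ∀ x ∈ K.erase P, det3 P.rep x.rep B ≠ 0 := by
  obtain ⟨e, f, hef⟩ := exists_frame P.rep P.rep_nonzero
  -- the killed direction of `x`
  let k : PG F → Option F := fun x =>
    if det3 P.rep x.rep f = 0 then none else some (-(det3 P.rep x.rep e) / det3 P.rep x.rep f)
  have hcard : ((K.erase P).image k).card < (Finset.univ : Finset (Option F)).card := by
    refine lt_of_le_of_lt Finset.card_image_le ?_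
    rw [Finset.card_univ, Fintype.card_option]
    omega
  obtain ⟨o, _, ho⟩ := Finset.exists_mem_notMem_of_card_lt_card hcard
  rw [Finset.mem_image] at ho
  push Not at ho
  rcases o with _ | z
  · refine ⟨e, f, hef, ?_⟩
    intro x hx h0
    exact ho x hx (by simp [k, h0])
  · refine ⟨-f, e + z • f, ?_, ?_⟩
    · have : det3 P.rep (-f) (e + z • f) = det3 P.rep e f := by
        simp only [det3, Pi.add_apply, Pi.smul_apply, Pi.neg_apply, smul_eq_mul]; ring
      rw [this, hef]
    · intro x hx h0
      have hxP : P ≠ x := (Finset.ne_of_mem_erase hx).symm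
      have h1 : det3 P.rep x.rep (e + z • f)
          = det3 P.rep x.rep e + z * det3 P.rep x.rep f := by
        simp only [det3, Pi.add_apply, Pi.smul_apply, smul_eq_mul]; ring
      rw [h1] at h0
      by_cases h2 : det3 P.rep x.rep f = 0
      · rw [h2, mul_zero, add_zero] at h0
        exact not_both_zero hxP hef h0 h2
      · apply ho x hx
        simp only [k, if_neg h2]
        congr 1
        rw [div_eq_iff h2]
        linear_combination -h0

end NonHit
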