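import Mathlib

/-!
# The one-variable identity (sum over the pencil of lines at a point)
-/

namespace NonHit

open Polynomial
open scoped Classical

set_option linter.unusedSectionVars false

variable {F : Type*} [Field F] [Fintype F]

/-- Wilson: the product of all `v - w`, `v ≠ w`, is `-1`. -/
theorem prod_sub_eq_neg_one (w : F) :
    ∏ v ∈ Finset.univ.erase w, (v - w) = -1 := by
  classical
  have h1 : ∏ v ∈ Finset.univ.erase w, (v - w) = ∏ x ∈ Finset.univ.erase (0 : F), x := by
    refine Finset.prod_bij' (fun v _ => v - w) (fun x _ => x + w) ?_ ?_ ?_ ?_ ?_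
    · intro v hv
      simp only [Finset.mem_erase, Finset.mem_univ, and_true] at hv ⊢
      exact sub_ne_zero.mpr hv
    · intro x hx
      simp only [Finset.mem_erase, Finset.mem_univ, and_true] at hx ⊢
      intro h
      exact hx (by simpa using h)
    · intro v _; ring
    · intro x _; ring
    · intro v _; rfl
  rw [h1]
  have h2 := FiniteField.prod_univ_units_id_eq_neg_one (K := F)
  have h3 : ((∏ x : Fˣ, x : Fˣ) : F) = -1 := by rw [h2]; simp
  rw [← h3, Units.coe_prod]
  symm
  refine Finset.prod_bij (fun (u : Fˣ) _ => (u : F)) ?_ ?_ ?_ ?_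
  · intro u _
    simp
  · intro u _ v _ h
    exact Units.ext h
  · intro x hx
    simp only [Finset.mem_erase, Finset.mem_univ, and_true] at hx
    exact ⟨Units.mk0 x hx, Finset.mem_univ _, rfl⟩
  · intro u _
    rfl

/-- The sum of the values of a polynomial of degree `< q - 1` is zero. -/
theorem sum_eval_eq_zero (G : F[X]) (hG : G.natDegree < Fintype.card F - 1) :
    ∑ w : F, G.eval w = 0 := by
  classical
  simp only [eval_eq_sum_range]
  rw [Finset.sum_comm]
  refine Finset.sum_eq_zero fun i hi => ?_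
  rw [← Finset.mul_sum]
  have : ∑ x : F, x ^ i = 0 := by
    apply FiniteField.sum_pow_lt_card_sub_one
    have := Finset.mem_range.mp hi
    omega
  rw [this, mul_zero]

theorem isCoprime_C_sub_X {u v : F} (h : u ≠ v) :
    IsCoprime (C u - X : F[X]) (C v - X) := by
  have h1 : IsCoprime (X - C u : F[X]) (X - C v) :=
    isCoprime_X_sub_C_of_isUnit_sub (sub_ne_zero.mpr h).isUnit
  have h2 : IsCoprime (-(X - C u) : F[X]) (-(X - C v)) := h1.neg_neg
  simpa [neg_sub] using h2

theorem natDegree_C_sub_X (u : F) : (C u - X : F[X]).natDegree = 1 := by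
  rw [← neg_sub, natDegree_neg, natDegree_X_sub_C]

theorem C_sub_X_ne_zero (u : F) : (C u - X : F[X]) ≠ 0 := by
  intro h
  have := natDegree_C_sub_X u
  rw [h] at this
  simp at this

/-- Data of a pencil: a finite set `s` of `q` objects with homogeneous coordinates `(a i, b i)`,
`a i ≠ 0`, and the test multiset `M` of pairs. `dirN w` is the number of objects in direction `w`. -/
noncomputable def dirN {ι : Type*} (s : Finset ι) (a b : ι → F) (w : F) : ℕ :=
  (s.filter fun i => b i / a i = w).card

/-- number of test pairs in direction `w` -/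
noncomputable def dirM (M : Multiset (F × F)) (w : F) : ℕ :=
  (M.filter fun A => A.2 = w * A.1).card

/-- numerator of the local term -/
noncomputable def numW (M : Multiset (F × F)) (w : F) : F :=
  (M.map fun A => if A.2 = w * A.1 then A.1 else A.2 - w * A.1).prod

/-- denominator of the local term -/
noncomputable def denW {ι : Type*} (s : Finset ι) (a b : ι → F) (w : F) : F :=
  ∏ j ∈ s, if b j / a j = w then a j else b j - w * a j

noncomputable def gPoly (M : Multiset (F × F)) : F[X] :=
  (M.map fun A => C A.2 - C A.1 * X).prod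

noncomputable def gPolyW (M : Multiset (F × F)) (w : F) : F[X] :=
  (M.map fun A => if A.2 = w * A.1 then C A.1 else C A.2 - C A.1 * X).prod

theorem gPoly_natDegree_le (M : Multiset (F × F)) : (gPoly M).natDegree ≤ M.card := by
  unfold gPoly
  refine (natDegree_multiset_prod_le _).trans ?_
  rw [Multiset.map_map]
  refine (Multiset.sum_le_card_nsmul _ 1 ?_).trans ?_
  · intro x hx
    rw [Multiset.mem_map] at hx
    obtain ⟨A, _, rfl⟩ := hx
    simp only [Function.comp]
    refine (natDegree_sub_le _ _).trans ?_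
    rw [natDegree_C]
    refine max_le (by omega) ?_
    refine (natDegree_C_mul_le _ _).trans ?_
    exact natDegree_X_le
  · simp

theorem gPoly_eq (M : Multiset (F × F)) (w : F) :
    gPoly M = (C w - X) ^ dirM M w * gPolyW M w := by
  unfold gPoly gPolyW dirM
  induction M using Multiset.induction_on with
  | empty => simp
  | cons A M ih =>
    rw [Multiset.map_cons, Multiset.prod_cons, Multiset.map_cons, Multiset.prod_cons, ih]
    by_cases h : A.2 = w * A.1
    · rw [Multiset.filter_cons_of_pos (p := fun A : F × F => A.2 = w * A.1) _ h, Multiset.card_cons, if_pos h]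
      have : (C A.2 - C A.1 * X : F[X]) = C A.1 * (C w - X) := by
        rw [h, C_mul]; ring
      rw [this]
      ring
    · rw [Multiset.filter_cons_of_neg (p := fun A : F × F => A.2 = w * A.1) _ h, if_neg h]
      ring

theorem gPolyW_eval (M : Multiset (F × F)) (w : F) : (gPolyW M w).eval w = numW M w := by
  unfold gPolyW numW
  rw [eval_multiset_prod, Multiset.map_map]
  congr 1
  apply Multiset.map_congr rfl
  intro A _
  simp only [Function.comp]
  split_ifs
  · rw [eval_C]
  · rw [eval_sub, eval_mul, eval_C, eval_C, eval_X, mul_comm]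

theorem gPoly_eval (M : Multiset (F × F)) (w : F) :
    (gPoly M).eval w = (M.map fun A => A.2 - w * A.1).prod := by
  unfold gPoly
  rw [eval_multiset_prod, Multiset.map_map]
  congr 1
  apply Multiset.map_congr rfl
  intro A _
  simp only [Function.comp]
  rw [eval_sub, eval_mul, eval_C, eval_C, eval_X, mul_comm]

section core

variable {ι : Type*} (s : Finset ι) (a b : ι → F)

/-- directions -/
noncomputable def dirs : Finset F := s.image fun i => b i / a i

theorem dirN_pos_of_mem {w : F} (hw : w ∈ dirs s a b) : 1 ≤ dirN s a b w := by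
  unfold dirs at hw
  rw [Finset.mem_image] at hw
  obtain ⟨i, hi, rfl⟩ := hw
  unfold dirN
  exact Finset.card_pos.mpr ⟨i, by simp [hi]⟩

theorem dirN_eq_zero {w : F} (hw : w ∉ dirs s a b) : dirN s a b w = 0 := by
  unfold dirN
  rw [Finset.card_eq_zero, Finset.filter_eq_empty_iff]
  intro i hi h
  apply hw
  unfold dirs
  rw [Finset.mem_image]
  exact ⟨i, hi, h⟩

theorem mem_dirs_iff {w : F} : w ∈ dirs s a b ↔ 1 ≤ dirN s a b w := by
  constructor
  · exact dirN_pos_of_mem s a b
  · intro h
    by_contra hw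
    rw [dirN_eq_zero s a b hw] at h
    omega

theorem sum_dirN : ∑ w ∈ dirs s a b, dirN s a b w = s.card := by
  unfold dirs dirN
  rw [Finset.card_eq_sum_card_image (fun i => b i / a i) s]

noncomputable def SPoly : F[X] := ∏ v ∈ dirs s a b, (C v - X) ^ (dirN s a b v - 1)
noncomputable def TPoly : F[X] := ∏ v ∈ Finset.univ \ dirs s a b, (C v - X)
noncomputable def SPolyW (w : F) : F[X] :=
  ∏ v ∈ (dirs s a b).erase w, (C v - X) ^ (dirN s a b v - 1)

noncomputable def ZW (w : F) : F := ∏ j ∈ s.filter (fun j => b j / a j ≠ w), (b j / a j - w)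

theorem SPoly_eq {w : F} (hw : w ∈ dirs s a b) :
    SPoly s a b = (C w - X) ^ (dirN s a b w - 1) * SPolyW s a b w := by
  unfold SPoly SPolyW
  exact (Finset.mul_prod_erase (dirs s a b) (fun v => (C v - X) ^ (dirN s a b v - 1)) hw).symm

theorem SPoly_ne_zero : SPoly s a b ≠ 0 := by
  unfold SPoly
  rw [Finset.prod_ne_zero_iff]
  intro v _
  exact pow_ne_zero _ (C_sub_X_ne_zero v)

theorem SPoly_natDegree :
    (SPoly s a b).natDegree = s.card - (dirs s a b).card := by
  unfold SPoly
  rw [natDegree_prod _ _ (fun v _ => pow_ne_zero _ (C_sub_X_ne_zero v))]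
  simp only [natDegree_pow, natDegree_C_sub_X, mul_one]
  have h1 : ∑ v ∈ dirs s a b, (dirN s a b v - 1) + (dirs s a b).card = s.card := by
    rw [← sum_dirN s a b, Finset.card_eq_sum_ones, ← Finset.sum_add_distrib]
    refine Finset.sum_congr rfl fun v hv => ?_
    have := dirN_pos_of_mem s a b hv
    omega
  omega

theorem TPoly_natDegree :
    (TPoly s a b).natDegree = Fintype.card F - (dirs s a b).card := by
  unfold TPoly
  rw [natDegree_prod _ _ (fun v _ => C_sub_X_ne_zero v)]
  simp only [natDegree_C_sub_X, Finset.sum_const, smul_eq_mul, mul_one]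
  rw [Finset.card_sdiff_of_subset (Finset.subset_univ _), Finset.card_univ]

theorem TPoly_eval_eq_zero {w : F} (hw : w ∉ dirs s a b) : (TPoly s a b).eval w = 0 := by
  unfold TPoly
  rw [eval_prod, Finset.prod_eq_zero_iff]
  exact ⟨w, by simp [hw], by simp⟩

theorem TPoly_eval_mul {w : F} (hw : w ∈ dirs s a b) :
    (TPoly s a b).eval w * ∏ v ∈ (dirs s a b).erase w, (v - w) = -1 := by
  rw [← prod_sub_eq_neg_one w]
  unfold TPoly
  rw [eval_prod]
  have h1 : Finset.univ.erase w = (Finset.univ \ dirs s a b) ∪ (dirs s a b).erase w := by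
    ext v
    simp only [Finset.mem_erase, Finset.mem_univ, and_true, Finset.mem_union, Finset.mem_sdiff,
      true_and]
    constructor
    · intro h
      by_cases hv : v ∈ dirs s a b
      · exact Or.inr ⟨h, hv⟩
      · exact Or.inl hv
    · rintro (h | h)
      · rintro rfl; exact h hw
      · exact h.1
  have h2 : Disjoint (Finset.univ \ dirs s a b) ((dirs s a b).erase w) := by
    rw [Finset.disjoint_left]
    intro v hv hv'
    simp only [Finset.mem_sdiff, Finset.mem_univ, true_and] at hv
    exact hv (Finset.mem_of_mem_erase hv')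
  rw [h1, Finset.prod_union h2]
  congr 1
  refine Finset.prod_congr rfl fun v _ => ?_
  simp

theorem SPolyW_eval_mul (w : F) :
    (SPolyW s a b w).eval w * ∏ v ∈ (dirs s a b).erase w, (v - w) = ZW s a b w := by
  unfold SPolyW ZW
  rw [eval_prod, ← Finset.prod_mul_distrib]
  have h1 : ∀ v ∈ (dirs s a b).erase w, eval w ((C v - X : F[X]) ^ (dirN s a b v - 1)) * (v - w)
      = ∏ j ∈ (s.filter (fun j => b j / a j ≠ w)).filter (fun j => b j / a j = v),
        (b j / a j - w) := by
    intro v hv
    have hv1 := Finset.ne_of_mem_erase hv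
    have hv2 := dirN_pos_of_mem s a b (Finset.mem_of_mem_erase hv)
    have h3 : (s.filter (fun j => b j / a j ≠ w)).filter (fun j => b j / a j = v)
        = s.filter (fun j => b j / a j = v) := by
      ext j
      simp only [Finset.mem_filter]
      constructor
      · rintro ⟨⟨h, _⟩, h'⟩; exact ⟨h, h'⟩
      · rintro ⟨h, h'⟩; exact ⟨⟨h, by rw [h']; exact hv1⟩, h'⟩
    rw [h3]
    rw [Finset.prod_congr rfl (g := fun _ => v - w)]
    · rw [Finset.prod_const]
      have h4 : (s.filter (fun j => b j / a j = v)).card = (dirN s a b v - 1) + 1 := by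
        unfold dirN at hv2 ⊢; omega
      rw [h4, pow_succ]
      simp
    · intro j hj
      rw [(Finset.mem_filter.mp hj).2]
  rw [Finset.prod_congr rfl h1]
  refine Finset.prod_fiberwise_of_maps_to (g := fun j => b j / a j) ?_ (fun j => b j / a j - w)
  intro j hj
  rw [Finset.mem_filter] at hj
  rw [Finset.mem_erase]
  refine ⟨hj.2, ?_⟩
  unfold dirs
  rw [Finset.mem_image]
  exact ⟨j, hj.1, rfl⟩

theorem ZW_ne_zero (w : F) : ZW s a b w ≠ 0 := by
  unfold ZW
  rw [Finset.prod_ne_zero_iff]
  intro j hj
  exact sub_ne_zero.mpr (Finset.mem_filter.mp hj).2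

theorem TPoly_mul_ZW {w : F} (hw : w ∈ dirs s a b) :
    (TPoly s a b).eval w * ZW s a b w = -(SPolyW s a b w).eval w := by
  rw [← SPolyW_eval_mul]
  have := TPoly_eval_mul s a b hw
  linear_combination (SPolyW s a b w).eval w * this

theorem SPolyW_eval_ne_zero (w : F) : (SPolyW s a b w).eval w ≠ 0 := by
  intro h
  have := SPolyW_eval_mul s a b w
  rw [h, zero_mul] at this
  exact ZW_ne_zero s a b w this.symm

theorem denW_eq (ha : ∀ i ∈ s, a i ≠ 0) (w : F) :
    denW s a b w = (∏ j ∈ s, a j) * ZW s a b w := by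
  unfold denW ZW
  rw [Finset.prod_filter, ← Finset.prod_mul_distrib]
  refine Finset.prod_congr rfl fun j hj => ?_
  have haj := ha j hj
  by_cases h : b j / a j = w
  · rw [if_pos h, if_neg (by simpa using h), mul_one]
  · rw [if_neg h, if_pos h]
    field_simp

/-- The exact value of the local polynomial at a direction. -/
theorem SPoly_pow_dvd (M : Multiset (F × F))
    (hM : ∀ w, 2 ≤ dirN s a b w → 3 * (dirN s a b w - 1) ≤ dirM M w) :
    SPoly s a b ^ 3 ∣ gPoly M := by
  unfold SPoly
  rw [← Finset.prod_pow]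
  apply Finset.prod_dvd_of_coprime
  · intro u _ v _ huv
    apply IsCoprime.pow
    apply IsCoprime.pow
    exact isCoprime_C_sub_X huv
  · intro v hv
    rcases Nat.lt_or_ge (dirN s a b v) 2 with h | h
    · have : dirN s a b v - 1 = 0 := by omega
      rw [this]
      simp
    · rw [gPoly_eq M v, ← pow_mul]
      apply Dvd.dvd.mul_right
      apply pow_dvd_pow
      have := hM v h
      omega

/-- the local value of `G = H T^3` -/
theorem G_eval (M : Multiset (F × F)) (H : F[X]) (hH : gPoly M = SPoly s a b ^ 3 * H) {w : F}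
    (hw : w ∈ dirs s a b) (hle : 3 * (dirN s a b w - 1) ≤ dirM M w) :
    (H * TPoly s a b ^ 3).eval w =
      if dirM M w = 3 * (dirN s a b w - 1) then - numW M w / ZW s a b w ^ 3 else 0 := by
  have hS := SPolyW_eval_ne_zero s a b w
  have hZ := ZW_ne_zero s a b w
  have hT := TPoly_mul_ZW s a b hw
  have h1 : (C w - X : F[X]) ^ (dirM M w - 3 * (dirN s a b w - 1)) * gPolyW M w
      = SPolyW s a b w ^ 3 * H := by
    have h2 : (C w - X : F[X]) ^ (3 * (dirN s a b w - 1)) ≠ 0 := pow_ne_zero _ (C_sub_X_ne_zero w)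
    apply mul_left_cancel₀ h2
    rw [← mul_assoc, ← pow_add]
    have h3 : 3 * (dirN s a b w - 1) + (dirM M w - 3 * (dirN s a b w - 1)) = dirM M w := by omega
    rw [h3, ← gPoly_eq, hH, SPoly_eq s a b hw]
    ring
  have h4 := congrArg (eval w) h1
  rw [eval_mul, eval_mul, eval_pow, eval_pow, gPolyW_eval] at h4
  simp only [eval_sub, eval_C, eval_X, sub_self] at h4
  rw [eval_mul, eval_pow]
  split_ifs with h
  · rw [h, Nat.sub_self, pow_zero, one_mul] at h4
    rw [h4, eq_div_iff (pow_ne_zero 3 hZ)]
    have : (TPoly s a b).eval w ^ 3 * ZW s a b w ^ 3 = -(SPolyW s a b w).eval w ^ 3 := by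
      rw [← mul_pow, hT]; ring
    linear_combination (eval w H) * this
  · have h5 : dirM M w - 3 * (dirN s a b w - 1) ≠ 0 := by omega
    rw [zero_pow h5, zero_mul] at h4
    have h6 : eval w H = 0 := by
      rcases mul_eq_zero.mp h4.symm with h7 | h7
      · exact absurd h7 (pow_ne_zero 3 hS)
      · exact h7
    rw [h6, zero_mul]

theorem sum_dirs_G (hs : s.card = Fintype.card F) (M : Multiset (F × F))
    (hMc : M.card + 4 ≤ Fintype.card F)
    (H : F[X]) (hH : gPoly M = SPoly s a b ^ 3 * H) :
    ∑ w ∈ dirs s a b, (H * TPoly s a b ^ 3).eval w = 0 := by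
  have h1 : ∑ w ∈ dirs s a b, (H * TPoly s a b ^ 3).eval w
      = ∑ w : F, (H * TPoly s a b ^ 3).eval w := by
    refine Finset.sum_subset (Finset.subset_univ _) ?_
    intro w _ hw
    rw [eval_mul, eval_pow, TPoly_eval_eq_zero s a b hw]
    simp
  rw [h1]
  by_cases hH0 : H = 0
  · simp [hH0]
  apply sum_eval_eq_zero
  have h2 : (gPoly M).natDegree = 3 * (SPoly s a b).natDegree + H.natDegree := by
    rw [hH, natDegree_mul (pow_ne_zero 3 (SPoly_ne_zero s a b)) hH0, natDegree_pow]
  have h3 := gPoly_natDegree_le M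
  have h4 : (H * TPoly s a b ^ 3).natDegree ≤ H.natDegree + 3 * (TPoly s a b).natDegree := by
    refine (natDegree_mul_le).trans ?_
    rw [natDegree_pow]
  rw [SPoly_natDegree, hs] at h2
  rw [TPoly_natDegree] at h4
  omega

/-- the summand of the pencil sum -/
noncomputable def pTerm (M : Multiset (F × F)) (i : ι) : F :=
  (M.map fun A => a i * A.2 - b i * A.1).prod /
    (∏ j ∈ s.erase i, (a i * b j - b i * a j)) ^ 3

theorem pTerm_eq (hs : s.card = Fintype.card F) (ha : ∀ i ∈ s, a i ≠ 0)
    (M : Multiset (F × F)) (hMc : M.card + 4 = Fintype.card F) {i : ι} (hi : i ∈ s)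
    (hn : dirN s a b (b i / a i) = 1) (H : F[X]) (hH : gPoly M = SPoly s a b ^ 3 * H) :
    pTerm s a b M i = -(H * TPoly s a b ^ 3).eval (b i / a i) / (∏ j ∈ s, a j) ^ 3 := by
  set w := b i / a i with hw
  have hai := ha i hi
  have hP : (∏ j ∈ s, a j) ≠ 0 := Finset.prod_ne_zero_iff.mpr ha
  have hZ := ZW_ne_zero s a b w
  have hwd : w ∈ dirs s a b := by
    unfold dirs; rw [Finset.mem_image]; exact ⟨i, hi, rfl⟩
  have hbi : b i = w * a i := by rw [hw]; field_simp
  -- the denominators
  have hone : s.filter (fun j => b j / a j = w) = {i} := by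
    have h1 : (s.filter (fun j => b j / a j = w)).card = 1 := hn
    rw [Finset.card_eq_one] at h1
    obtain ⟨k, hk⟩ := h1
    have : i ∈ s.filter (fun j => b j / a j = w) := by simp [hi, hw]
    rw [hk] at this ⊢
    rw [Finset.mem_singleton.mp this]
  have herase : s.erase i = s.filter (fun j => b j / a j ≠ w) := by
    ext j
    simp only [Finset.mem_erase, Finset.mem_filter]
    constructor
    · rintro ⟨h1, h2⟩
      refine ⟨h2, fun h3 => h1 ?_⟩
      have : j ∈ s.filter (fun j => b j / a j = w) := by simp [h2, h3]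
      rw [hone] at this
      exact Finset.mem_singleton.mp this
    · rintro ⟨h1, h2⟩
      refine ⟨?_, h1⟩
      rintro rfl
      exact h2 rfl
  have hpow : a i ^ (Fintype.card F - 1) = 1 := FiniteField.pow_card_sub_one_eq_one _ hai
  have hden : (∏ j ∈ s.erase i, (a i * b j - b i * a j)) * a i
      = (∏ j ∈ s, a j) * ZW s a b w := by
    have h1 : ∏ j ∈ s.erase i, (a i * b j - b i * a j)
        = a i ^ (Fintype.card F - 1) * ((∏ j ∈ s.erase i, a j) * ZW s a b w) := by
      have h2 : ZW s a b w = ∏ j ∈ s.erase i, (b j / a j - w) := by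
        unfold ZW; rw [herase]
      rw [h2, ← Finset.prod_mul_distrib]
      have h3 : a i ^ (Fintype.card F - 1) = ∏ _j ∈ s.erase i, a i := by
        rw [Finset.prod_const, Finset.card_erase_of_mem hi, hs]
      rw [h3, ← Finset.prod_mul_distrib]
      refine Finset.prod_congr rfl fun j hj => ?_
      have haj := ha j (Finset.mem_of_mem_erase hj)
      rw [hbi]
      field_simp
    rw [h1, hpow, one_mul, ← Finset.mul_prod_erase s a hi]
    ring
  have hnum : (M.map fun A => a i * A.2 - b i * A.1).prod * a i ^ 3 = (gPoly M).eval w := by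
    rw [gPoly_eval]
    have h1 : (M.map fun A => a i * A.2 - b i * A.1) = M.map (fun A => a i * (A.2 - w * A.1)) := by
      apply Multiset.map_congr rfl
      intro A _
      rw [hbi]; ring
    rw [h1, Multiset.prod_map_mul, Multiset.map_const', Multiset.prod_replicate]
    have h2 : a i ^ M.card * a i ^ 3 = 1 := by
      rw [← pow_add, ← hpow]
      congr 1
      omega
    linear_combination (M.map fun A => A.2 - w * A.1).prod * h2
  have hG : (H * TPoly s a b ^ 3).eval w = - (gPoly M).eval w / ZW s a b w ^ 3 := by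
    have h1 := G_eval s a b M H hH hwd (by rw [hn]; simp)
    have hS := SPolyW_eval_ne_zero s a b w
    have hT := TPoly_mul_ZW s a b hwd
    rw [eval_mul, eval_pow, hH, eval_mul, eval_pow, SPoly_eq s a b hwd, hn, Nat.sub_self, pow_zero,
      one_mul, eq_div_iff (pow_ne_zero 3 hZ)]
    have : (TPoly s a b).eval w ^ 3 * ZW s a b w ^ 3 = -(SPolyW s a b w).eval w ^ 3 := by
      rw [← mul_pow, hT]; ring
    linear_combination (eval w H) * this
  unfold pTerm
  have hden0 : (∏ j ∈ s.erase i, (a i * b j - b i * a j)) ≠ 0 := by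
    intro h0
    rw [h0, zero_mul] at hden
    exact mul_ne_zero hP hZ hden.symm
  rw [hG, ← hnum, div_eq_div_iff (pow_ne_zero 3 hden0) (pow_ne_zero 3 hP)]
  have hden3 : (∏ j ∈ s.erase i, (a i * b j - b i * a j)) ^ 3 * a i ^ 3
      = (∏ j ∈ s, a j) ^ 3 * ZW s a b w ^ 3 := by
    rw [← mul_pow, hden, mul_pow]
  field_simp
  linear_combination (-(M.map fun A => a i * A.2 - b i * A.1).prod) * hden3

/-- the simple directions -/
theorem sum_simple (f : F → F) :
    ∑ i ∈ s.filter (fun i => dirN s a b (b i / a i) = 1), f (b i / a i)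
      = ∑ w ∈ (dirs s a b).filter (fun w => dirN s a b w = 1), f w := by
  rw [← Finset.sum_fiberwise_of_maps_to (s := s.filter (fun i => dirN s a b (b i / a i) = 1))
    (t := (dirs s a b).filter (fun w => dirN s a b w = 1)) (g := fun i => b i / a i)]
  · refine Finset.sum_congr rfl fun w hw => ?_
    rw [Finset.mem_filter] at hw
    have h1 : (s.filter (fun i => dirN s a b (b i / a i) = 1)).filter (fun i => b i / a i = w)
        = s.filter (fun i => b i / a i = w) := by
      ext i
      simp only [Finset.mem_filter]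
      constructor
      · rintro ⟨⟨h1, _⟩, h2⟩; exact ⟨h1, h2⟩
      · rintro ⟨h1, h2⟩; exact ⟨⟨h1, by rw [h2]; exact hw.2⟩, h2⟩
    rw [h1]
    have h2 : ∀ i ∈ s.filter (fun i => b i / a i = w), f (b i / a i) = f w := by
      intro i hi
      rw [(Finset.mem_filter.mp hi).2]
    rw [Finset.sum_congr rfl h2, Finset.sum_const]
    have h3 : (s.filter (fun i => b i / a i = w)).card = 1 := hw.2
    rw [h3, one_smul]
  · intro i hi
    rw [Finset.mem_filter] at hi
    rw [Finset.mem_filter]
    refine ⟨?_, hi.2⟩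
    unfold dirs
    rw [Finset.mem_image]
    exact ⟨i, hi.1, rfl⟩

/-- **The pencil identity.** -/
theorem pencil_sum (hs : s.card = Fintype.card F) (ha : ∀ i ∈ s, a i ≠ 0)
    (M : Multiset (F × F)) (hMc : M.card + 4 = Fintype.card F)
    (hM : ∀ w, 2 ≤ dirN s a b w → 3 * (dirN s a b w - 1) ≤ dirM M w) :
    ∑ i ∈ s.filter (fun i => dirN s a b (b i / a i) = 1), pTerm s a b M i
      = - ∑ w ∈ (dirs s a b).filter
          (fun w => 2 ≤ dirN s a b w ∧ dirM M w = 3 * (dirN s a b w - 1)),
          numW M w / denW s a b w ^ 3 := by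
  obtain ⟨H, hH⟩ := SPoly_pow_dvd s a b M hM
  have hP : (∏ j ∈ s, a j) ≠ 0 := Finset.prod_ne_zero_iff.mpr ha
  have h1 : ∀ i ∈ s.filter (fun i => dirN s a b (b i / a i) = 1), pTerm s a b M i
      = -(H * TPoly s a b ^ 3).eval (b i / a i) / (∏ j ∈ s, a j) ^ 3 := by
    intro i hi
    rw [Finset.mem_filter] at hi
    exact pTerm_eq s a b hs ha M hMc hi.1 hi.2 H hH
  rw [Finset.sum_congr rfl h1,
    sum_simple s a b (fun w => -(H * TPoly s a b ^ 3).eval w / (∏ j ∈ s, a j) ^ 3)]
  have h2 := sum_dirs_G s a b hs M (by omega) H hH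
  have h3 : ∑ w ∈ dirs s a b, (H * TPoly s a b ^ 3).eval w
      = ∑ w ∈ (dirs s a b).filter (fun w => dirN s a b w = 1), (H * TPoly s a b ^ 3).eval w
        + ∑ w ∈ (dirs s a b).filter (fun w => ¬ dirN s a b w = 1),
            (H * TPoly s a b ^ 3).eval w :=
    (Finset.sum_filter_add_sum_filter_not _ _ _).symm
  have h4 : ∑ w ∈ (dirs s a b).filter (fun w => ¬ dirN s a b w = 1),
            (H * TPoly s a b ^ 3).eval w
      = ∑ w ∈ (dirs s a b).filter
          (fun w => 2 ≤ dirN s a b w ∧ dirM M w = 3 * (dirN s a b w - 1)),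
          - numW M w / ZW s a b w ^ 3 := by
    have h5 : (dirs s a b).filter (fun w => 2 ≤ dirN s a b w ∧ dirM M w = 3 * (dirN s a b w - 1))
        = ((dirs s a b).filter (fun w => ¬ dirN s a b w = 1)).filter
            (fun w => dirM M w = 3 * (dirN s a b w - 1)) := by
      ext w
      simp only [Finset.mem_filter]
      constructor
      · rintro ⟨h, h', h''⟩
        exact ⟨⟨h, by omega⟩, h''⟩
      · rintro ⟨⟨h, h'⟩, h''⟩
        have := dirN_pos_of_mem s a b h
        exact ⟨h, by omega, h''⟩
    rw [h5, Finset.sum_filter (s := (dirs s a b).filter (fun w => ¬ dirN s a b w = 1))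
      (p := fun w => dirM M w = 3 * (dirN s a b w - 1))]
    refine Finset.sum_congr rfl fun w hw => ?_
    rw [Finset.mem_filter] at hw
    have h6 := dirN_pos_of_mem s a b hw.1
    exact G_eval s a b M H hH hw.1 (hM w (by omega))
  have h7 : ∑ w ∈ (dirs s a b).filter (fun w => dirN s a b w = 1), (H * TPoly s a b ^ 3).eval w
      = ∑ w ∈ (dirs s a b).filter
          (fun w => 2 ≤ dirN s a b w ∧ dirM M w = 3 * (dirN s a b w - 1)),
          numW M w / ZW s a b w ^ 3 := by
    have h8 : ∑ w ∈ (dirs s a b).filter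
          (fun w => 2 ≤ dirN s a b w ∧ dirM M w = 3 * (dirN s a b w - 1)),
          - numW M w / ZW s a b w ^ 3 = - ∑ w ∈ (dirs s a b).filter
          (fun w => 2 ≤ dirN s a b w ∧ dirM M w = 3 * (dirN s a b w - 1)),
          numW M w / ZW s a b w ^ 3 := by
      rw [← Finset.sum_neg_distrib]
      refine Finset.sum_congr rfl fun w _ => ?_
      ring
    rw [h4, h8] at h3
    rw [h2] at h3
    linear_combination -h3
  have h9 : ∑ w ∈ (dirs s a b).filter (fun w => dirN s a b w = 1),
      -(H * TPoly s a b ^ 3).eval w / (∏ j ∈ s, a j) ^ 3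
      = - (∑ w ∈ (dirs s a b).filter (fun w => dirN s a b w = 1),
        (H * TPoly s a b ^ 3).eval w) / (∏ j ∈ s, a j) ^ 3 := by
    rw [← Finset.sum_neg_distrib, Finset.sum_div]
  rw [h9, h7, neg_div, Finset.sum_div]
  congr 1
  refine Finset.sum_congr rfl fun w _ => ?_
  rw [denW_eq s a b ha, mul_pow]
  have hZ := ZW_ne_zero s a b w
  field_simp

end core

end NonHit
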