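import Pool.Agent.Lib.MP_8b6d0b_co.Geom
import Pool.Agent.Lib.MP_8b6d0b_co.PerPoint

/-!
# The antisymmetric sum over the 2-secants and its local terms
-/

namespace NonHit

open Projectivization Matrix
open scoped LinearAlgebra.Projectivization Classical

set_option linter.unusedSectionVars false

variable {F : Type*} [Field F] [Fintype F] (K : Finset (PG F)) (M : Multiset (PG F))

/-- number of test points on a line -/
noncomputable def cnt (M : Multiset (PG F)) (l : PG F) : ℕ :=
  (M.filter fun A => A.orthogonal l).card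

noncomputable def rho (P Q : PG F) : F :=
  (M.map fun A => det3 P.rep Q.rep A.rep).prod /
    (∏ X ∈ (K.erase P).erase Q, det3 P.rep Q.rep X.rep) ^ 3

noncomputable def kappa (P : PG F) : F :=
  ∑ Q ∈ (K.erase P).filter (fun Q => secN K (ln P Q) = 2), rho K M P Q

theorem two_ne_zero_of_odd (hodd : Odd (Fintype.card F)) : (2 : F) ≠ 0 := by
  have h1 : ringChar F ≠ 2 := by
    intro h
    rw [FiniteField.even_card_iff_char_two] at h
    rcases hodd with ⟨k, hk⟩
    omega
  exact Ring.two_ne_zero h1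

theorem rho_antisymm (hodd : Odd (Fintype.card F)) (hK : K.card = Fintype.card F + 1)
    (hM : M.card + 4 = Fintype.card F) {P Q : PG F} (hP : P ∈ K) (hQ : Q ∈ K) (hPQ : P ≠ Q) :
    rho K M Q P = - rho K M P Q := by
  unfold rho
  have h1 : (M.map fun A => det3 Q.rep P.rep A.rep).prod
      = - (M.map fun A => det3 P.rep Q.rep A.rep).prod := by
    have h2 : (M.map fun A => det3 Q.rep P.rep A.rep)
        = M.map (fun A => (-1) * det3 P.rep Q.rep A.rep) := by
      apply Multiset.map_congr rfl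
      intro A _
      rw [det3_swap]; ring
    rw [h2, Multiset.prod_map_mul, Multiset.map_const', Multiset.prod_replicate]
    have h3 : Odd M.card := by
      rcases hodd with ⟨k, hk⟩
      exact ⟨k - 2, by omega⟩
    rw [h3.neg_one_pow]
    ring
  have h4 : ∏ X ∈ (K.erase Q).erase P, det3 Q.rep P.rep X.rep
      = ∏ X ∈ (K.erase P).erase Q, det3 P.rep Q.rep X.rep := by
    rw [Finset.erase_right_comm]
    have h5 : ∀ X ∈ (K.erase P).erase Q, det3 Q.rep P.rep X.rep
        = (-1) * det3 P.rep Q.rep X.rep := by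
      intro X _
      rw [det3_swap]; ring
    rw [Finset.prod_congr rfl h5, Finset.prod_mul_distrib, Finset.prod_const]
    have h6 : ((K.erase P).erase Q).card = Fintype.card F - 1 := by
      rw [Finset.card_erase_of_mem (by simp [hPQ.symm, hQ]), Finset.card_erase_of_mem hP, hK]
      omega
    have h7 : Even (Fintype.card F - 1) := by
      rcases hodd with ⟨k, hk⟩
      exact ⟨k, by omega⟩
    rw [h6, h7.neg_one_pow, one_mul]
  rw [h1, h4, neg_div]

theorem sum_kappa (hodd : Odd (Fintype.card F)) (hK : K.card = Fintype.card F + 1)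
    (hM : M.card + 4 = Fintype.card F) : ∑ P ∈ K, kappa K M P = 0 := by
  set f : PG F → PG F → F := fun P Q =>
    if P ≠ Q ∧ secN K (ln P Q) = 2 then rho K M P Q else 0 with hf
  have h1 : ∀ P ∈ K, kappa K M P = ∑ Q ∈ K, f P Q := by
    intro P hP
    unfold kappa
    rw [hf]
    rw [← Finset.sum_filter]
    refine Finset.sum_congr ?_ fun _ _ => rfl
    ext Q
    simp only [Finset.mem_filter, Finset.mem_erase, ne_eq]
    constructor
    · rintro ⟨⟨h1, h2⟩, h3⟩; exact ⟨h2, fun h => h1 h.symm, h3⟩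
    · rintro ⟨h1, h2, h3⟩; exact ⟨⟨fun h => h2 h.symm, h1⟩, h3⟩
  have h2 : ∀ P ∈ K, ∀ Q ∈ K, f Q P = - f P Q := by
    intro P hP Q hQ
    simp only [hf]
    by_cases h : P ≠ Q ∧ secN K (ln P Q) = 2
    · have h' : Q ≠ P ∧ secN K (ln Q P) = 2 := ⟨h.1.symm, by rw [ln_comm]; exact h.2⟩
      rw [if_pos h, if_pos h', rho_antisymm K M hodd hK hM hP hQ h.1]
    · have h' : ¬ (Q ≠ P ∧ secN K (ln Q P) = 2) := by
        rintro ⟨h3, h4⟩
        exact h ⟨h3.symm, by rw [ln_comm]; exact h4⟩
      rw [if_neg h, if_neg h', neg_zero]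
  have h3 : ∑ P ∈ K, kappa K M P = ∑ P ∈ K, ∑ Q ∈ K, f P Q := Finset.sum_congr rfl h1
  have h4 : ∑ P ∈ K, ∑ Q ∈ K, f P Q = - ∑ P ∈ K, ∑ Q ∈ K, f P Q := by
    conv_lhs => rw [Finset.sum_comm]
    rw [← Finset.sum_neg_distrib]
    refine Finset.sum_congr rfl fun P hP => ?_
    rw [← Finset.sum_neg_distrib]
    refine Finset.sum_congr rfl fun Q hQ => ?_
    exact h2 P hP Q hQ
  rw [h3]
  have h5 : (2 : F) * ∑ P ∈ K, ∑ Q ∈ K, f P Q = 0 := by linear_combination h4
  exact (mul_eq_zero.mp h5).resolve_left (two_ne_zero_of_odd hodd)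

theorem kappa_of_mem {P : PG F} (hP : P ∈ M) : kappa K M P = 0 := by
  unfold kappa
  refine Finset.sum_eq_zero fun Q _ => ?_
  unfold rho
  have : (M.map fun A => det3 P.rep Q.rep A.rep).prod = 0 := by
    rw [Multiset.prod_eq_zero_iff, Multiset.mem_map]
    exact ⟨P, hP, det3_self13 _ _⟩
  rw [this, zero_div]

section local_terms

variable {P : PG F} (A B : Fin 3 → F)

/-- the affine data at `P` -/
noncomputable def ca (P : PG F) (B : Fin 3 → F) (x : PG F) : F := det3 P.rep x.rep B
noncomputable def cb (P : PG F) (A : Fin 3 → F) (x : PG F) : F := det3 P.rep A x.rep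
noncomputable def MM (P : PG F) (A B : Fin 3 → F) (M : Multiset (PG F)) : Multiset (F × F) :=
  M.map fun x => (ca P B x, cb P A x)

variable {A B}

theorem det_eq (hAB : det3 P.rep A B = 1) (x y : PG F) :
    det3 P.rep x.rep y.rep = ca P B x * cb P A y - cb P A x * ca P B y := by
  have := det3_plucker P.rep x.rep y.rep A B
  rw [hAB, mul_one] at this
  exact this

theorem same_dir_iff (hAB : det3 P.rep A B = 1) {x : PG F} (hx : ca P B x ≠ 0)
    (y : PG F) : det3 P.rep x.rep y.rep = 0 ↔ cb P A y = cb P A x / ca P B x * ca P B y := by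
  rw [det_eq hAB]
  constructor
  · intro h
    field_simp
    linear_combination h
  · intro h
    rw [h]
    field_simp
    ring

theorem same_dir_iff' (hAB : det3 P.rep A B = 1) {x : PG F} (hx : ca P B x ≠ 0)
    {y : PG F} (hy : ca P B y ≠ 0) :
    det3 P.rep x.rep y.rep = 0 ↔ cb P A y / ca P B y = cb P A x / ca P B x := by
  rw [same_dir_iff hAB hx, div_eq_iff hy]

theorem dirN_eq (hAB : det3 P.rep A B = 1) (hP : P ∈ K)
    (hB : ∀ x ∈ K.erase P, det3 P.rep x.rep B ≠ 0) {x : PG F} (hx : x ∈ K.erase P) :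
    dirN (K.erase P) (ca P B) (cb P A) (cb P A x / ca P B x) + 1 = secN K (ln P x) := by
  have hxP : P ≠ x := (Finset.ne_of_mem_erase hx).symm
  unfold dirN secN
  have h1 : (K.erase P).filter (fun y => cb P A y / ca P B y = cb P A x / ca P B x)
      = (K.filter (fun y => y.orthogonal (ln P x))).erase P := by
    ext y
    simp only [Finset.mem_filter, Finset.mem_erase]
    constructor
    · rintro ⟨⟨h1, h2⟩, h3⟩
      refine ⟨h1, h2, ?_⟩
      rw [on_ln_iff hxP]
      exact (same_dir_iff' hAB (hB x hx) (hB y (by simp [h1, h2]))).mpr h3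
    · rintro ⟨h1, h2, h3⟩
      refine ⟨⟨h1, h2⟩, ?_⟩
      rw [on_ln_iff hxP] at h3
      exact (same_dir_iff' hAB (hB x hx) (hB y (by simp [h1, h2]))).mp h3
  rw [h1, Finset.card_erase_add_one]
  rw [Finset.mem_filter]
  exact ⟨hP, left_on_ln hxP⟩

theorem dirM_eq (hAB : det3 P.rep A B = 1)
    (hB : ∀ x ∈ K.erase P, det3 P.rep x.rep B ≠ 0) {x : PG F} (hx : x ∈ K.erase P) :
    dirM (MM P A B M) (cb P A x / ca P B x) = cnt M (ln P x) := by
  have hxP : P ≠ x := (Finset.ne_of_mem_erase hx).symm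
  unfold dirM cnt MM
  rw [Multiset.filter_map, Multiset.card_map]
  congr 1
  apply Multiset.filter_congr
  intro y _
  simp only [Function.comp]
  rw [on_ln_iff hxP, same_dir_iff hAB (hB x hx)]

theorem rho_eq (hAB : det3 P.rep A B = 1) (x : PG F) :
    rho K M P x = pTerm (K.erase P) (ca P B) (cb P A) (MM P A B M) x := by
  unfold rho pTerm MM
  rw [Multiset.map_map]
  congr 2
  · apply Multiset.map_congr rfl
    intro y _
    simp only [Function.comp]
    rw [det_eq hAB]
  · refine Finset.prod_congr rfl fun y _ => ?_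
    rw [det_eq hAB]

theorem kappa_formula (hK : K.card = Fintype.card F + 1) (hM : M.card + 4 = Fintype.card F)
    (hP : P ∈ K) (hAB : det3 P.rep A B = 1)
    (hB : ∀ x ∈ K.erase P, det3 P.rep x.rep B ≠ 0)
    (hcond : ∀ l, P.orthogonal l → 3 ≤ secN K l → 3 * (secN K l - 2) ≤ cnt M l) :
    kappa K M P = - ∑ w ∈ (dirs (K.erase P) (ca P B) (cb P A)).filter
      (fun w => 2 ≤ dirN (K.erase P) (ca P B) (cb P A) w ∧
        dirM (MM P A B M) w = 3 * (dirN (K.erase P) (ca P B) (cb P A) w - 1)),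
        numW (MM P A B M) w / denW (K.erase P) (ca P B) (cb P A) w ^ 3 := by
  rw [← pencil_sum (K.erase P) (ca P B) (cb P A) (by rw [Finset.card_erase_of_mem hP, hK]; simp)
    hB (MM P A B M) (by unfold MM; rw [Multiset.card_map]; exact hM)]
  · unfold kappa
    refine Finset.sum_congr ?_ fun x _ => rho_eq K M hAB x
    ext x
    simp only [Finset.mem_filter]
    constructor
    · rintro ⟨h1, h2⟩
      refine ⟨h1, ?_⟩
      have := dirN_eq K hAB hP hB h1
      omega
    · rintro ⟨h1, h2⟩
      refine ⟨h1, ?_⟩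
      have := dirN_eq K hAB hP hB h1
      omega
  · intro w hw
    have h1 : w ∈ dirs (K.erase P) (ca P B) (cb P A) := by
      rw [mem_dirs_iff]; omega
    unfold dirs at h1
    rw [Finset.mem_image] at h1
    obtain ⟨x, hx, rfl⟩ := h1
    rw [dirM_eq K M hAB hB hx]
    have h2 := dirN_eq K hAB hP hB hx
    have hxP : P ≠ x := (Finset.ne_of_mem_erase hx).symm
    have h3 := hcond (ln P x) (left_on_ln hxP) (by omega)
    omega

theorem kappa_eq_zero (hK : K.card = Fintype.card F + 1) (hM : M.card + 4 = Fintype.card F)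
    (hP : P ∈ K)
    (hcond : ∀ l, P.orthogonal l → 3 ≤ secN K l → 3 * (secN K l - 2) < cnt M l) :
    kappa K M P = 0 := by
  obtain ⟨A, B, hAB, hB⟩ := exists_tangent_frame K P (by
    rw [Finset.card_erase_of_mem hP, hK]; simp)
  rw [kappa_formula K M hK hM hP hAB hB (fun l h1 h2 => (hcond l h1 h2).le)]
  rw [Finset.filter_false_of_mem, Finset.sum_empty, neg_zero]
  intro w hw
  unfold dirs at hw
  rw [Finset.mem_image] at hw
  obtain ⟨x, hx, rfl⟩ := hw
  rintro ⟨h1, h2⟩
  rw [dirM_eq K M hAB hB hx] at h2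
  have h3 := dirN_eq K hAB hP hB hx
  have hxP : P ≠ x := (Finset.ne_of_mem_erase hx).symm
  have h4 := hcond (ln P x) (left_on_ln hxP) (by omega)
  omega

/-- The value of `kappa` at a point where exactly one line `l0` is critical. -/
theorem kappa_single (hK : K.card = Fintype.card F + 1) (hM : M.card + 4 = Fintype.card F)
    (hP : P ∈ K) (hAB : det3 P.rep A B = 1)
    (hB : ∀ x ∈ K.erase P, det3 P.rep x.rep B ≠ 0) {Y : PG F} (hY : Y ∈ K.erase P)
    (h3 : 3 ≤ secN K (ln P Y)) (hcrit : cnt M (ln P Y) = 3 * (secN K (ln P Y) - 2))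
    (hcond : ∀ l, l ≠ ln P Y → P.orthogonal l → 3 ≤ secN K l → 3 * (secN K l - 2) < cnt M l) :
    kappa K M P = - (numW (MM P A B M) (cb P A Y / ca P B Y) /
      denW (K.erase P) (ca P B) (cb P A) (cb P A Y / ca P B Y) ^ 3) := by
  have hYP : P ≠ Y := (Finset.ne_of_mem_erase hY).symm
  rw [kappa_formula K M hK hM hP hAB hB]
  · congr 1
    have h4 : (dirs (K.erase P) (ca P B) (cb P A)).filter
      (fun w => 2 ≤ dirN (K.erase P) (ca P B) (cb P A) w ∧
        dirM (MM P A B M) w = 3 * (dirN (K.erase P) (ca P B) (cb P A) w - 1))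
        = {cb P A Y / ca P B Y} := by
      ext w
      simp only [Finset.mem_filter, Finset.mem_singleton]
      constructor
      · rintro ⟨h1, h2, h3'⟩
        unfold dirs at h1
        rw [Finset.mem_image] at h1
        obtain ⟨x, hx, rfl⟩ := h1
        have hxP : P ≠ x := (Finset.ne_of_mem_erase hx).symm
        rw [dirM_eq K M hAB hB hx] at h3'
        have h4 := dirN_eq K hAB hP hB hx
        by_cases h5 : ln P x = ln P Y
        · have h6 : x.orthogonal (ln P Y) := by rw [← h5]; exact right_on_ln hxP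
          rw [on_ln_iff hYP, same_dir_iff' hAB (hB Y hY) (hB x hx)] at h6
          exact h6
        · have h6 := hcond (ln P x) h5 (left_on_ln hxP) (by omega)
          omega
      · rintro rfl
        have h5 := dirN_eq K hAB hP hB hY
        refine ⟨?_, by omega, ?_⟩
        · unfold dirs; rw [Finset.mem_image]; exact ⟨Y, hY, rfl⟩
        · rw [dirM_eq K M hAB hB hY, hcrit]; omega
    rw [h4, Finset.sum_singleton]
  · intro l hl h6
    by_cases h5 : l = ln P Y
    · rw [h5, hcrit]
    · exact (hcond l h5 hl h6).le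

theorem numW_ne_zero (hAB : det3 P.rep A B = 1) (hPM : P ∉ M) {Y : PG F} :
    numW (MM P A B M) (cb P A Y / ca P B Y) ≠ 0 := by
  unfold numW MM
  rw [Multiset.map_map]
  intro h
  rw [Multiset.prod_eq_zero_iff, Multiset.mem_map] at h
  obtain ⟨X, hX, h⟩ := h
  simp only [Function.comp] at h
  split_ifs at h with h1
  · rw [h, mul_zero] at h1
    have hXP : P ≠ X := fun h => hPM (h ▸ hX)
    refine not_both_zero hXP hAB ?_ h
    rw [det3_swap']
    change -(cb P A X) = 0
    rw [h1, neg_zero]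
  · exact h1 (sub_eq_zero.mp h)

theorem denW_ne_zero (hB : ∀ x ∈ K.erase P, det3 P.rep x.rep B ≠ 0) (w : F) :
    denW (K.erase P) (ca P B) (cb P A) w ≠ 0 := by
  rw [denW_eq (K.erase P) (ca P B) (cb P A) hB]
  exact mul_ne_zero (Finset.prod_ne_zero_iff.mpr hB) (ZW_ne_zero _ _ _ _)

theorem kappa_ne_zero (hK : K.card = Fintype.card F + 1) (hM : M.card + 4 = Fintype.card F)
    (hP : P ∈ K) (hPM : P ∉ M) {Y : PG F} (hY : Y ∈ K.erase P)
    (h3 : 3 ≤ secN K (ln P Y)) (hcrit : cnt M (ln P Y) = 3 * (secN K (ln P Y) - 2))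
    (hcond : ∀ l, l ≠ ln P Y → P.orthogonal l → 3 ≤ secN K l → 3 * (secN K l - 2) < cnt M l) :
    kappa K M P ≠ 0 := by
  obtain ⟨A, B, hAB, hB⟩ := exists_tangent_frame K P (by
    rw [Finset.card_erase_of_mem hP, hK]; simp)
  rw [kappa_single K M hK hM hP hAB hB hY h3 hcrit hcond, neg_ne_zero]
  exact div_ne_zero (numW_ne_zero M hAB hPM) (pow_ne_zero 3 (denW_ne_zero K hB _))

end local_terms

/-- **Key lemma.**  There is no test multiset `M` of `q - 4` points such that on one multisecant `l0`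
all points of `K` but one (`P0`) are test points, `l0` has exactly `3 (i0 - 2)` test points, and each
other multisecant `l` has more than `3 (i - 2)` test points. -/
theorem key_lemma (hodd : Odd (Fintype.card F)) (hK : K.card = Fintype.card F + 1)
    (hM : M.card + 4 = Fintype.card F) (l0 : PG F) (h3 : 3 ≤ secN K l0) (P0 : PG F) (hP0 : P0 ∈ K)
    (hP0l : P0.orthogonal l0) (hP0M : P0 ∉ M)
    (hother : ∀ Q ∈ K, Q.orthogonal l0 → Q ≠ P0 → Q ∈ M)
    (hcrit : cnt M l0 = 3 * (secN K l0 - 2))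
    (hcond : ∀ l, l ≠ l0 → 3 ≤ secN K l → 3 * (secN K l - 2) < cnt M l) : False := by
  have h1 := sum_kappa K M hodd hK hM
  rw [← Finset.add_sum_erase K _ hP0] at h1
  have h2 : ∑ P ∈ K.erase P0, kappa K M P = 0 := by
    refine Finset.sum_eq_zero fun P hP => ?_
    rw [Finset.mem_erase] at hP
    by_cases hl : P.orthogonal l0
    · exact kappa_of_mem K M (hother P hP.2 hl hP.1)
    · apply kappa_eq_zero K M hK hM hP.2
      intro l hPl hl3
      apply hcond l _ hl3
      rintro rfl
      exact hl hPl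
  rw [h2, add_zero] at h1
  -- another point of `K` on `l0`
  have h4 : 1 < (K.filter (fun p : PG F => p.orthogonal l0)).card := by
    unfold secN at h3
    omega
  obtain ⟨Y, hY, hYP⟩ := Finset.exists_mem_ne h4 P0
  rw [Finset.mem_filter] at hY
  have hln : ln P0 Y = l0 := ln_eq hYP.symm hP0l hY.2
  refine kappa_ne_zero K M hK hM hP0 hP0M (Y := Y) (by simp [hYP, hY.1]) ?_ ?_ ?_ h1
  · rw [hln]; exact h3
  · rw [hln]; exact hcrit
  · rw [hln]
    intro l hl _ h
    exact hcond l hl h

end NonHit
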