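import Pool.Agent.Lib.MP_8b6d0b_co.Global

/-!
# The harmonic relation on a 3-secant through a common outer point
-/

namespace NonHit

open Projectivization Matrix
open scoped LinearAlgebra.Projectivization Classical

set_option linter.unusedSectionVars false

variable {F : Type*} [Field F] [Fintype F] (K : Finset (PG F))

theorem det3_lin3 (p b u v : Fin 3 → F) (s t : F) :
    det3 p (s • u + t • v) b = s * det3 p u b + t * det3 p v b := by
  simp only [det3, Pi.add_apply, Pi.smul_apply, smul_eq_mul]; ring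

/-- the value of `kappa` at a point of the critical 3-secant -/
theorem kappa_three (hK : K.card = Fintype.card F + 1) {l0 P Q Z E : PG F}
    (hP : P ∈ K) (hQ : Q ∈ K) (hZ : Z ∈ K) (hPl : P.orthogonal l0) (hQl : Q.orthogonal l0)
    (hZl : Z.orthogonal l0) (hEl : E.orthogonal l0) (hPQ : P ≠ Q) (hQZ : Q ≠ Z) (hPZ : P ≠ Z)
    (hsec : secN K l0 = 3) (M0 : Multiset (PG F)) (hM0 : M0.card + 7 = Fintype.card F)
    (hoff : ∀ A ∈ M0, ¬ A.orthogonal l0)
    (hcov : ∀ l, l ≠ l0 → 3 ≤ secN K l → 3 * (secN K l - 2) < cnt (E ::ₘ E ::ₘ Q ::ₘ M0) l)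
    (α β γ δ : F) (hQr : Q.rep = α • P.rep + β • Z.rep) (hEr : E.rep = γ • P.rep + δ • Z.rep) :
    β ≠ 0 ∧ kappa K (E ::ₘ E ::ₘ Q ::ₘ M0) P
      = - (δ ^ 2 / β ^ 2 * ((M0.map fun X => det3 P.rep Z.rep X.rep).prod /
          (∏ X ∈ ((K.erase P).erase Q).erase Z, det3 P.rep Z.rep X.rep) ^ 3)) := by
  obtain ⟨A, B, hAB, hB⟩ := exists_tangent_frame K P (by
    rw [Finset.card_erase_of_mem hP, hK]; simp)
  have hZe : Z ∈ K.erase P := by simp [hPZ.symm, hZ]
  have hQe : Q ∈ K.erase P := by simp [hPQ.symm, hQ]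
  have hln : ln P Z = l0 := ln_eq hPZ hPl hZl
  set a := ca P B Z with ha_def
  have ha : a ≠ 0 := hB Z hZe
  have hcaQ : ca P B Q = β * a := by
    unfold ca; rw [hQr, det3_lin3, det3_self12, mul_zero, zero_add]; rfl
  have hcaE : ca P B E = δ * a := by
    unfold ca; rw [hEr, det3_lin3, det3_self12, mul_zero, zero_add]; rfl
  have hβ : β ≠ 0 := by
    intro h
    have := hB Q hQe
    change ca P B Q ≠ 0 at this
    rw [hcaQ, h, zero_mul] at this
    exact this rfl
  refine ⟨hβ, ?_⟩
  have hcnt0 : cnt (E ::ₘ E ::ₘ Q ::ₘ M0) l0 = 3 := by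
    unfold cnt
    rw [Multiset.filter_cons_of_pos (p := fun A : PG F => A.orthogonal l0) _ hEl,
      Multiset.filter_cons_of_pos (p := fun A : PG F => A.orthogonal l0) _ hEl,
      Multiset.filter_cons_of_pos (p := fun A : PG F => A.orthogonal l0) _ hQl,
      Multiset.filter_eq_nil.mpr hoff]
    rfl
  have hMc : (E ::ₘ E ::ₘ Q ::ₘ M0).card + 4 = Fintype.card F := by
    simp only [Multiset.card_cons]; omega
  rw [kappa_single K (E ::ₘ E ::ₘ Q ::ₘ M0) hK hMc hP hAB hB hZe (by rw [hln, hsec])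
    (by rw [hln, hcnt0, hsec]) (by rw [hln]; intro l hl _ h; exact hcov l hl h)]
  congr 1
  -- local factors
  have hon : ∀ X : PG F, X.orthogonal l0 → cb P A X = cb P A Z / a * ca P B X := by
    intro X hX
    have h1 : det3 P.rep Z.rep X.rep = 0 := (on_line_iff hPZ hPl hZl X).mp hX
    exact (same_dir_iff hAB ha X).mp h1
  have hoffv : ∀ X : PG F, ¬ X.orthogonal l0 →
      ¬ (cb P A X = cb P A Z / a * ca P B X) ∧
      cb P A X - cb P A Z / a * ca P B X = a⁻¹ * det3 P.rep Z.rep X.rep := by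
    intro X hX
    refine ⟨fun h => hX ((on_line_iff hPZ hPl hZl X).mpr ((same_dir_iff hAB ha X).mpr h)), ?_⟩
    rw [det_eq hAB Z X, ← ha_def]
    field_simp
  -- numerator
  have hnum : numW (MM P A B (E ::ₘ E ::ₘ Q ::ₘ M0)) (cb P A Z / a)
      = (δ * a) * ((δ * a) * ((β * a) * (a⁻¹ ^ M0.card *
          (M0.map fun X => det3 P.rep Z.rep X.rep).prod))) := by
    unfold numW MM
    rw [Multiset.map_map]
    simp only [Multiset.map_cons, Multiset.prod_cons, Function.comp]
    rw [if_pos (hon E hEl), if_pos (hon Q hQl), hcaE, hcaQ]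
    congr 3
    have h1 : Multiset.map (fun x => if cb P A x = cb P A Z / a * ca P B x then ca P B x
        else cb P A x - cb P A Z / a * ca P B x) M0
        = M0.map (fun X => a⁻¹ * det3 P.rep Z.rep X.rep) := by
      apply Multiset.map_congr rfl
      intro X hX
      have := hoffv X (hoff X hX)
      rw [if_neg this.1, this.2]
    rw [h1, Multiset.prod_map_mul, Multiset.map_const', Multiset.prod_replicate]
  -- denominator
  have hKl : K.filter (fun p : PG F => p.orthogonal l0) = {P, Q, Z} := by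
    symm
    apply Finset.eq_of_subset_of_card_le
    · intro X hX
      simp only [Finset.mem_insert, Finset.mem_singleton] at hX
      rw [Finset.mem_filter]
      rcases hX with rfl | rfl | rfl
      · exact ⟨hP, hPl⟩
      · exact ⟨hQ, hQl⟩
      · exact ⟨hZ, hZl⟩
    · have h1 : (K.filter (fun p : PG F => p.orthogonal l0)).card = 3 := hsec
      rw [h1, Finset.card_insert_of_notMem (by simp [hPQ, hPZ]),
        Finset.card_insert_of_notMem (by simp [hQZ]), Finset.card_singleton]
  have hrest : ∀ X ∈ ((K.erase P).erase Q).erase Z, ¬ X.orthogonal l0 := by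
    intro X hX hXl
    simp only [Finset.mem_erase, ne_eq] at hX
    have : X ∈ K.filter (fun p : PG F => p.orthogonal l0) := by
      rw [Finset.mem_filter]; exact ⟨hX.2.2.2, hXl⟩
    rw [hKl] at this
    simp only [Finset.mem_insert, Finset.mem_singleton] at this
    tauto
  have hcard : (((K.erase P).erase Q).erase Z).card = Fintype.card F - 2 := by
    rw [Finset.card_erase_of_mem (by simp [hQZ.symm, hPZ.symm, hZ]),
      Finset.card_erase_of_mem hQe, Finset.card_erase_of_mem hP, hK]
    omega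
  have hden : denW (K.erase P) (ca P B) (cb P A) (cb P A Z / a)
      = (β * a) * (a * (a⁻¹ ^ (Fintype.card F - 2) *
          ∏ X ∈ ((K.erase P).erase Q).erase Z, det3 P.rep Z.rep X.rep)) := by
    unfold denW
    rw [← Finset.mul_prod_erase (K.erase P) _ hQe,
      ← Finset.mul_prod_erase ((K.erase P).erase Q) _ (show Z ∈ (K.erase P).erase Q by
        simp [hQZ.symm, hPZ.symm, hZ])]
    have h1 : cb P A Q / ca P B Q = cb P A Z / a := by
      have hBQ : ca P B Q ≠ 0 := hB Q hQe
      rw [div_eq_iff hBQ]; exact hon Q hQl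
    rw [if_pos h1, if_pos (show cb P A Z / ca P B Z = cb P A Z / a from rfl), hcaQ]
    congr 2
    have h2 : ∀ X ∈ ((K.erase P).erase Q).erase Z,
        (if cb P A X / ca P B X = cb P A Z / a then ca P B X
          else cb P A X - cb P A Z / a * ca P B X) = a⁻¹ * det3 P.rep Z.rep X.rep := by
      intro X hX
      have hXP : X ∈ K.erase P := Finset.mem_of_mem_erase (Finset.mem_of_mem_erase hX)
      have h3 := hoffv X (hrest X hX)
      rw [if_neg, h3.2]
      intro h4
      apply h3.1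
      have hBX : ca P B X ≠ 0 := hB X hXP
      rw [← h4, div_mul_cancel₀ _ hBX]
    rw [Finset.prod_congr rfl h2, Finset.prod_mul_distrib, Finset.prod_const, hcard]
  have hPi : (∏ X ∈ ((K.erase P).erase Q).erase Z, det3 P.rep Z.rep X.rep) ≠ 0 := by
    rw [Finset.prod_ne_zero_iff]
    intro X hX h
    exact hrest X hX ((on_line_iff hPZ hPl hZl X).mpr h)
  rw [hnum, hden]
  have hq : 7 ≤ Fintype.card F := by omega
  have hM0c : M0.card = Fintype.card F - 7 := by omega
  have hpow : a ^ (Fintype.card F - 1) = 1 := FiniteField.pow_card_sub_one_eq_one _ ha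
  rw [hM0c]
  have e1 : a⁻¹ ^ (Fintype.card F - 7) = a ^ 6 := by
    rw [inv_pow]
    apply inv_eq_of_mul_eq_one_right
    rw [← pow_add, ← hpow]
    congr 1; omega
  have e2 : a⁻¹ ^ (Fintype.card F - 2) = a := by
    rw [inv_pow]
    apply inv_eq_of_mul_eq_one_right
    rw [← pow_succ, ← hpow]
    congr 1; omega
  rw [e1, e2]
  field_simp

/-- **The harmonic relation.**  If the test multiset `E, E, Q, M0` (with `M0` off `l0`) hits all other
multisecants more than `3 (i - 2)` times, then `(δ α)² = (γ β)²` on the 3-secant `l0`. -/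
theorem harmonic_rel (hodd : Odd (Fintype.card F)) (hK : K.card = Fintype.card F + 1)
    {l0 P Q Z E : PG F}
    (hP : P ∈ K) (hQ : Q ∈ K) (hZ : Z ∈ K) (hPl : P.orthogonal l0) (hQl : Q.orthogonal l0)
    (hZl : Z.orthogonal l0) (hEl : E.orthogonal l0) (hPQ : P ≠ Q) (hQZ : Q ≠ Z) (hPZ : P ≠ Z)
    (hsec : secN K l0 = 3) (M0 : Multiset (PG F)) (hM0 : M0.card + 7 = Fintype.card F)
    (hoff : ∀ A ∈ M0, ¬ A.orthogonal l0)
    (hcov : ∀ l, l ≠ l0 → 3 ≤ secN K l → 3 * (secN K l - 2) < cnt (E ::ₘ E ::ₘ Q ::ₘ M0) l)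
    (α β γ δ : F) (hQr : Q.rep = α • P.rep + β • Z.rep) (hEr : E.rep = γ • P.rep + δ • Z.rep) :
    (δ * α) ^ 2 = (γ * β) ^ 2 := by
  obtain ⟨hβ, k1⟩ := kappa_three K hK hP hQ hZ hPl hQl hZl hEl hPQ hQZ hPZ hsec M0 hM0 hoff hcov
    α β γ δ hQr hEr
  obtain ⟨hα, k2⟩ := kappa_three K hK hZ hQ hP hZl hQl hPl hEl hQZ.symm hPQ.symm hPZ.symm hsec M0
    hM0 hoff hcov β α δ γ (by rw [hQr, add_comm]) (by rw [hEr, add_comm])
  have hMc : (E ::ₘ E ::ₘ Q ::ₘ M0).card + 4 = Fintype.card F := by
    simp only [Multiset.card_cons]; omega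
  have hsum := sum_kappa K (E ::ₘ E ::ₘ Q ::ₘ M0) hodd hK hMc
  have hQe : Q ∈ K.erase P := by simp [hPQ.symm, hQ]
  have hZe : Z ∈ (K.erase P).erase Q := by simp [hPZ.symm, hQZ.symm, hZ]
  have hKl : K.filter (fun p : PG F => p.orthogonal l0) = {P, Q, Z} := by
    symm
    apply Finset.eq_of_subset_of_card_le
    · intro X hX
      simp only [Finset.mem_insert, Finset.mem_singleton] at hX
      rw [Finset.mem_filter]
      rcases hX with rfl | rfl | rfl
      · exact ⟨hP, hPl⟩
      · exact ⟨hQ, hQl⟩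
      · exact ⟨hZ, hZl⟩
    · have h1 : (K.filter (fun p : PG F => p.orthogonal l0)).card = 3 := hsec
      rw [h1, Finset.card_insert_of_notMem (by simp [hPQ, hPZ]),
        Finset.card_insert_of_notMem (by simp [hQZ]), Finset.card_singleton]
  have hrest : ∀ X ∈ ((K.erase P).erase Q).erase Z, ¬ X.orthogonal l0 := by
    intro X hX hXl
    simp only [Finset.mem_erase, ne_eq] at hX
    have : X ∈ K.filter (fun p : PG F => p.orthogonal l0) := by
      rw [Finset.mem_filter]; exact ⟨hX.2.2.2, hXl⟩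
    rw [hKl] at this
    simp only [Finset.mem_insert, Finset.mem_singleton] at this
    tauto
  rw [← Finset.add_sum_erase K _ hP, ← Finset.add_sum_erase (K.erase P) _ hQe,
    ← Finset.add_sum_erase ((K.erase P).erase Q) _ hZe] at hsum
  have h0 : ∑ X ∈ ((K.erase P).erase Q).erase Z, kappa K (E ::ₘ E ::ₘ Q ::ₘ M0) X = 0 := by
    refine Finset.sum_eq_zero fun X hX => ?_
    have hXK : X ∈ K :=
      Finset.mem_of_mem_erase (Finset.mem_of_mem_erase (Finset.mem_of_mem_erase hX))
    apply kappa_eq_zero K _ hK hMc hXK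
    intro l hXl hl3
    apply hcov l _ hl3
    rintro rfl
    exact hrest X hX hXl
  have hkQ : kappa K (E ::ₘ E ::ₘ Q ::ₘ M0) Q = 0 :=
    kappa_of_mem K _ (by simp)
  rw [h0, hkQ, k1, k2, add_zero, zero_add] at hsum
  -- compare the products
  have hN : (M0.map fun X => det3 Z.rep P.rep X.rep).prod
      = (M0.map fun X => det3 P.rep Z.rep X.rep).prod := by
    have h1 : (M0.map fun X => det3 Z.rep P.rep X.rep)
        = M0.map (fun X => (-1) * det3 P.rep Z.rep X.rep) := by
      apply Multiset.map_congr rfl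
      intro X _
      rw [det3_swap]; ring
    have h2 : Even M0.card := by
      rcases hodd with ⟨k, hk⟩
      exact ⟨k - 3, by omega⟩
    rw [h1, Multiset.prod_map_mul, Multiset.map_const', Multiset.prod_replicate, h2.neg_one_pow,
      one_mul]
  have hcard : (((K.erase P).erase Q).erase Z).card = Fintype.card F - 2 := by
    rw [Finset.card_erase_of_mem hZe, Finset.card_erase_of_mem hQe, Finset.card_erase_of_mem hP, hK]
    omega
  have hPi : (∏ X ∈ ((K.erase P).erase Q).erase Z, det3 P.rep Z.rep X.rep) ≠ 0 := by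
    rw [Finset.prod_ne_zero_iff]
    intro X hX h
    exact hrest X hX ((on_line_iff hPZ hPl hZl X).mpr h)
  have hset : ((K.erase Z).erase Q).erase P = ((K.erase P).erase Q).erase Z := by
    ext X
    simp only [Finset.mem_erase]
    tauto
  have hD : (∏ X ∈ ((K.erase Z).erase Q).erase P, det3 Z.rep P.rep X.rep)
      = - ∏ X ∈ ((K.erase P).erase Q).erase Z, det3 P.rep Z.rep X.rep := by
    rw [hset]
    have h1 : ∀ X ∈ ((K.erase P).erase Q).erase Z, det3 Z.rep P.rep X.rep
        = (-1) * det3 P.rep Z.rep X.rep := by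
      intro X _
      rw [det3_swap]; ring
    have h2 : Odd (Fintype.card F - 2) := by
      rcases hodd with ⟨k, hk⟩
      exact ⟨k - 1, by omega⟩
    rw [Finset.prod_congr rfl h1, Finset.prod_mul_distrib, Finset.prod_const, hcard,
      h2.neg_one_pow, neg_one_mul]
  have hNne : (M0.map fun X => det3 P.rep Z.rep X.rep).prod ≠ 0 := by
    intro h
    rw [Multiset.prod_eq_zero_iff, Multiset.mem_map] at h
    obtain ⟨X, hX, h⟩ := h
    exact hoff X hX ((on_line_iff hPZ hPl hZl X).mpr h)
  rw [hN, hD] at hsum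
  set N := (M0.map fun X => det3 P.rep Z.rep X.rep).prod with hNdef
  set D := ∏ X ∈ ((K.erase P).erase Q).erase Z, det3 P.rep Z.rep X.rep with hDdef
  have h5 : N / D ^ 3 * (γ ^ 2 / α ^ 2 - δ ^ 2 / β ^ 2) = 0 := by
    have h6 : (-D) ^ 3 = - D ^ 3 := by ring
    rw [h6] at hsum
    rw [← hsum]
    rw [div_neg]
    ring
  have h6 := (mul_eq_zero.mp h5).resolve_left (div_ne_zero hNne (pow_ne_zero 3 hPi))
  rw [sub_eq_zero, div_eq_div_iff (pow_ne_zero 2 hα) (pow_ne_zero 2 hβ)] at h6
  linear_combination -h6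

end NonHit
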