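import Pool.Agent.Lib.MP_8b6d0b_co.Defs

/-! Double counting in `PG(2,q)`: for a `(q+1)`-set `S`,
`u0 S + ∑ l, C(i_l - 1, 2) = q(q-1)/2`. -/

namespace NonHit

open Projectivization
open scoped LinearAlgebra.Projectivization Classical

variable {F : Type*} [Field F]

theorem natCard_PG [Fintype F] :
    Fintype.card (PG F) = Fintype.card F ^ 2 + Fintype.card F + 1 := by
  have h := Projectivization.card_of_finrank (k := F) (V := Fin 3 → F) (n := 3) (by simp)
  rw [Nat.card_eq_fintype_card, Nat.card_eq_fintype_card] at h
  rw [h]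
  simp [Finset.sum_range_succ]
  ring

theorem order_PG [Fintype F] :
    Configuration.ProjectivePlane.order (PG F) (PG F) = Fintype.card F := by
  have h1 := Configuration.ProjectivePlane.card_points (PG F) (PG F)
  rw [natCard_PG] at h1
  set n := Configuration.ProjectivePlane.order (PG F) (PG F)
  set q := Fintype.card F
  rcases lt_trichotomy n q with h | h | h
  · nlinarith
  · exact h
  · nlinarith

theorem card_lines_through [Fintype F] (p : PG F) :
    (Finset.univ.filter fun l : PG F => p.orthogonal l).card = Fintype.card F + 1 := by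
  have h := Configuration.ProjectivePlane.lineCount_eq (P := PG F) (L := PG F) p
  rw [order_PG] at h
  rw [← h, Configuration.lineCount, Nat.card_eq_fintype_card, Fintype.card_subtype]
  rfl

theorem card_lines_two [Fintype F] (p r : PG F) (hpr : p ≠ r) :
    (Finset.univ.filter fun l : PG F => p.orthogonal l ∧ r.orthogonal l).card = 1 := by
  obtain ⟨l, hl, hu⟩ := Configuration.HasLines.existsUnique_line (P := PG F) (L := PG F) p r hpr
  rw [Finset.card_eq_one]
  refine ⟨l, ?_⟩
  ext m
  simp only [Finset.mem_filter, Finset.mem_univ, true_and, Finset.mem_singleton]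
  constructor
  · intro h
    exact hu m h
  · rintro rfl
    exact hl

theorem sum_secN [Fintype F] (S : Finset (PG F)) :
    ∑ l : PG F, secN S l = S.card * (Fintype.card F + 1) := by
  simp only [secN, Finset.card_filter]
  rw [Finset.sum_comm]
  rw [Finset.sum_congr rfl (g := fun _ => Fintype.card F + 1)]
  · simp
  · intro p _
    rw [← Finset.card_filter]
    exact card_lines_through p

theorem sum_secN_sq [Fintype F] (S : Finset (PG F)) :
    ∑ l : PG F, secN S l ^ 2 = S.card * (Fintype.card F + 1) + S.card * (S.card - 1) := by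
  have h1 : ∀ l : PG F, secN S l ^ 2 =
      ∑ p ∈ S, ∑ r ∈ S, if (p.orthogonal l ∧ r.orthogonal l) then 1 else 0 := by
    intro l
    rw [secN, Finset.card_filter, sq, Finset.sum_mul_sum]
    refine Finset.sum_congr rfl fun p _ => Finset.sum_congr rfl fun r _ => ?_
    by_cases hp : p.orthogonal l <;> by_cases hr : r.orthogonal l <;> simp [hp, hr]
  rw [Finset.sum_congr rfl fun l _ => h1 l, Finset.sum_comm]
  have h2 : ∀ p ∈ S, ∑ l : PG F, ∑ r ∈ S,
      (if (p.orthogonal l ∧ r.orthogonal l) then 1 else 0) =
      (Fintype.card F + 1) + (S.card - 1) := by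
    intro p hp
    rw [Finset.sum_comm, ← Finset.add_sum_erase S _ hp]
    congr 1
    · rw [← Finset.card_filter]
      simp only [and_self]
      exact card_lines_through p
    · rw [Finset.sum_congr rfl (g := fun _ => 1)]
      · simp [Finset.card_erase_of_mem hp]
      · intro r hr
        rw [← Finset.card_filter]
        exact card_lines_two p r (Finset.ne_of_mem_erase hr).symm
  rw [Finset.sum_congr rfl h2]
  simp
  ring

theorem choose_identity (i : ℕ) :
    2 * (if i = 0 then 1 else 0) + 2 * (i - 1).choose 2 + 3 * i = 2 + i ^ 2 := by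
  rcases i with _ | i
  · simp
  · simp only [Nat.add_sub_cancel, Nat.succ_ne_zero, if_false, mul_zero, zero_add]
    rw [Nat.choose_two_right]
    rcases i with _ | i
    · simp
    · simp only [Nat.add_sub_cancel]
      have : 2 ∣ (i + 1) * i := by
        rw [mul_comm]; exact (Nat.even_mul_succ_self i).two_dvd
      have h := Nat.mul_div_cancel' this
      rw [h]
      ring

theorem count_identity [Fintype F] (S : Finset (PG F)) (hS : S.card = Fintype.card F + 1) :
    u0 S + ∑ l : PG F, (secN S l - 1).choose 2
      = Fintype.card F * (Fintype.card F - 1) / 2 := by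
  have hu : u0 S = ∑ l : PG F, (if secN S l = 0 then 1 else 0) := by
    rw [u0, Finset.card_filter]
    refine Finset.sum_congr rfl fun l _ => ?_
    congr 1
    simp [secN, Finset.filter_eq_empty_iff]
  have h0 : ∑ l : PG F, (2 * (if secN S l = 0 then 1 else 0) +
      2 * (secN S l - 1).choose 2 + 3 * secN S l) = ∑ l : PG F, (2 + secN S l ^ 2) :=
    Finset.sum_congr rfl fun l _ => choose_identity _
  rw [Finset.sum_add_distrib, Finset.sum_add_distrib, ← Finset.mul_sum, ← Finset.mul_sum,
    ← Finset.mul_sum, ← hu, sum_secN, Finset.sum_add_distrib, sum_secN_sq, hS] at h0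
  simp only [Finset.sum_const, Finset.card_univ, smul_eq_mul, Nat.add_sub_cancel] at h0
  rw [natCard_PG] at h0
  set q := Fintype.card F with hq
  have hq1 : 1 ≤ q := Fintype.card_pos
  obtain ⟨k, hk⟩ : ∃ k, q = k + 1 := ⟨q - 1, by omega⟩
  rw [hk] at h0 ⊢
  simp only [Nat.add_sub_cancel]
  set A := u0 S + ∑ l : PG F, (secN S l - 1).choose 2 with hA
  have h2 : 2 * A = (k + 1) * k := by
    rw [hA]
    nlinarith
  omega

end NonHit
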