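import Pool.Agent.Lib.MP_8b6d0b_co.Defs

/-! The example: a conic minus a point plus an external point. -/

namespace NonHit

open Projectivization
open scoped LinearAlgebra.Projectivization Classical

variable {F : Type*} [Field F]

/-- The point `(1,t,t²)` of the conic. -/
noncomputable def cpt (t : F) : PG F := mk F ![1, t, t ^ 2] (by
  intro h; simpa using congrFun h 0)

/-- The point at infinity of the conic. -/
noncomputable def cinf : PG F := mk F ![0, 0, 1] (by
  intro h; simpa using congrFun h 2)

/-- The external point. -/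
noncomputable def cext : PG F := mk F ![0, 1, 0] (by
  intro h; simpa using congrFun h 1)

/-- The line `z = s x`. -/
noncomputable def cline (s : F) : PG F := mk F ![-s, 0, 1] (by
  intro h; simpa using congrFun h 2)

theorem cpt_inj : Function.Injective (cpt : F → PG F) := by
  intro t u h
  rw [cpt, cpt, mk_eq_mk_iff'] at h
  obtain ⟨a, ha⟩ := h
  have h0 := congrFun ha 0
  have h1 := congrFun ha 1
  simp at h0 h1
  subst h0
  simpa using h1.symm

theorem cline_inj : Function.Injective (cline : F → PG F) := by
  intro t u h
  rw [cline, cline, mk_eq_mk_iff'] at h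
  obtain ⟨a, ha⟩ := h
  have h0 := congrFun ha 0
  have h2 := congrFun ha 2
  simp at h0 h2
  subst h2
  simpa using h0.symm

theorem cpt_ne_cinf (t : F) : cpt t ≠ (cinf : PG F) := by
  intro h
  rw [cpt, cinf, mk_eq_mk_iff'] at h
  obtain ⟨a, ha⟩ := h
  have h0 := congrFun ha 0
  simp at h0

theorem cpt_ne_cext (t : F) : cpt t ≠ (cext : PG F) := by
  intro h
  rw [cpt, cext, mk_eq_mk_iff'] at h
  obtain ⟨a, ha⟩ := h
  have h0 := congrFun ha 0
  simp at h0

theorem cext_ne_cinf : (cext : PG F) ≠ cinf := by
  intro h
  rw [cinf, cext, mk_eq_mk_iff'] at h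
  obtain ⟨a, ha⟩ := h
  have h0 := congrFun ha 1
  simp at h0

/-- The example set. -/
noncomputable def exSet (F : Type*) [Field F] [Fintype F] : Finset (PG F) :=
  insert cext (insert cinf ((Finset.univ.filter fun t : F => t ≠ 1).image cpt))

theorem sum_exSet [Fintype F] (f : PG F → ℕ) :
    ∑ p ∈ exSet F, f p = f cext + (f cinf + ∑ t ∈ Finset.univ.filter (fun t : F => t ≠ 1),
      f (cpt t)) := by
  rw [exSet, Finset.sum_insert, Finset.sum_insert, Finset.sum_image]
  · intro a _ b _ h
    exact cpt_inj h
  · simp only [Finset.mem_image, not_exists, not_and]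
    intro t _ h
    exact cpt_ne_cinf t h
  · simp only [Finset.mem_insert, Finset.mem_image, not_or, not_exists, not_and]
    exact ⟨cext_ne_cinf, fun t _ h => cpt_ne_cext t h⟩

theorem card_ne_one [Fintype F] :
    (Finset.univ.filter fun t : F => t ≠ 1).card = Fintype.card F - 1 := by
  rw [Finset.filter_ne' Finset.univ (1 : F), Finset.card_erase_of_mem (Finset.mem_univ _),
    Finset.card_univ]

theorem card_exSet [Fintype F] : (exSet F).card = Fintype.card F + 1 := by
  rw [Finset.card_eq_sum_ones, sum_exSet, ← Finset.card_eq_sum_ones, card_ne_one]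
  have : 1 ≤ Fintype.card F := Fintype.card_pos
  omega

theorem secN_exSet [Fintype F] (l : PG F) :
    secN (exSet F) l = (if (cext : PG F).orthogonal l then 1 else 0) +
      ((if (cinf : PG F).orthogonal l then 1 else 0) +
        (Finset.univ.filter fun t : F => t ≠ 1 ∧ (cpt t).orthogonal l).card) := by
  rw [secN, Finset.card_filter, sum_exSet, ← Finset.card_filter, Finset.filter_filter]

/-- A nonzero quadratic has at most two roots. -/
theorem card_roots_le [Fintype F] (a b c : F) (hc : c ≠ 0) :
    (Finset.univ.filter fun t : F => t ≠ 1 ∧ a + b * t + c * t ^ 2 = 0).card ≤ 2 := by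
  by_contra hlt
  push Not at hlt
  obtain ⟨x, y, z, hx, hy, hz, hxy, hxz, hyz⟩ := Finset.two_lt_card_iff.mp hlt
  simp only [Finset.mem_filter, Finset.mem_univ, true_and] at hx hy hz
  have e1 : (x - y) * (b + c * (x + y)) = 0 := by linear_combination hx.2 - hy.2
  have e2 : (x - z) * (b + c * (x + z)) = 0 := by linear_combination hx.2 - hz.2
  have e3 := (mul_eq_zero.mp e1).resolve_left (sub_ne_zero.mpr hxy)
  have e4 := (mul_eq_zero.mp e2).resolve_left (sub_ne_zero.mpr hxz)
  have e5 : c * (y - z) = 0 := by linear_combination e3 - e4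
  exact hyz (sub_eq_zero.mp ((mul_eq_zero.mp e5).resolve_left hc))

theorem card_roots_le_one [Fintype F] (a b : F) (hb : b ≠ 0) :
    (Finset.univ.filter fun t : F => t ≠ 1 ∧ a + b * t = 0).card ≤ 1 := by
  rw [Finset.card_le_one]
  intro x hx y hy
  simp only [Finset.mem_filter, Finset.mem_univ, true_and] at hx hy
  have e1 : b * (x - y) = 0 := by linear_combination hx.2 - hy.2
  exact sub_eq_zero.mp ((mul_eq_zero.mp e1).resolve_left hb)

theorem term_zero [Fintype F] (l : PG F) (hl : ∀ s : F, cline s ≠ l) :
    (secN (exSet F) l - 1).choose 2 = 0 := by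
  apply Nat.choose_eq_zero_of_lt
  rw [secN_exSet]
  induction l using Projectivization.ind with | h v hv =>
  have hE : (cext : PG F).orthogonal (mk F v hv) ↔ v 1 = 0 := by
    rw [cext, orthogonal_mk]
    simp [dotProduct, Fin.sum_univ_three]
  have hI : (cinf : PG F).orthogonal (mk F v hv) ↔ v 2 = 0 := by
    rw [cinf, orthogonal_mk]
    simp [dotProduct, Fin.sum_univ_three]
  have hP : ∀ t : F, (cpt t).orthogonal (mk F v hv) ↔ v 0 + v 1 * t + v 2 * t ^ 2 = 0 := by
    intro t
    rw [cpt, orthogonal_mk]
    simp [dotProduct, Fin.sum_univ_three]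
    rw [mul_comm t, mul_comm (t ^ 2)]
  simp only [hE, hI, hP]
  by_cases h1 : v 1 = 0
  · by_cases h2 : v 2 = 0
    · have h0 : v 0 ≠ 0 := by
        intro h0
        apply hv
        funext i
        fin_cases i <;> simp [h0, h1, h2]
      have : (Finset.univ.filter fun t : F => t ≠ 1 ∧ v 0 + v 1 * t + v 2 * t ^ 2 = 0) = ∅ := by
        ext t
        simp [h1, h2, h0]
      rw [this]
      simp [h1, h2]
    · exfalso
      apply hl (-(v 0) / v 2)
      rw [cline, mk_eq_mk_iff']
      refine ⟨(v 2)⁻¹, ?_⟩
      funext i
      fin_cases i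
      · simp; field_simp
      · simp [h1]
      · simp [h2]
  · by_cases h2 : v 2 = 0
    · have : (Finset.univ.filter fun t : F => t ≠ 1 ∧ v 0 + v 1 * t + v 2 * t ^ 2 = 0) =
          (Finset.univ.filter fun t : F => t ≠ 1 ∧ v 0 + v 1 * t = 0) := by
        ext t
        simp [h2]
      rw [this]
      have := card_roots_le_one (v 0) (v 1) h1
      simp only [h1, h2, if_true, if_false]
      omega
    · have := card_roots_le (v 0) (v 1) (v 2) h2
      simp only [h1, h2, if_false]
      omega

/-- The number of square roots `≠ 1` of `s`. -/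
noncomputable def nrt [Fintype F] (s : F) : ℕ :=
  (Finset.univ.filter fun t : F => t ≠ 1 ∧ t ^ 2 = s).card

theorem secN_cline [Fintype F] (s : F) : secN (exSet F) (cline s) - 1 = nrt s := by
  rw [secN_exSet]
  have hE : (cext : PG F).orthogonal (cline s) := by
    rw [cext, cline, orthogonal_mk]
    simp [dotProduct, Fin.sum_univ_three]
  have hI : ¬ (cinf : PG F).orthogonal (cline s) := by
    rw [cinf, cline, orthogonal_mk]
    simp [dotProduct, Fin.sum_univ_three]
  have hP : ∀ t : F, (cpt t).orthogonal (cline s) ↔ t ^ 2 = s := by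
    intro t
    rw [cpt, cline, orthogonal_mk]
    simp [dotProduct, Fin.sum_univ_three]
    constructor
    · intro h; linear_combination h
    · intro h; linear_combination h
  simp only [hE, hI, hP, if_true, if_false, nrt]
  omega

theorem sum_nrt [Fintype F] : ∑ s : F, nrt s = Fintype.card F - 1 := by
  simp only [nrt]
  rw [← card_ne_one, Finset.card_eq_sum_card_fiberwise (f := fun t : F => t ^ 2)
    (t := Finset.univ) (fun _ _ => Finset.mem_coe.mpr (Finset.mem_univ _))]
  refine Finset.sum_congr rfl fun s _ => ?_
  rw [Finset.filter_filter]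

theorem sum_nrt_sq [Fintype F] (h2 : (2 : F) ≠ 0) :
    ∑ s : F, nrt s ^ 2 + 2 = 2 * (Fintype.card F - 1) := by
  have h1 : ∀ s : F, nrt s ^ 2 =
      ∑ t ∈ Finset.univ.filter (fun t : F => t ≠ 1), ∑ u ∈ Finset.univ.filter (fun t : F => t ≠ 1),
        (if t ^ 2 = s ∧ u ^ 2 = s then 1 else 0) := by
    intro s
    rw [nrt, ← Finset.filter_filter, Finset.card_filter, sq, Finset.sum_mul_sum]
    refine Finset.sum_congr rfl fun p _ => Finset.sum_congr rfl fun r _ => ?_
    by_cases hp : p ^ 2 = s <;> by_cases hr : r ^ 2 = s <;> simp [hp, hr]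
  rw [Finset.sum_congr rfl fun s _ => h1 s, Finset.sum_comm]
  have hm1 : (-1 : F) ≠ 1 := by
    intro h
    apply h2
    linear_combination -h
  have hval : ∀ t ∈ Finset.univ.filter (fun t : F => t ≠ 1),
      ∑ s : F, ∑ u ∈ Finset.univ.filter (fun t : F => t ≠ 1),
        (if t ^ 2 = s ∧ u ^ 2 = s then 1 else 0) +
        ((if t = 0 then 1 else 0) + (if t = -1 then 1 else 0)) = 2 := by
    intro t ht
    simp only [Finset.mem_filter, Finset.mem_univ, true_and] at ht
    rw [Finset.sum_comm]
    have hin : ∀ u : F, ∑ s : F, (if t ^ 2 = s ∧ u ^ 2 = s then 1 else 0) =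
        if u = t ∨ u = -t then 1 else 0 := by
      intro u
      by_cases h : u = t ∨ u = -t
      · have hu : u ^ 2 = t ^ 2 := by
          rcases h with h | h <;> rw [h] <;> ring
        rw [if_pos h, Finset.sum_eq_single (t ^ 2)]
        · simp [hu]
        · intro s _ hs
          rw [if_neg]
          rintro ⟨h1, _⟩
          exact hs h1.symm
        · intro h; exact absurd (Finset.mem_univ _) h
      · rw [if_neg h, Finset.sum_eq_zero]
        intro s _
        rw [if_neg]
        rintro ⟨h1, h2⟩
        apply h
        exact sq_eq_sq_iff_eq_or_eq_neg.mp (h2.trans h1.symm)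
    rw [Finset.sum_congr rfl fun u _ => hin u, ← Finset.card_filter, Finset.filter_filter]
    by_cases h0 : t = 0
    · have : (Finset.univ.filter fun u : F => u ≠ 1 ∧ (u = t ∨ u = -t)) = {0} := by
        ext u
        simp only [Finset.mem_filter, Finset.mem_univ, true_and, Finset.mem_singleton, h0, neg_zero,
          or_self]
        constructor
        · exact fun h => h.2
        · intro h; exact ⟨by rw [h]; exact zero_ne_one, h⟩
      rw [this]
      simp [h0]
    · by_cases h1 : t = -1
      · have : (Finset.univ.filter fun u : F => u ≠ 1 ∧ (u = t ∨ u = -t)) = {-1} := by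
          ext u
          simp only [Finset.mem_filter, Finset.mem_univ, true_and, Finset.mem_singleton, h1,
            neg_neg]
          constructor
          · rintro ⟨ha, hb | hb⟩
            · exact hb
            · exact absurd hb ha
          · intro h; exact ⟨by rw [h]; exact hm1, Or.inl h⟩
        rw [this]
        simp [h1]
      · have : (Finset.univ.filter fun u : F => u ≠ 1 ∧ (u = t ∨ u = -t)) = {t, -t} := by
          ext u
          simp only [Finset.mem_filter, Finset.mem_univ, true_and, Finset.mem_insert,
            Finset.mem_singleton]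
          constructor
          · exact fun h => h.2
          · intro h
            refine ⟨?_, h⟩
            rcases h with h | h
            · rw [h]; exact ht
            · rw [h]
              intro h'
              apply h1
              rw [← h', neg_neg]
        have hne : t ≠ -t := by
          intro h
          have : (2 : F) * t = 0 := by linear_combination h
          exact h0 ((mul_eq_zero.mp this).resolve_left h2)
        rw [this, Finset.card_pair hne]
        simp [h0, h1]
  have hs := Finset.sum_congr rfl hval
  rw [Finset.sum_add_distrib, Finset.sum_add_distrib] at hs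
  rw [Finset.sum_const, card_ne_one, smul_eq_mul] at hs
  have e0 : ∑ t ∈ Finset.univ.filter (fun t : F => t ≠ 1), (if t = 0 then 1 else 0) = 1 := by
    rw [Finset.sum_ite_eq' (Finset.univ.filter (fun t : F => t ≠ 1)) (0 : F) (fun _ => 1)]
    simp
  have e1 : ∑ t ∈ Finset.univ.filter (fun t : F => t ≠ 1), (if t = -1 then 1 else 0) = 1 := by
    rw [Finset.sum_ite_eq' (Finset.univ.filter (fun t : F => t ≠ 1)) (-1 : F) (fun _ => 1)]
    simp [hm1]
  rw [e0, e1] at hs
  rw [mul_comm 2]
  exact hs

theorem example_set [Fintype F] (hodd : Odd (Fintype.card F)) (h5 : 5 ≤ Fintype.card F) :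
    ∃ S : Finset (PG F), S.card = Fintype.card F + 1 ∧
      ∑ l : PG F, (secN S l - 1).choose 2 = (Fintype.card F - 3) / 2 := by
  have h2 : (2 : F) ≠ 0 := by
    intro h
    have hc : CharP F 2 := CharTwo.of_one_ne_zero_of_two_eq_zero one_ne_zero h
    have h3 := FiniteField.even_card_of_char_two (F := F) (ringChar.eq F 2 ▸ rfl)
    have h4 := Nat.odd_iff.mp hodd
    rw [h3] at h4
    exact absurd h4 (by decide)
  refine ⟨exSet F, card_exSet, ?_⟩
  have h1 : ∑ s : F, (nrt s).choose 2 = ∑ l : PG F, (secN (exSet F) l - 1).choose 2 := by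
    refine Finset.sum_of_injOn (cline : F → PG F) (fun _ _ _ _ h => cline_inj h)
      (fun _ _ => Finset.mem_coe.mpr (Finset.mem_univ _)) ?_ ?_
    · intro l _ hl
      apply term_zero
      intro s hs
      apply hl
      exact ⟨s, Finset.mem_coe.mpr (Finset.mem_univ _), hs⟩
    · intro s _
      rw [secN_cline]
  rw [← h1]
  have h3 : ∀ s : F, 2 * (nrt s).choose 2 + nrt s = nrt s ^ 2 := by
    intro s
    generalize nrt s = n
    rw [Nat.choose_two_right]
    rcases n with _ | n
    · simp
    · simp only [Nat.add_sub_cancel]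
      have : 2 ∣ (n + 1) * n := by
        rw [mul_comm]; exact (Nat.even_mul_succ_self n).two_dvd
      rw [Nat.mul_div_cancel' this]
      ring
  have h4 := Finset.sum_congr (rfl : (Finset.univ : Finset F) = Finset.univ) fun s _ => h3 s
  rw [Finset.sum_add_distrib, ← Finset.mul_sum, sum_nrt] at h4
  have h5' := sum_nrt_sq (F := F) h2
  omega

/-- The point `(1,0,0)`. -/
noncomputable def px : PG F := mk F ![1, 0, 0] (by
  intro h; simpa using congrFun h 0)

/-- The point `(1,1,0)`. -/
noncomputable def pxy : PG F := mk F ![1, 1, 0] (by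
  intro h; simpa using congrFun h 0)

theorem example_set_three [Fintype F] (_h3 : Fintype.card F = 3) :
    ∃ S : Finset (PG F), S.card = 4 ∧ ∑ l : PG F, (secN S l - 1).choose 2 = 1 := by
  have n1 : (px : PG F) ≠ cext := by
    intro h
    rw [px, cext, mk_eq_mk_iff'] at h
    obtain ⟨a, ha⟩ := h
    have h0 := congrFun ha 0
    simp at h0
  have n2 : (px : PG F) ≠ pxy := by
    intro h
    rw [px, pxy, mk_eq_mk_iff'] at h
    obtain ⟨a, ha⟩ := h
    have h0 := congrFun ha 0
    have h1 := congrFun ha 1
    simp at h0 h1
    exact one_ne_zero (h0.symm.trans h1)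
  have n3 : (px : PG F) ≠ cinf := by
    intro h
    rw [px, cinf, mk_eq_mk_iff'] at h
    obtain ⟨a, ha⟩ := h
    have h0 := congrFun ha 0
    simp at h0
  have n4 : (cext : PG F) ≠ pxy := by
    intro h
    rw [cext, pxy, mk_eq_mk_iff'] at h
    obtain ⟨a, ha⟩ := h
    have h0 := congrFun ha 0
    have h1 := congrFun ha 1
    simp at h0 h1
    exact one_ne_zero (h1.symm.trans h0)
  have n5 : (cext : PG F) ≠ cinf := cext_ne_cinf
  have n6 : (pxy : PG F) ≠ cinf := by
    intro h
    rw [pxy, cinf, mk_eq_mk_iff'] at h
    obtain ⟨a, ha⟩ := h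
    have h0 := congrFun ha 0
    simp at h0
  have hsum : ∀ f : PG F → ℕ, ∑ p ∈ ({px, cext, pxy, cinf} : Finset (PG F)), f p =
      f px + (f cext + (f pxy + f cinf)) := by
    intro f
    rw [Finset.sum_insert, Finset.sum_insert, Finset.sum_insert, Finset.sum_singleton]
    · simp [n6]
    · simp [n4, n5]
    · simp [n1, n2, n3]
  refine ⟨{px, cext, pxy, cinf}, ?_, ?_⟩
  · rw [Finset.card_eq_sum_ones, hsum]
  · rw [Finset.sum_eq_single (cinf : PG F)]
    · rw [secN, Finset.card_filter, hsum]
      have a1 : (px : PG F).orthogonal cinf := by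
        rw [px, cinf, orthogonal_mk]
        simp [dotProduct, Fin.sum_univ_three]
      have a2 : (cext : PG F).orthogonal cinf := by
        rw [cext, cinf, orthogonal_mk]
        simp [dotProduct, Fin.sum_univ_three]
      have a3 : (pxy : PG F).orthogonal cinf := by
        rw [pxy, cinf, orthogonal_mk]
        simp [dotProduct, Fin.sum_univ_three]
      have a4 : ¬ (cinf : PG F).orthogonal cinf := by
        rw [cinf, orthogonal_mk]
        simp [dotProduct, Fin.sum_univ_three]
      simp only [a1, a2, a3, a4, if_true, if_false]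
      decide
    · intro l _ hl
      apply Nat.choose_eq_zero_of_lt
      rw [secN, Finset.card_filter, hsum]
      induction l using Projectivization.ind with | h v hv =>
      have b1 : (px : PG F).orthogonal (mk F v hv) ↔ v 0 = 0 := by
        rw [px, orthogonal_mk]
        simp [dotProduct, Fin.sum_univ_three]
      have b2 : (cext : PG F).orthogonal (mk F v hv) ↔ v 1 = 0 := by
        rw [cext, orthogonal_mk]
        simp [dotProduct, Fin.sum_univ_three]
      have b3 : (pxy : PG F).orthogonal (mk F v hv) ↔ v 0 + v 1 = 0 := by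
        rw [pxy, orthogonal_mk]
        simp [dotProduct, Fin.sum_univ_three]
      have b4 : (cinf : PG F).orthogonal (mk F v hv) ↔ v 2 = 0 := by
        rw [cinf, orthogonal_mk]
        simp [dotProduct, Fin.sum_univ_three]
      simp only [b1, b2, b3, b4]
      by_cases h0 : v 0 = 0
      · by_cases h1 : v 1 = 0
        · exfalso
          apply hl
          have hv2 : v 2 ≠ 0 := by
            intro h
            apply hv
            funext i
            fin_cases i <;> simp [h0, h1, h]
          rw [cinf, mk_eq_mk_iff']
          refine ⟨v 2, ?_⟩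
          funext i
          fin_cases i <;> simp [h0, h1]
        · have : v 0 + v 1 ≠ 0 := by rw [h0, zero_add]; exact h1
          simp only [h0, h1, if_true, if_false, zero_add]
          split_ifs <;> norm_num
      · by_cases h1 : v 1 = 0
        · simp only [h0, h1, if_true, if_false, add_zero]
          split_ifs <;> norm_num
        · simp only [h0, h1, if_false]
          split_ifs <;> norm_num
    · intro h
      exact absurd (Finset.mem_univ _) h

end NonHit
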